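import Mathlib
set_option autoImplicit false
open Classical

namespace Pool.Agent.H10.Disc

lemma card_lt (m : ℕ) (u : ℝ) (hum : u ≤ m) :
    ((Finset.univ.filter (fun a : Fin m => ((a : ℕ) : ℝ) < u)).card) = ⌈u⌉₊ := by
  have h : (Finset.univ.filter (fun a : Fin m => ((a : ℕ) : ℝ) < u))
      = Finset.univ.filter (fun a : Fin m => (a : ℕ) < ⌈u⌉₊) := by
    ext a; simp [Nat.lt_ceil]
  rw [h, Fin.card_filter_val_lt]
  have : ⌈u⌉₊ ≤ m := Nat.ceil_le.mpr hum
  omega

/-- number of points in a half-open interval -/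
lemma card_Ico_le (m : ℕ) (u v : ℝ) (hu : 0 ≤ u) (huv : u ≤ v) (hvm : v ≤ m) :
    ((Finset.univ.filter (fun a : Fin m => u ≤ ((a : ℕ) : ℝ) ∧ ((a : ℕ) : ℝ) < v)).card : ℝ)
      ≤ v - u + 1 := by
  have h1 := card_lt m v hvm
  have h2 := card_lt m u (huv.trans hvm)
  have hdis : Disjoint (Finset.univ.filter (fun a : Fin m => ((a : ℕ) : ℝ) < u))
      (Finset.univ.filter (fun a : Fin m => u ≤ ((a : ℕ) : ℝ) ∧ ((a : ℕ) : ℝ) < v)) := by
    rw [Finset.disjoint_left]
    intro a ha hb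
    simp only [Finset.mem_filter, Finset.mem_univ, true_and] at ha hb
    linarith [hb.1]
  have hun : (Finset.univ.filter (fun a : Fin m => ((a : ℕ) : ℝ) < u)) ∪
      (Finset.univ.filter (fun a : Fin m => u ≤ ((a : ℕ) : ℝ) ∧ ((a : ℕ) : ℝ) < v))
      = Finset.univ.filter (fun a : Fin m => ((a : ℕ) : ℝ) < v) := by
    ext a
    simp only [Finset.mem_union, Finset.mem_filter, Finset.mem_univ, true_and]
    constructor
    · rintro (h | h)
      · linarith
      · exact h.2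
    · intro h
      by_cases h' : ((a : ℕ) : ℝ) < u
      · exact Or.inl h'
      · exact Or.inr ⟨not_lt.mp h', h⟩
  have hc := Finset.card_union_of_disjoint hdis
  rw [hun, h1, h2] at hc
  have hv : (⌈v⌉₊ : ℝ) < v + 1 := Nat.ceil_lt_add_one (hu.trans huv)
  have hu' : u ≤ (⌈u⌉₊ : ℝ) := Nat.le_ceil u
  have : (⌈v⌉₊ : ℝ) = (⌈u⌉₊ : ℝ) +
      ((Finset.univ.filter (fun a : Fin m => u ≤ ((a : ℕ) : ℝ) ∧ ((a : ℕ) : ℝ) < v)).card : ℝ) := by
    exact_mod_cast hc
  linarith

lemma prod_bound {ι : Type*} (s : Finset ι) (a c : ι → ℝ) (m : ℝ) (h0 : ∀ i ∈ s, 0 ≤ a i)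
    (hm : ∀ i ∈ s, a i ≤ m) (hm0 : 0 ≤ m) (hc0 : ∀ i ∈ s, 0 ≤ c i)
    (hc : ∀ i ∈ s, c i ≤ a i + 2) :
    ∏ i ∈ s, c i ≤ ∏ i ∈ s, a i + ((m + 2) ^ s.card - m ^ s.card) := by
  induction s using Finset.induction_on with
  | empty => simp
  | insert x s hx ih =>
    have ih' := ih (fun i hi => h0 i (Finset.mem_insert_of_mem hi))
      (fun i hi => hm i (Finset.mem_insert_of_mem hi))
      (fun i hi => hc0 i (Finset.mem_insert_of_mem hi))
      (fun i hi => hc i (Finset.mem_insert_of_mem hi))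
    rw [Finset.prod_insert hx, Finset.prod_insert hx, Finset.card_insert_of_notMem hx]
    have hx1 := h0 x (Finset.mem_insert_self x s)
    have hx2 := hm x (Finset.mem_insert_self x s)
    have hx3 := hc0 x (Finset.mem_insert_self x s)
    have hx4 := hc x (Finset.mem_insert_self x s)
    have hA : 0 ≤ ∏ i ∈ s, a i :=
      Finset.prod_nonneg (fun i hi => h0 i (Finset.mem_insert_of_mem hi))
    have hAm : ∏ i ∈ s, a i ≤ m ^ s.card := by
      calc ∏ i ∈ s, a i ≤ ∏ i ∈ s, m :=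
            Finset.prod_le_prod (fun i hi => h0 i (Finset.mem_insert_of_mem hi))
              (fun i hi => hm i (Finset.mem_insert_of_mem hi))
        _ = m ^ s.card := by simp
    have hE : 0 ≤ (m + 2) ^ s.card - m ^ s.card := by
      have : m ^ s.card ≤ (m + 2) ^ s.card := pow_le_pow_left₀ hm0 (by linarith) _
      linarith
    have hC : 0 ≤ ∏ i ∈ s, c i :=
      Finset.prod_nonneg (fun i hi => hc0 i (Finset.mem_insert_of_mem hi))
    calc c x * ∏ i ∈ s, c i ≤ (a x + 2) * (∏ i ∈ s, a i + ((m + 2) ^ s.card - m ^ s.card)) := by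
          apply mul_le_mul hx4 ih' hC (by linarith)
      _ = a x * ∏ i ∈ s, a i + 2 * ∏ i ∈ s, a i + (a x + 2) * ((m + 2) ^ s.card - m ^ s.card) := by
          ring
      _ ≤ a x * ∏ i ∈ s, a i + 2 * m ^ s.card + (m + 2) * ((m + 2) ^ s.card - m ^ s.card) := by
          have := mul_le_mul_of_nonneg_right (show a x + 2 ≤ m + 2 by linarith) hE
          linarith
      _ = a x * ∏ i ∈ s, a i + ((m + 2) ^ (s.card + 1) - m ^ (s.card + 1)) := by
          ring

/-- the point configuration: a grid whose top slab (in the last coordinate) is squeezed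
towards zero in the first coordinate -/
noncomputable def pt (e m k n : ℕ) (f : Fin (e + 2) → Fin m) (j : Fin (e + 2)) : ℝ :=
  if j = 0 ∧ ¬ ((f (Fin.last (e + 1)) : ℕ) + k < m) then ((f j : ℕ) : ℝ) / ((m : ℝ) * n)
  else ((f j : ℕ) : ℝ) / (m : ℝ)

lemma last_ne_zero (e : ℕ) : (Fin.last (e + 1)) ≠ 0 := by
  intro h
  have := congrArg Fin.val h
  simp at this

lemma pt_last (e m k n : ℕ) (f : Fin (e + 2) → Fin m) :
    pt e m k n f (Fin.last (e + 1)) = ((f (Fin.last (e + 1)) : ℕ) : ℝ) / (m : ℝ) := by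
  unfold pt
  rw [if_neg]
  rintro ⟨h, _⟩
  exact last_ne_zero e h

lemma pt_good (e m k n : ℕ) (f : Fin (e + 2) → Fin m)
    (hf : (f (Fin.last (e + 1)) : ℕ) + k < m) (j : Fin (e + 2)) :
    pt e m k n f j = ((f j : ℕ) : ℝ) / (m : ℝ) := by
  unfold pt
  rw [if_neg]
  rintro ⟨_, h⟩
  exact h hf

lemma pt_mem (e m k n : ℕ) (hn : 1 ≤ n) (f : Fin (e + 2) → Fin m) (j : Fin (e + 2)) :
    0 ≤ pt e m k n f j ∧ pt e m k n f j < 1 := by
  have hlt : ((f j : ℕ) : ℝ) < m := by exact_mod_cast (f j).2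
  have h0 : (0 : ℝ) ≤ ((f j : ℕ) : ℝ) := Nat.cast_nonneg _
  have hm : (0 : ℝ) < m := lt_of_le_of_lt h0 hlt
  have hn' : (1 : ℝ) ≤ n := by exact_mod_cast hn
  unfold pt
  split_ifs
  · constructor
    · positivity
    · rw [div_lt_one (by positivity)]
      nlinarith
  · constructor
    · positivity
    · rw [div_lt_one hm]
      exact hlt

end Pool.Agent.H10.Disc
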