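import Mathlib
import Pool.Agent.H10.Disc
set_option autoImplicit false
open Classical

namespace Pool.Agent.H10.Disc

/-- the star count -/
noncomputable def cntS (e m k n : ℕ) (t : Fin (e + 2) → ℝ) : ℕ :=
  (Finset.univ.filter (fun f : Fin (e + 2) → Fin m => ∀ j, pt e m k n f j < t j)).card

/-- the periodic count -/
noncomputable def cntP (e m k n : ℕ) (x y : Fin (e + 2) → ℝ) : ℕ :=
  (Finset.univ.filter (fun f : Fin (e + 2) → Fin m => ∀ j,
    if x j ≤ y j then (x j ≤ pt e m k n f j ∧ pt e m k n f j < y j)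
    else (pt e m k n f j < y j ∨ x j ≤ pt e m k n f j))).card

lemma star_bound (e k n : ℕ) (hn : 1 ≤ n) (hk : 1 ≤ k) (t : Fin (e + 2) → ℝ)
    (ht0 : ∀ j, 0 ≤ t j) (ht1 : ∀ j, t j ≤ 1) :
    |(cntS e (n * k) k n t : ℝ) - ((n * k : ℕ) : ℝ) ^ (e + 2) * ∏ j, t j|
      ≤ ((((n * k : ℕ) : ℝ) + 2) ^ (e + 2) - ((n * k : ℕ) : ℝ) ^ (e + 2))
        + (if 1 - 1 / (n : ℝ) < t (Fin.last (e + 1)) then ((n * k : ℕ) : ℝ) ^ (e + 2) / n else 0) := by
  set m : ℕ := n * k with hm
  have hn' : (1 : ℝ) ≤ n := by exact_mod_cast hn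
  have hk' : (1 : ℝ) ≤ k := by exact_mod_cast hk
  have hmR : (m : ℝ) = n * k := by rw [hm]; push_cast; ring
  have hm1 : (1 : ℝ) ≤ m := by rw [hmR]; nlinarith
  have hm0 : (0 : ℝ) < m := by linarith
  have hmk : (m : ℝ) * (1 - 1 / (n : ℝ)) = m - k := by
    rw [hmR]; field_simp
  have hinv : (0 : ℝ) ≤ 1 - 1 / (n : ℝ) := by
    have : 1 / (n : ℝ) ≤ 1 := by
      rw [div_le_one (by linarith)]; exact hn'
    linarith
  set L := Fin.last (e + 1) with hL
  set τ : Fin (e + 2) → ℝ := fun j => if j = L then min (t j) (1 - 1 / (n : ℝ)) else t j with hτ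
  have hτ0 : ∀ j, 0 ≤ τ j := by
    intro j
    simp only [hτ]
    split_ifs
    · exact le_min (ht0 j) hinv
    · exact ht0 j
  have hτt : ∀ j, τ j ≤ t j := by
    intro j
    simp only [hτ]
    split_ifs
    · exact min_le_left _ _
    · exact le_refl _
  have hτ1 : ∀ j, τ j ≤ 1 := fun j => (hτt j).trans (ht1 j)
  set G := Finset.univ.filter (fun f : Fin (e + 2) → Fin m =>
    ((f L : ℕ) + k < m) ∧ ∀ j, pt e m k n f j < t j) with hG
  set B := Finset.univ.filter (fun f : Fin (e + 2) → Fin m =>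
    ¬ ((f L : ℕ) + k < m) ∧ ∀ j, pt e m k n f j < t j) with hB
  have hcard : cntS e m k n t = G.card + B.card := by
    unfold cntS
    rw [← Finset.card_union_of_disjoint]
    · congr 1
      ext f
      simp only [hG, hB, Finset.mem_union, Finset.mem_filter, Finset.mem_univ, true_and]
      tauto
    · rw [Finset.disjoint_left]
      intro f hf hf'
      simp only [hG, hB, Finset.mem_filter, Finset.mem_univ, true_and] at hf hf'
      exact hf'.1 hf.1
  -- the good part is a product
  have hGprod : G = Fintype.piFinset (fun j : Fin (e + 2) =>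
      Finset.univ.filter (fun a : Fin m => ((a : ℕ) : ℝ) < m * τ j)) := by
    ext f
    simp only [hG, Finset.mem_filter, Finset.mem_univ, true_and, Fintype.mem_piFinset]
    constructor
    · rintro ⟨hf, hf'⟩ j
      have h1 := hf' j
      rw [pt_good e m k n f hf j, div_lt_iff₀ hm0] at h1
      simp only [hτ]
      split_ifs with hj
      · rw [mul_min_of_nonneg _ _ hm0.le, hmk]
        apply lt_min
        · linarith
        · have : ((f j : ℕ) : ℝ) + k < m := by
            rw [hj]; exact_mod_cast hf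
          linarith
      · linarith
    · intro hf
      have hfL := hf L
      have hgood : (f L : ℕ) + k < m := by
        have h2 : (m : ℝ) * τ L ≤ m - k := by
          rw [← hmk]
          apply mul_le_mul_of_nonneg_left _ hm0.le
          simp only [hτ, if_true]
          exact min_le_right _ _
        have h3 : ((f L : ℕ) : ℝ) + k < m := by linarith
        exact_mod_cast h3
      refine ⟨hgood, fun j => ?_⟩
      rw [pt_good e m k n f hgood j, div_lt_iff₀ hm0]
      have := hf j
      have h4 := mul_le_mul_of_nonneg_left (hτt j) hm0.le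
      linarith
  have hGcard : (G.card : ℝ) = ∏ j, (⌈(m : ℝ) * τ j⌉₊ : ℝ) := by
    rw [hGprod, Fintype.card_piFinset]
    push_cast
    apply Finset.prod_congr rfl
    intro j _
    rw [card_lt]
    have := mul_le_mul_of_nonneg_left (hτ1 j) hm0.le
    linarith
  have hGlow : ∏ j, ((m : ℝ) * τ j) ≤ (G.card : ℝ) := by
    rw [hGcard]
    apply Finset.prod_le_prod
    · intro j _; exact mul_nonneg hm0.le (hτ0 j)
    · intro j _; exact Nat.le_ceil _
  have hGup : (G.card : ℝ) ≤ ∏ j, ((m : ℝ) * τ j) + (((m : ℝ) + 2) ^ (e + 2) - (m : ℝ) ^ (e + 2)) := by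
    rw [hGcard]
    have := prod_bound Finset.univ (fun j => (m : ℝ) * τ j) (fun j => (⌈(m : ℝ) * τ j⌉₊ : ℝ)) m
      (fun j _ => mul_nonneg hm0.le (hτ0 j))
      (fun j _ => by
        have := mul_le_mul_of_nonneg_left (hτ1 j) hm0.le
        linarith)
      hm0.le (fun j _ => Nat.cast_nonneg _)
      (fun j _ => by
        have := Nat.ceil_lt_add_one (mul_nonneg hm0.le (hτ0 j))
        linarith)
    simpa using this
  have hprodm : ∏ j, ((m : ℝ) * τ j) = (m : ℝ) ^ (e + 2) * ∏ j, τ j := by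
    rw [Finset.prod_mul_distrib]
    simp
  -- the bad part
  have hBup : (B.card : ℝ) ≤ (if 1 - 1 / (n : ℝ) < t L then (m : ℝ) ^ (e + 2) / n else 0) := by
    split_ifs with hlt
    · have hsub : B ⊆ Fintype.piFinset (fun j : Fin (e + 2) =>
          if j = L then Finset.univ.filter (fun a : Fin m => ¬ ((a : ℕ) < m - k)) else Finset.univ) := by
        intro f hf
        simp only [hB, Finset.mem_filter, Finset.mem_univ, true_and] at hf
        rw [Fintype.mem_piFinset]
        intro j
        split_ifs with hj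
        · simp only [Finset.mem_filter, Finset.mem_univ, true_and]
          have := hf.1
          rw [hj]
          omega
        · simp
      have hc1 : (Finset.univ.filter (fun a : Fin m => ¬ ((a : ℕ) < m - k))).card = k := by
        have h5 := Finset.card_filter_add_card_filter_not (s := (Finset.univ : Finset (Fin m))) (fun a : Fin m => ((a : ℕ) < m - k))
        rw [Fin.card_filter_val_lt, Finset.card_univ, Fintype.card_fin] at h5
        have : k ≤ m := by
          rw [hm]
          nlinarith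
        omega
      have hc2 := Finset.card_le_card hsub
      rw [Fintype.card_piFinset] at hc2
      have hc3 : ∏ j : Fin (e + 2), (if j = L then
          Finset.univ.filter (fun a : Fin m => ¬ ((a : ℕ) < m - k)) else Finset.univ).card
          = m ^ (e + 1) * k := by
        rw [Fin.prod_univ_castSucc]
        have : ∀ i : Fin (e + 1), (Fin.castSucc i) ≠ L := fun i => (Fin.castSucc_lt_last i).ne
        simp only [this, if_false, Finset.card_univ, Fintype.card_fin, Finset.prod_const]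
        rw [← hL, if_pos rfl, hc1]
      rw [hc3] at hc2
      have hc4 : (B.card : ℝ) ≤ (m : ℝ) ^ (e + 1) * k := by exact_mod_cast hc2
      have hc5 : (m : ℝ) ^ (e + 2) / n = (m : ℝ) ^ (e + 1) * k := by
        rw [pow_succ (m : ℝ) (e + 1)]
        rw [div_eq_iff (by linarith)]
        rw [mul_assoc, hmR]
        ring
      rw [hc5]
      exact hc4
    · have : B = ∅ := by
        rw [Finset.eq_empty_iff_forall_notMem]
        intro f hf
        simp only [hB, Finset.mem_filter, Finset.mem_univ, true_and] at hf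
        have h1 := hf.2 L
        rw [pt_last, div_lt_iff₀ hm0] at h1
        have h2 : (m : ℝ) ≤ (f L : ℕ) + k := by
          have := not_lt.mp hf.1
          exact_mod_cast this
        have h3 : t L * m ≤ (1 - 1 / (n : ℝ)) * m :=
          mul_le_mul_of_nonneg_right (not_lt.mp hlt) hm0.le
        have h4 : (1 - 1 / (n : ℝ)) * m = m - k := by rw [mul_comm]; exact hmk
        rw [← hL] at h1
        linarith
      rw [this]
      simp
  have hτle : ∏ j, τ j ≤ ∏ j, t j := Finset.prod_le_prod (fun j _ => hτ0 j) (fun j _ => hτt j)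
  have hdiff : (m : ℝ) ^ (e + 2) * (∏ j, t j - ∏ j, τ j)
      ≤ (if 1 - 1 / (n : ℝ) < t L then (m : ℝ) ^ (e + 2) / n else 0) := by
    have hcast : ∀ i : Fin (e + 1), (Fin.castSucc i) ≠ L := fun i => (Fin.castSucc_lt_last i).ne
    have hP1 : ∏ j, t j = (∏ i : Fin (e + 1), t (Fin.castSucc i)) * t L := Fin.prod_univ_castSucc t
    have hP2 : ∏ j, τ j = (∏ i : Fin (e + 1), t (Fin.castSucc i)) * min (t L) (1 - 1 / (n : ℝ)) := by
      have h := Fin.prod_univ_castSucc τ
      have h1 : ∀ i : Fin (e + 1), τ (Fin.castSucc i) = t (Fin.castSucc i) := by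
        intro i
        simp only [hτ, hcast i, if_false]
      have h2 : τ (Fin.last (e + 1)) = min (t L) (1 - 1 / (n : ℝ)) := by
        simp only [hτ, hL, if_true]
      rw [h, h2]
      simp only [h1]
    rw [hP1, hP2]
    split_ifs with hlt
    · rw [min_eq_right hlt.le]
      have hA0 : 0 ≤ ∏ i : Fin (e + 1), t (Fin.castSucc i) := Finset.prod_nonneg (fun i _ => ht0 _)
      have hA1 : ∏ i : Fin (e + 1), t (Fin.castSucc i) ≤ 1 :=
        Finset.prod_le_one (fun i _ => ht0 _) (fun i _ => ht1 _)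
      have h1 : (∏ i : Fin (e + 1), t (Fin.castSucc i)) * t L
          - (∏ i : Fin (e + 1), t (Fin.castSucc i)) * (1 - 1 / (n : ℝ)) ≤ 1 / (n : ℝ) := by
        have h2 : t L - (1 - 1 / (n : ℝ)) ≤ 1 / n := by
          have := ht1 L
          linarith
        have h3 : 0 ≤ 1 / (n : ℝ) := by positivity
        calc _ = (∏ i : Fin (e + 1), t (Fin.castSucc i)) * (t L - (1 - 1 / (n : ℝ))) := by ring
          _ ≤ (∏ i : Fin (e + 1), t (Fin.castSucc i)) * (1 / n) :=
              mul_le_mul_of_nonneg_left h2 hA0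
          _ ≤ 1 * (1 / n) := mul_le_mul_of_nonneg_right hA1 h3
          _ = 1 / n := one_mul _
      calc _ ≤ (m : ℝ) ^ (e + 2) * (1 / n) := mul_le_mul_of_nonneg_left h1 (by positivity)
        _ = (m : ℝ) ^ (e + 2) / n := by ring
    · rw [min_eq_left (not_lt.mp hlt)]
      simp
  have hB0 : (0 : ℝ) ≤ B.card := Nat.cast_nonneg _
  have hdiff0 : 0 ≤ (m : ℝ) ^ (e + 2) * (∏ j, t j - ∏ j, τ j) :=
    mul_nonneg (by positivity) (by linarith)
  have hE0 : 0 ≤ ((m : ℝ) + 2) ^ (e + 2) - (m : ℝ) ^ (e + 2) := by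
    have : (m : ℝ) ^ (e + 2) ≤ ((m : ℝ) + 2) ^ (e + 2) := pow_le_pow_left₀ hm0.le (by linarith) _
    linarith
  rw [hcard]
  push_cast
  rw [hprodm] at hGlow hGup
  rw [abs_le]
  have hexp : (m : ℝ) ^ (e + 2) * (∏ j, t j - ∏ j, τ j)
      = (m : ℝ) ^ (e + 2) * ∏ j, t j - (m : ℝ) ^ (e + 2) * ∏ j, τ j := by ring
  rw [hexp] at hdiff hdiff0
  constructor
  · linarith
  · linarith

lemma per_bound (e k n : ℕ) (hn : 4 ≤ n) (hk : 1 ≤ k) (x y : Fin (e + 2) → ℝ)
    (hx : ∀ j, (if j = Fin.last (e + 1) then (1 / 2 : ℝ) else 1 / 4) ≤ x j)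
    (hx' : ∀ j, x j ≤ (if j = Fin.last (e + 1) then (2 / 3 : ℝ) else 1 / 3))
    (hy : ∀ j, (if j = Fin.last (e + 1) then (0 : ℝ) else 2 / 3) ≤ y j)
    (hy' : ∀ j, y j ≤ (if j = Fin.last (e + 1) then (1 / 4 : ℝ) else 3 / 4)) :
    ((n * k : ℕ) : ℝ) ^ (e + 2) / n * (1 / 3) ^ (e + 1)
      - ((((n * k : ℕ) : ℝ) + 2) ^ (e + 2) - ((n * k : ℕ) : ℝ) ^ (e + 2))
    ≤ |(cntP e (n * k) k n x y : ℝ) - ((n * k : ℕ) : ℝ) ^ (e + 2) *
        ∏ j, (if x j ≤ y j then y j - x j else 1 - x j + y j)| := by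
  set m : ℕ := n * k with hm
  have hn' : (4 : ℝ) ≤ n := by exact_mod_cast hn
  have hk' : (1 : ℝ) ≤ k := by exact_mod_cast hk
  have hmR : (m : ℝ) = n * k := by rw [hm]; push_cast; ring
  have hm1 : (1 : ℝ) ≤ m := by rw [hmR]; nlinarith
  have hm0 : (0 : ℝ) < m := by linarith
  have hmk : (m : ℝ) * (1 - 1 / (n : ℝ)) = m - k := by
    rw [hmR]; field_simp
  have hinv4 : 1 / (n : ℝ) ≤ 1 / 4 := one_div_le_one_div_of_le (by norm_num) hn'
  set L := Fin.last (e + 1) with hL
  have hcast : ∀ i : Fin (e + 1), (Fin.castSucc i) ≠ L := fun i => (Fin.castSucc_lt_last i).ne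
  have h0L : (0 : Fin (e + 2)) ≠ L := fun h => last_ne_zero e h.symm
  have hxL1 : 1 / 2 ≤ x L := by simpa using hx L
  have hxL2 : x L ≤ 2 / 3 := by simpa using hx' L
  have hyL1 : 0 ≤ y L := by simpa using hy L
  have hyL2 : y L ≤ 1 / 4 := by simpa using hy' L
  have hxj1 : ∀ j, j ≠ L → 1 / 4 ≤ x j := fun j hj => by simpa [hj] using hx j
  have hxj2 : ∀ j, j ≠ L → x j ≤ 1 / 3 := fun j hj => by simpa [hj] using hx' j
  have hyj1 : ∀ j, j ≠ L → 2 / 3 ≤ y j := fun j hj => by simpa [hj] using hy j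
  have hyj2 : ∀ j, j ≠ L → y j ≤ 3 / 4 := fun j hj => by simpa [hj] using hy' j
  set w : Fin (e + 2) → ℝ := fun j => if j = L then 1 - 1 / (n : ℝ) - x j + y j else y j - x j with hw
  have hw0 : ∀ j, 0 ≤ w j := by
    intro j
    simp only [hw]
    split_ifs with hj
    · rw [hj]; linarith
    · linarith [hxj2 j hj, hyj1 j hj]
  have hw1 : ∀ j, w j ≤ 1 := by
    intro j
    simp only [hw]
    have : 0 ≤ 1 / (n : ℝ) := by positivity
    split_ifs with hj
    · rw [hj]; linarith
    · linarith [hxj1 j hj, hyj2 j hj]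
  -- the count is at most a product
  have hsub : (Finset.univ.filter (fun f : Fin (e + 2) → Fin m => ∀ j,
      if x j ≤ y j then (x j ≤ pt e m k n f j ∧ pt e m k n f j < y j)
      else (pt e m k n f j < y j ∨ x j ≤ pt e m k n f j)))
      ⊆ Fintype.piFinset (fun j : Fin (e + 2) => if j = L then
          (Finset.univ.filter (fun a : Fin m => ((a : ℕ) : ℝ) < m * y j)) ∪
          (Finset.univ.filter (fun a : Fin m => m * x j ≤ ((a : ℕ) : ℝ) ∧ ((a : ℕ) : ℝ) < m - k))
        else Finset.univ.filter (fun a : Fin m => m * x j ≤ ((a : ℕ) : ℝ) ∧ ((a : ℕ) : ℝ) < m * y j)) := by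
    intro f hf
    simp only [Finset.mem_filter, Finset.mem_univ, true_and] at hf
    have hgood : (f L : ℕ) + k < m := by
      by_contra hbad
      have h0 := hf 0
      rw [if_pos (by linarith [hxj2 0 h0L, hyj1 0 h0L])] at h0
      have h1 : pt e m k n f 0 < 1 / 4 := by
        unfold pt
        rw [if_pos ⟨rfl, hbad⟩]
        have hlt : ((f 0 : ℕ) : ℝ) < m := by exact_mod_cast (f 0).2
        rw [div_lt_iff₀ (by positivity)]
        nlinarith
      linarith [hxj1 0 h0L, h0.1]
    rw [Fintype.mem_piFinset]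
    intro j
    have hj := hf j
    rw [pt_good e m k n f hgood j] at hj
    split_ifs with hjL
    · rw [hjL] at hj ⊢
      rw [if_neg (by linarith), div_lt_iff₀ hm0, le_div_iff₀ hm0] at hj
      simp only [Finset.mem_union, Finset.mem_filter, Finset.mem_univ, true_and]
      rcases hj with h | h
      · left; linarith
      · right
        refine ⟨by linarith, ?_⟩
        have : ((f L : ℕ) : ℝ) + k < m := by exact_mod_cast hgood
        linarith
    · rw [if_pos (by linarith [hxj2 j hjL, hyj1 j hjL]), div_lt_iff₀ hm0, le_div_iff₀ hm0] at hj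
      simp only [Finset.mem_filter, Finset.mem_univ, true_and]
      exact ⟨by linarith [hj.1], by linarith [hj.2]⟩
  have hcard := Finset.card_le_card hsub
  rw [Fintype.card_piFinset] at hcard
  have hcntR : (cntP e m k n x y : ℝ) ≤ ∏ j : Fin (e + 2), ((if j = L then
          (Finset.univ.filter (fun a : Fin m => ((a : ℕ) : ℝ) < m * y j)) ∪
          (Finset.univ.filter (fun a : Fin m => m * x j ≤ ((a : ℕ) : ℝ) ∧ ((a : ℕ) : ℝ) < m - k))
        else Finset.univ.filter (fun a : Fin m => m * x j ≤ ((a : ℕ) : ℝ) ∧ ((a : ℕ) : ℝ) < m * y j)).card : ℝ) := by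
    unfold cntP
    exact_mod_cast hcard
  have hfac : ∀ j : Fin (e + 2), ((if j = L then
          (Finset.univ.filter (fun a : Fin m => ((a : ℕ) : ℝ) < m * y j)) ∪
          (Finset.univ.filter (fun a : Fin m => m * x j ≤ ((a : ℕ) : ℝ) ∧ ((a : ℕ) : ℝ) < m - k))
        else Finset.univ.filter (fun a : Fin m => m * x j ≤ ((a : ℕ) : ℝ) ∧ ((a : ℕ) : ℝ) < m * y j)).card : ℝ)
        ≤ m * w j + 2 := by
    intro j
    split_ifs with hj
    · have h1 := Finset.card_union_le (Finset.univ.filter (fun a : Fin m => ((a : ℕ) : ℝ) < m * y j))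
        (Finset.univ.filter (fun a : Fin m => m * x j ≤ ((a : ℕ) : ℝ) ∧ ((a : ℕ) : ℝ) < m - k))
      have h2 : (((Finset.univ.filter (fun a : Fin m => ((a : ℕ) : ℝ) < m * y j)) ∪
          (Finset.univ.filter (fun a : Fin m => m * x j ≤ ((a : ℕ) : ℝ) ∧ ((a : ℕ) : ℝ) < m - k))).card : ℝ)
          ≤ ((Finset.univ.filter (fun a : Fin m => ((a : ℕ) : ℝ) < m * y j)).card : ℝ)
          + ((Finset.univ.filter (fun a : Fin m => m * x j ≤ ((a : ℕ) : ℝ) ∧ ((a : ℕ) : ℝ) < m - k)).card : ℝ) := by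
        exact_mod_cast h1
      have h3 : ((Finset.univ.filter (fun a : Fin m => ((a : ℕ) : ℝ) < m * y j)).card : ℝ) < m * y j + 1 := by
        rw [card_lt m (m * y j) (by rw [hj]; nlinarith)]
        apply Nat.ceil_lt_add_one
        rw [hj]; positivity
      have h4 := card_Ico_le m (m * x j) (m - k) (by rw [hj]; nlinarith)
        (by
          rw [hj, ← hmk]
          apply mul_le_mul_of_nonneg_left _ hm0.le
          linarith)
        (by linarith)
      have h5 : w j = 1 - 1 / (n : ℝ) - x j + y j := by simp only [hw, hj, if_true]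
      have h6 : (m : ℝ) * w j = (m - k) - m * x j + m * y j := by
        rw [h5, ← hmk]; ring
      linarith
    · have h4 := card_Ico_le m (m * x j) (m * y j)
        (mul_nonneg hm0.le (by linarith [hxj1 j hj]))
        (mul_le_mul_of_nonneg_left (by linarith [hxj2 j hj, hyj1 j hj]) hm0.le)
        (by nlinarith [hyj2 j hj])
      have h5 : w j = y j - x j := by simp only [hw, hj, if_false]
      have h6 : (m : ℝ) * w j = m * y j - m * x j := by rw [h5]; ring
      linarith
  have hpb := prod_bound Finset.univ (fun j => (m : ℝ) * w j) (fun j => ((if j = L then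
          (Finset.univ.filter (fun a : Fin m => ((a : ℕ) : ℝ) < m * y j)) ∪
          (Finset.univ.filter (fun a : Fin m => m * x j ≤ ((a : ℕ) : ℝ) ∧ ((a : ℕ) : ℝ) < m - k))
        else Finset.univ.filter (fun a : Fin m => m * x j ≤ ((a : ℕ) : ℝ) ∧ ((a : ℕ) : ℝ) < m * y j)).card : ℝ))
      m (fun j _ => mul_nonneg hm0.le (hw0 j))
      (fun j _ => by
        have := mul_le_mul_of_nonneg_left (hw1 j) hm0.le
        linarith)
      hm0.le (fun j _ => Nat.cast_nonneg _) (fun j _ => hfac j)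
  have hprodm : ∏ j, ((m : ℝ) * w j) = (m : ℝ) ^ (e + 2) * ∏ j, w j := by
    rw [Finset.prod_mul_distrib]
    simp
  rw [hprodm, Finset.card_univ, Fintype.card_fin] at hpb
  have hcnt : (cntP e m k n x y : ℝ) ≤ (m : ℝ) ^ (e + 2) * ∏ j, w j
      + (((m : ℝ) + 2) ^ (e + 2) - (m : ℝ) ^ (e + 2)) := le_trans hcntR hpb
  -- the volume
  have hvol : ∏ j, (if x j ≤ y j then y j - x j else 1 - x j + y j)
      = ∏ j, w j + (∏ i : Fin (e + 1), (y (Fin.castSucc i) - x (Fin.castSucc i))) * (1 / n) := by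
    have hP1 := Fin.prod_univ_castSucc (fun j : Fin (e + 2) => if x j ≤ y j then y j - x j else 1 - x j + y j)
    have hP2 := Fin.prod_univ_castSucc w
    have h1 : ∀ i : Fin (e + 1), (if x (Fin.castSucc i) ≤ y (Fin.castSucc i)
        then y (Fin.castSucc i) - x (Fin.castSucc i)
        else 1 - x (Fin.castSucc i) + y (Fin.castSucc i)) = y (Fin.castSucc i) - x (Fin.castSucc i) := by
      intro i
      rw [if_pos (by linarith [hxj2 _ (hcast i), hyj1 _ (hcast i)])]
    have h2 : ∀ i : Fin (e + 1), w (Fin.castSucc i) = y (Fin.castSucc i) - x (Fin.castSucc i) := by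
      intro i
      simp only [hw, hcast i, if_false]
    have h3 : w L = 1 - 1 / (n : ℝ) - x L + y L := by simp only [hw, if_true]
    simp only [h1] at hP1
    simp only [h2] at hP2
    rw [hP1, hP2, ← hL, h3, if_neg (by linarith)]
    ring
  have hA : (1 / 3 : ℝ) ^ (e + 1) ≤ ∏ i : Fin (e + 1), (y (Fin.castSucc i) - x (Fin.castSucc i)) := by
    calc (1 / 3 : ℝ) ^ (e + 1) = ∏ i : Fin (e + 1), (1 / 3 : ℝ) := by simp
      _ ≤ _ := Finset.prod_le_prod (fun i _ => by norm_num)
          (fun i _ => by linarith [hxj2 _ (hcast i), hyj1 _ (hcast i)])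
  rw [hvol, abs_sub_comm]
  refine le_trans ?_ (le_abs_self _)
  have hfin : (m : ℝ) ^ (e + 2) / n * (1 / 3) ^ (e + 1)
      ≤ (m : ℝ) ^ (e + 2) * ((∏ i : Fin (e + 1), (y (Fin.castSucc i) - x (Fin.castSucc i))) * (1 / n)) := by
    calc (m : ℝ) ^ (e + 2) / n * (1 / 3) ^ (e + 1)
        ≤ (m : ℝ) ^ (e + 2) / n * ∏ i : Fin (e + 1), (y (Fin.castSucc i) - x (Fin.castSucc i)) :=
          mul_le_mul_of_nonneg_left hA (by positivity)
      _ = _ := by ring
  have hexp : (m : ℝ) ^ (e + 2) * (∏ j, w j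
      + (∏ i : Fin (e + 1), (y (Fin.castSucc i) - x (Fin.castSucc i))) * (1 / n))
      = (m : ℝ) ^ (e + 2) * ∏ j, w j + (m : ℝ) ^ (e + 2) *
        ((∏ i : Fin (e + 1), (y (Fin.castSucc i) - x (Fin.castSucc i))) * (1 / n)) := by ring
  rw [hexp]
  linarith

end Pool.Agent.H10.Disc
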