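import Mathlib
import Pool.Agent.H10.Disc2
set_option autoImplicit false
open Classical MeasureTheory

namespace Pool.Agent.H10.Disc

/-- integral of the p-th power of the star discrepancy function -/
noncomputable def starInt (p : ℝ) (d N : ℕ) (P : Fin N → Fin d → ℝ) : ℝ :=
  ∫ t in Set.Icc (0 : Fin d → ℝ) 1,
    |((Finset.univ.filter (fun i : Fin N => ∀ j : Fin d, P i j < t j)).card : ℝ)
      - (N : ℝ) * ∏ j : Fin d, t j| ^ p

/-- integral of the p-th power of the periodic discrepancy function -/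
noncomputable def perInt (p : ℝ) (d N : ℕ) (P : Fin N → Fin d → ℝ) : ℝ :=
  ∫ x in Set.Icc (0 : Fin d → ℝ) 1, ∫ y in Set.Icc (0 : Fin d → ℝ) 1,
    |((Finset.univ.filter (fun i : Fin N => ∀ j : Fin d,
          if x j ≤ y j then (x j ≤ P i j ∧ P i j < y j)
          else (P i j < y j ∨ x j ≤ P i j))).card : ℝ)
      - (N : ℝ) * ∏ j : Fin d, (if x j ≤ y j then y j - x j else 1 - x j + y j)| ^ p

lemma vol_unit (d : ℕ) : (volume (Set.Icc (0 : Fin d → ℝ) 1)) = 1 := by
  rw [Real.volume_Icc_pi]; simp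

lemma measurableSet_box (d : ℕ) (v : Fin d → ℝ) :
    MeasurableSet {z : (Fin d → ℝ) × (Fin d → ℝ) | ∀ j : Fin d,
          if z.1 j ≤ z.2 j then (z.1 j ≤ v j ∧ v j < z.2 j)
          else (v j < z.2 j ∨ z.1 j ≤ v j)} := by
  rw [Set.ofPred_forall]
  refine MeasurableSet.iInter fun j => ?_
  have h1 : Measurable (fun z : (Fin d → ℝ) × (Fin d → ℝ) => z.1 j) :=
    (measurable_pi_apply j).comp measurable_fst
  have h2 : Measurable (fun z : (Fin d → ℝ) × (Fin d → ℝ) => z.2 j) :=
    (measurable_pi_apply j).comp measurable_snd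
  have hc : MeasurableSet {z : (Fin d → ℝ) × (Fin d → ℝ) | z.1 j ≤ z.2 j} :=
    measurableSet_le h1 h2
  have ha : MeasurableSet {z : (Fin d → ℝ) × (Fin d → ℝ) | z.1 j ≤ v j ∧ v j < z.2 j} :=
    (measurableSet_le h1 measurable_const).inter (measurableSet_lt measurable_const h2)
  have hb : MeasurableSet {z : (Fin d → ℝ) × (Fin d → ℝ) | v j < z.2 j ∨ z.1 j ≤ v j} :=
    (measurableSet_lt measurable_const h2).union (measurableSet_le h1 measurable_const)
  have : {z : (Fin d → ℝ) × (Fin d → ℝ) | if z.1 j ≤ z.2 j then (z.1 j ≤ v j ∧ v j < z.2 j)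
          else (v j < z.2 j ∨ z.1 j ≤ v j)}
      = ({z | z.1 j ≤ z.2 j} ∩ {z | z.1 j ≤ v j ∧ v j < z.2 j})
        ∪ ({z | z.1 j ≤ z.2 j}ᶜ ∩ {z | v j < z.2 j ∨ z.1 j ≤ v j}) := by
    ext z
    simp only [Set.mem_ofPred_eq, Set.mem_union, Set.mem_inter_iff, Set.mem_compl_iff]
    by_cases h : z.1 j ≤ z.2 j
    · simp only [h, if_true, true_and, not_true, false_and, or_false]
    · simp only [h, if_false, false_and, not_false_eq_true, true_and, false_or]
  rw [this]
  exact (hc.inter ha).union (hc.compl.inter hb)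

lemma meas_F (p : ℝ) (d N : ℕ) (P : Fin N → Fin d → ℝ) :
    Measurable (fun z : (Fin d → ℝ) × (Fin d → ℝ) =>
      |((Finset.univ.filter (fun i : Fin N => ∀ j : Fin d,
          if z.1 j ≤ z.2 j then (z.1 j ≤ P i j ∧ P i j < z.2 j)
          else (P i j < z.2 j ∨ z.1 j ≤ P i j))).card : ℝ)
      - (N : ℝ) * ∏ j : Fin d, (if z.1 j ≤ z.2 j then z.2 j - z.1 j else 1 - z.1 j + z.2 j)| ^ p) := by
  apply Measurable.pow_const
  refine (continuous_abs.measurable).comp ?_
  apply Measurable.sub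
  · have h : (fun z : (Fin d → ℝ) × (Fin d → ℝ) => ((Finset.univ.filter (fun i : Fin N => ∀ j : Fin d,
          if z.1 j ≤ z.2 j then (z.1 j ≤ P i j ∧ P i j < z.2 j)
          else (P i j < z.2 j ∨ z.1 j ≤ P i j))).card : ℝ))
        = fun z => ∑ i : Fin N, (if (∀ j : Fin d,
          if z.1 j ≤ z.2 j then (z.1 j ≤ P i j ∧ P i j < z.2 j)
          else (P i j < z.2 j ∨ z.1 j ≤ P i j)) then (1 : ℝ) else 0) := by
      funext z
      rw [Finset.card_filter]
      push_cast
      rfl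
    rw [h]
    refine Finset.measurable_sum _ fun i _ => ?_
    exact Measurable.ite (measurableSet_box d (P i)) measurable_const measurable_const
  · apply Measurable.const_mul
    refine Finset.measurable_prod _ fun j _ => ?_
    have h1 : Measurable (fun z : (Fin d → ℝ) × (Fin d → ℝ) => z.1 j) :=
      (measurable_pi_apply j).comp measurable_fst
    have h2 : Measurable (fun z : (Fin d → ℝ) × (Fin d → ℝ) => z.2 j) :=
      (measurable_pi_apply j).comp measurable_snd
    exact Measurable.ite (measurableSet_le h1 h2) (h2.sub h1) ((measurable_const.sub h1).add h2)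

lemma bound_F (p : ℝ) (hp : 1 ≤ p) (d N : ℕ) (P : Fin N → Fin d → ℝ) (x y : Fin d → ℝ)
    (hx : x ∈ Set.Icc (0 : Fin d → ℝ) 1) (hy : y ∈ Set.Icc (0 : Fin d → ℝ) 1) :
      |((Finset.univ.filter (fun i : Fin N => ∀ j : Fin d,
          if x j ≤ y j then (x j ≤ P i j ∧ P i j < y j)
          else (P i j < y j ∨ x j ≤ P i j))).card : ℝ)
      - (N : ℝ) * ∏ j : Fin d, (if x j ≤ y j then y j - x j else 1 - x j + y j)| ^ p ≤ (N : ℝ) ^ p := by
  apply Real.rpow_le_rpow (abs_nonneg _) _ (by linarith)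
  have hc : ((Finset.univ.filter (fun i : Fin N => ∀ j : Fin d,
          if x j ≤ y j then (x j ≤ P i j ∧ P i j < y j)
          else (P i j < y j ∨ x j ≤ P i j))).card : ℝ) ≤ N := by
    have := Finset.card_filter_le (Finset.univ : Finset (Fin N)) (fun i : Fin N => ∀ j : Fin d,
          if x j ≤ y j then (x j ≤ P i j ∧ P i j < y j)
          else (P i j < y j ∨ x j ≤ P i j))
    rw [Finset.card_univ, Fintype.card_fin] at this
    exact_mod_cast this
  have hc0 : 0 ≤ ((Finset.univ.filter (fun i : Fin N => ∀ j : Fin d,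
          if x j ≤ y j then (x j ≤ P i j ∧ P i j < y j)
          else (P i j < y j ∨ x j ≤ P i j))).card : ℝ) := Nat.cast_nonneg _
  have hb0 : ∀ j : Fin d, 0 ≤ (if x j ≤ y j then y j - x j else 1 - x j + y j) := by
    intro j
    have h1 := hx.1 j
    have h2 := hx.2 j
    have h3 := hy.1 j
    have h4 := hy.2 j
    simp only [Pi.zero_apply, Pi.one_apply] at h1 h2 h3 h4
    split_ifs <;> linarith
  have hb1 : ∀ j : Fin d, (if x j ≤ y j then y j - x j else 1 - x j + y j) ≤ 1 := by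
    intro j
    have h1 := hx.1 j
    have h2 := hx.2 j
    have h3 := hy.1 j
    have h4 := hy.2 j
    simp only [Pi.zero_apply, Pi.one_apply] at h1 h2 h3 h4
    split_ifs <;> linarith
  have hp0 : 0 ≤ ∏ j : Fin d, (if x j ≤ y j then y j - x j else 1 - x j + y j) :=
    Finset.prod_nonneg fun j _ => hb0 j
  have hp1 : ∏ j : Fin d, (if x j ≤ y j then y j - x j else 1 - x j + y j) ≤ 1 :=
    Finset.prod_le_one (fun j _ => hb0 j) fun j _ => hb1 j
  have hN : (0 : ℝ) ≤ N := Nat.cast_nonneg _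
  rw [abs_le]
  constructor <;> nlinarith

lemma double_lower {d : ℕ} (F : (Fin d → ℝ) → (Fin d → ℝ) → ℝ)
    (hmeas : Measurable (fun z : (Fin d → ℝ) × (Fin d → ℝ) => F z.1 z.2)) (hF0 : ∀ x y, 0 ≤ F x y) (M : ℝ)
    (hFM : ∀ x ∈ Set.Icc (0 : Fin d → ℝ) 1, ∀ y ∈ Set.Icc (0 : Fin d → ℝ) 1, F x y ≤ M)
    (Rx Ry : Set (Fin d → ℝ)) (hRx : Rx ⊆ Set.Icc 0 1) (hRy : Ry ⊆ Set.Icc 0 1)
    (hRxm : MeasurableSet Rx) (hRym : MeasurableSet Ry) (c0 : ℝ)
    (hc : ∀ x ∈ Rx, ∀ y ∈ Ry, c0 ≤ F x y) :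
    c0 * volume.real Ry * volume.real Rx
      ≤ ∫ x in Set.Icc (0 : Fin d → ℝ) 1, ∫ y in Set.Icc (0 : Fin d → ℝ) 1, F x y := by
  set G : (Fin d → ℝ) → ℝ := fun x => ∫ y in Set.Icc (0 : Fin d → ℝ) 1, F x y with hG
  have hGm : StronglyMeasurable G :=
    MeasureTheory.StronglyMeasurable.integral_prod_right (f := F) hmeas.stronglyMeasurable
  have hG0 : ∀ x, 0 ≤ G x := fun x => integral_nonneg fun y => hF0 x y
  have hvol : volume (Set.Icc (0 : Fin d → ℝ) 1) ≠ ⊤ := by rw [vol_unit]; simp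
  have hFint : ∀ x ∈ Set.Icc (0 : Fin d → ℝ) 1, IntegrableOn (F x) (Set.Icc (0 : Fin d → ℝ) 1) := by
    intro x hx
    refine Measure.integrableOn_of_bounded hvol ?_ (M := M) ?_
    · exact (hmeas.comp (measurable_const.prodMk measurable_id)).aestronglyMeasurable
    · refine (ae_restrict_iff' measurableSet_Icc).mpr (Filter.Eventually.of_forall fun y hy => ?_)
      rw [Real.norm_eq_abs, abs_of_nonneg (hF0 x y)]
      exact hFM x hx y hy
  have hGM : ∀ x ∈ Set.Icc (0 : Fin d → ℝ) 1, G x ≤ M := by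
    intro x hx
    have h1 : G x ≤ ∫ y in Set.Icc (0 : Fin d → ℝ) 1, M := by
      apply setIntegral_mono_on (hFint x hx) _ measurableSet_Icc (hFM x hx)
      exact integrableOn_const hvol
    rw [setIntegral_const] at h1
    have h2 : volume.real (Set.Icc (0 : Fin d → ℝ) 1) = 1 := by
      unfold Measure.real; rw [vol_unit]; simp
    rw [h2, one_smul] at h1
    exact h1
  have hGint : IntegrableOn G (Set.Icc (0 : Fin d → ℝ) 1) := by
    refine Measure.integrableOn_of_bounded hvol hGm.aestronglyMeasurable (M := M) ?_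
    refine (ae_restrict_iff' measurableSet_Icc).mpr (Filter.Eventually.of_forall fun x hx => ?_)
    rw [Real.norm_eq_abs, abs_of_nonneg (hG0 x)]
    exact hGM x hx
  have hRxfin : volume Rx ≠ ⊤ := ((measure_mono hRx).trans_lt (lt_top_iff_ne_top.mpr hvol)).ne
  have hRyfin : volume Ry ≠ ⊤ := ((measure_mono hRy).trans_lt (lt_top_iff_ne_top.mpr hvol)).ne
  have hGlow : ∀ x ∈ Rx, c0 * volume.real Ry ≤ G x := by
    intro x hx
    have h1 : ∫ y in Ry, F x y ≤ G x := by
      apply setIntegral_mono_set (hFint x (hRx hx))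
      · exact Filter.Eventually.of_forall fun y => hF0 x y
      · exact Filter.Eventually.of_forall hRy
    have h2 : ∫ y in Ry, c0 ≤ ∫ y in Ry, F x y := by
      apply setIntegral_mono_on _ ((hFint x (hRx hx)).mono_set hRy) hRym (hc x hx)
      exact integrableOn_const hRyfin
    rw [setIntegral_const, smul_eq_mul] at h2
    linarith
  have h1 : ∫ x in Rx, G x ≤ ∫ x in Set.Icc (0 : Fin d → ℝ) 1, G x := by
    apply setIntegral_mono_set hGint
    · exact Filter.Eventually.of_forall fun y => hG0 y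
    · exact Filter.Eventually.of_forall hRx
  have h2 : ∫ x in Rx, (c0 * volume.real Ry) ≤ ∫ x in Rx, G x := by
    apply setIntegral_mono_on _ (hGint.mono_set hRx) hRxm hGlow
    exact integrableOn_const hRxfin
  rw [setIntegral_const, smul_eq_mul] at h2
  calc c0 * volume.real Ry * volume.real Rx = volume.real Rx * (c0 * volume.real Ry) := by ring
    _ ≤ ∫ x in Rx, G x := h2
    _ ≤ _ := h1

end Pool.Agent.H10.Disc
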