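import Mathlib
import Pool.Agent.H10.Disc3
set_option autoImplicit false
open Classical MeasureTheory

namespace Pool.Agent.H10.Disc

/-- the point family indexed by `Fin (m ^ (e+2))` -/
noncomputable def fam (e k n : ℕ) (i : Fin ((n * k) ^ (e + 2))) : Fin (e + 2) → ℝ :=
  pt e (n * k) k n (finFunctionFinEquiv.symm i)

lemma fam_mem (e k n : ℕ) (hn : 1 ≤ n) (i : Fin ((n * k) ^ (e + 2))) (j : Fin (e + 2)) :
    0 ≤ fam e k n i j ∧ fam e k n i j < 1 := pt_mem e (n * k) k n hn _ j

lemma fam_injective (e k n : ℕ) (hn : 1 ≤ n) (hk : 1 ≤ k) : Function.Injective (fam e k n) := by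
  have hm : (0 : ℝ) < ((n * k : ℕ) : ℝ) := by
    have : 0 < n * k := by positivity
    exact_mod_cast this
  have hn' : (0 : ℝ) < n := by exact_mod_cast hn
  have hinj : Function.Injective (pt e (n * k) k n) := by
    intro f g hfg
    have hlast : f (Fin.last (e + 1)) = g (Fin.last (e + 1)) := by
      have h := congrFun hfg (Fin.last (e + 1))
      rw [pt_last, pt_last, div_left_inj' hm.ne'] at h
      exact Fin.ext (by exact_mod_cast h)
    funext j
    have h := congrFun hfg j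
    unfold pt at h
    rw [hlast] at h
    split_ifs at h
    · rw [div_left_inj' (by positivity)] at h
      exact Fin.ext (by exact_mod_cast h)
    · rw [div_left_inj' hm.ne'] at h
      exact Fin.ext (by exact_mod_cast h)
  exact hinj.comp finFunctionFinEquiv.symm.injective

lemma card_fam (e k n : ℕ) (φ : (Fin (e + 2) → ℝ) → Prop) :
    (Finset.univ.filter (fun i : Fin ((n * k) ^ (e + 2)) => φ (fam e k n i))).card
      = (Finset.univ.filter (fun f : Fin (e + 2) → Fin (n * k) => φ (pt e (n * k) k n f))).card := by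
  rw [Finset.card_filter, Finset.card_filter]
  unfold fam
  exact Equiv.sum_comp (finFunctionFinEquiv (m := n * k) (n := e + 2)).symm
    (fun f => if φ (pt e (n * k) k n f) then 1 else 0)

lemma starInt_le (p : ℝ) (hp : 1 ≤ p) (e k n : ℕ) (hn : 1 ≤ n) (hk : 1 ≤ k)
    (hE : (((n * k : ℕ) : ℝ) + 2) ^ (e + 2) - ((n * k : ℕ) : ℝ) ^ (e + 2)
      ≤ ((n * k : ℕ) : ℝ) ^ (e + 2) / n / n) :
    starInt p (e + 2) ((n * k) ^ (e + 2)) (fam e k n)
      ≤ (((n * k : ℕ) : ℝ) ^ (e + 2) / n) ^ p * ((1 + 2 ^ p) / n) := by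
  set M : ℝ := ((n * k : ℕ) : ℝ) ^ (e + 2) with hM
  have hn' : (1 : ℝ) ≤ n := by exact_mod_cast hn
  have hM0 : 0 ≤ M := by positivity
  have hp0 : 0 ≤ p := by linarith
  set S : Set (Fin (e + 2) → ℝ) := Set.Icc (fun j => if j = Fin.last (e + 1) then 1 - 1 / (n : ℝ) else 0) 1 with hS
  have hinv1 : 1 / (n : ℝ) ≤ 1 := by
    rw [div_le_one (by linarith)]; exact hn'
  have hvolS : volume.real S = 1 / n := by
    rw [hS]
    unfold Measure.real
    rw [Real.volume_Icc_pi_toReal]
    · rw [Fin.prod_univ_castSucc]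
      have hcast : ∀ i : Fin (e + 1), (Fin.castSucc i) ≠ Fin.last (e + 1) :=
        fun i => (Fin.castSucc_lt_last i).ne
      simp [hcast]
    · intro j
      simp only [Pi.one_apply]
      split_ifs
      · have : 0 ≤ 1 / (n : ℝ) := by positivity
        linarith
      · norm_num
  have hSsub : S ⊆ Set.Icc 0 1 := by
    rw [hS]
    intro t ht
    refine ⟨fun j => ?_, ht.2⟩
    have := ht.1 j
    simp only at this
    split_ifs at this with h
    · simp only [Pi.zero_apply]; linarith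
    · exact this
  have hSm : MeasurableSet S := measurableSet_Icc
  -- pointwise bound
  have hpt : ∀ t ∈ Set.Icc (0 : Fin (e + 2) → ℝ) 1,
      |((Finset.univ.filter (fun i : Fin ((n * k) ^ (e + 2)) => ∀ j, fam e k n i j < t j)).card : ℝ)
        - (((n * k) ^ (e + 2) : ℕ) : ℝ) * ∏ j, t j| ^ p
      ≤ (M / n) ^ p * (1 / n) + S.indicator (fun _ => (M / n) ^ p * 2 ^ p) t := by
    intro t ht
    have h1 := star_bound e k n hn hk t (fun j => ht.1 j) (fun j => ht.2 j)
    have h2 : (Finset.univ.filter (fun i : Fin ((n * k) ^ (e + 2)) => ∀ j, fam e k n i j < t j)).card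
        = cntS e (n * k) k n t := by
      unfold cntS
      convert card_fam e k n (fun v => ∀ j, v j < t j)
    rw [h2]
    have h3 : (((n * k) ^ (e + 2) : ℕ) : ℝ) = ((n * k : ℕ) : ℝ) ^ (e + 2) := by push_cast; ring
    rw [h3]
    by_cases hlt : 1 - 1 / (n : ℝ) < t (Fin.last (e + 1))
    · rw [if_pos hlt] at h1
      have htS : t ∈ S := by
        rw [hS]
        refine ⟨fun j => ?_, ht.2⟩
        simp only
        split_ifs with h
        · rw [h]; exact hlt.le
        · exact ht.1 j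
      rw [Set.indicator_of_mem htS]
      have h4 : |(cntS e (n * k) k n t : ℝ) - ((n * k : ℕ) : ℝ) ^ (e + 2) * ∏ j, t j| ≤ M / n * 2 := by
        have h5 : M / n / n ≤ M / n := div_le_self (by positivity) hn'
        linarith
      have h6 := Real.rpow_le_rpow (abs_nonneg _) h4 hp0
      rw [Real.mul_rpow (by positivity) (by norm_num)] at h6
      have h7 : 0 ≤ (M / n) ^ p * (1 / n) := by positivity
      linarith
    · rw [if_neg hlt] at h1
      have h4 : |(cntS e (n * k) k n t : ℝ) - ((n * k : ℕ) : ℝ) ^ (e + 2) * ∏ j, t j| ≤ M / n * (1 / n) := by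
        have : M / n * (1 / n) = M / n / n := by ring
        linarith
      have h6 := Real.rpow_le_rpow (abs_nonneg _) h4 hp0
      rw [Real.mul_rpow (by positivity) (by positivity)] at h6
      have h8 : (1 / (n : ℝ)) ^ p ≤ 1 / n := by
        calc (1 / (n : ℝ)) ^ p ≤ (1 / (n : ℝ)) ^ (1 : ℝ) :=
              Real.rpow_le_rpow_of_exponent_ge (by positivity) hinv1 hp
          _ = 1 / n := Real.rpow_one _
      have h9 : 0 ≤ S.indicator (fun _ => (M / n) ^ p * 2 ^ p) t := by
        apply Set.indicator_nonneg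
        intro _ _
        positivity
      have h10 : (M / n) ^ p * (1 / (n : ℝ)) ^ p ≤ (M / n) ^ p * (1 / n) :=
        mul_le_mul_of_nonneg_left h8 (by positivity)
      linarith
  have hvol : volume (Set.Icc (0 : Fin (e + 2) → ℝ) 1) ≠ ⊤ := by rw [vol_unit]; simp
  have hvolr : volume.real (Set.Icc (0 : Fin (e + 2) → ℝ) 1) = 1 := by
    unfold Measure.real; rw [vol_unit]; simp
  have hint1 : IntegrableOn (fun _ : Fin (e + 2) → ℝ => (M / n) ^ p * (1 / n)) (Set.Icc (0 : Fin (e + 2) → ℝ) 1) :=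
    integrableOn_const hvol
  have hint2 : IntegrableOn (S.indicator (fun _ : Fin (e + 2) → ℝ => (M / n) ^ p * 2 ^ p)) (Set.Icc (0 : Fin (e + 2) → ℝ) 1) :=
    (integrableOn_const hvol).indicator hSm
  unfold starInt
  have h1 := integral_mono_of_nonneg (μ := volume.restrict (Set.Icc (0 : Fin (e + 2) → ℝ) 1))
    (f := fun t => |((Finset.univ.filter (fun i : Fin ((n * k) ^ (e + 2)) => ∀ j, fam e k n i j < t j)).card : ℝ)
        - (((n * k) ^ (e + 2) : ℕ) : ℝ) * ∏ j, t j| ^ p)
    (g := fun t => (M / n) ^ p * (1 / n) + S.indicator (fun _ => (M / n) ^ p * 2 ^ p) t)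
    (Filter.Eventually.of_forall fun t => Real.rpow_nonneg (abs_nonneg _) _)
    (hint1.add hint2)
    ((ae_restrict_iff' measurableSet_Icc).mpr (Filter.Eventually.of_forall hpt))
  refine h1.trans ?_
  rw [integral_add hint1 hint2, setIntegral_const, hvolr, one_smul, setIntegral_indicator hSm,
    Set.inter_eq_self_of_subset_right hSsub, setIntegral_const, hvolS, smul_eq_mul]
  have : (M / n) ^ p * (1 / n) + 1 / n * ((M / n) ^ p * 2 ^ p) = (M / n) ^ p * ((1 + 2 ^ p) / n) := by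
    ring
  rw [this]

/-- lower and upper corners of the test region -/
noncomputable def xl (e : ℕ) : Fin (e + 2) → ℝ := fun j => if j = Fin.last (e + 1) then 1 / 2 else 1 / 4
noncomputable def xu (e : ℕ) : Fin (e + 2) → ℝ := fun j => if j = Fin.last (e + 1) then 2 / 3 else 1 / 3
noncomputable def yl (e : ℕ) : Fin (e + 2) → ℝ := fun j => if j = Fin.last (e + 1) then 0 else 2 / 3
noncomputable def yu (e : ℕ) : Fin (e + 2) → ℝ := fun j => if j = Fin.last (e + 1) then 1 / 4 else 3 / 4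

lemma vol_pos_of {d : ℕ} (a b : Fin d → ℝ) (h : ∀ j, a j < b j) : 0 < volume.real (Set.Icc a b) := by
  unfold Measure.real
  rw [Real.volume_Icc_pi_toReal (fun j => (h j).le)]
  exact Finset.prod_pos fun j _ => by linarith [h j]

noncomputable def cc (e : ℕ) : ℝ := volume.real (Set.Icc (yl e) (yu e)) * volume.real (Set.Icc (xl e) (xu e))

lemma cc_pos (e : ℕ) : 0 < cc e := by
  unfold cc
  apply mul_pos
  · apply vol_pos_of
    intro j
    unfold yl yu
    split_ifs <;> norm_num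
  · apply vol_pos_of
    intro j
    unfold xl xu
    split_ifs <;> norm_num

lemma perInt_ge (p : ℝ) (hp : 1 ≤ p) (e k n : ℕ) (hn : 4 ≤ n) (hk : 1 ≤ k)
    (hE : (((n * k : ℕ) : ℝ) + 2) ^ (e + 2) - ((n * k : ℕ) : ℝ) ^ (e + 2)
      ≤ ((n * k : ℕ) : ℝ) ^ (e + 2) / n * (1 / 3) ^ (e + 1) / 2) :
    (((n * k : ℕ) : ℝ) ^ (e + 2) / n) ^ p * (((1 / 3) ^ (e + 1) / 2) ^ p * cc e)
      ≤ perInt p (e + 2) ((n * k) ^ (e + 2)) (fam e k n) := by
  set M : ℝ := ((n * k : ℕ) : ℝ) ^ (e + 2) with hM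
  have hn' : (4 : ℝ) ≤ n := by exact_mod_cast hn
  have hM0 : 0 ≤ M := by positivity
  have hp0 : 0 ≤ p := by linarith
  have hc := double_lower (d := e + 2) (fun x y =>
      |((Finset.univ.filter (fun i : Fin ((n * k) ^ (e + 2)) => ∀ j : Fin (e + 2),
          if x j ≤ y j then (x j ≤ fam e k n i j ∧ fam e k n i j < y j)
          else (fam e k n i j < y j ∨ x j ≤ fam e k n i j))).card : ℝ)
      - (((n * k) ^ (e + 2) : ℕ) : ℝ) * ∏ j : Fin (e + 2), (if x j ≤ y j then y j - x j else 1 - x j + y j)| ^ p)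
    (meas_F p (e + 2) ((n * k) ^ (e + 2)) (fam e k n))
    (fun x y => Real.rpow_nonneg (abs_nonneg _) _) _
    (fun x hx y hy => bound_F p hp (e + 2) ((n * k) ^ (e + 2)) (fam e k n) x y hx hy)
    (Set.Icc (xl e) (xu e)) (Set.Icc (yl e) (yu e))
    (by
      apply Set.Icc_subset_Icc
      · intro j; unfold xl; simp only [Pi.zero_apply]; split_ifs <;> norm_num
      · intro j; unfold xu; simp only [Pi.one_apply]; split_ifs <;> norm_num)
    (by
      apply Set.Icc_subset_Icc
      · intro j; unfold yl; simp only [Pi.zero_apply]; split_ifs <;> norm_num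
      · intro j; unfold yu; simp only [Pi.one_apply]; split_ifs <;> norm_num)
    measurableSet_Icc measurableSet_Icc ((M / n * ((1 / 3) ^ (e + 1) / 2)) ^ p)
    (by
      intro x hx y hy
      apply Real.rpow_le_rpow (by positivity) _ hp0
      have h1 := per_bound e k n hn hk x y (fun j => hx.1 j) (fun j => hx.2 j)
        (fun j => hy.1 j) (fun j => hy.2 j)
      have h2 : (Finset.univ.filter (fun i : Fin ((n * k) ^ (e + 2)) => ∀ j : Fin (e + 2),
          if x j ≤ y j then (x j ≤ fam e k n i j ∧ fam e k n i j < y j)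
          else (fam e k n i j < y j ∨ x j ≤ fam e k n i j))).card = cntP e (n * k) k n x y := by
        unfold cntP
        convert card_fam e k n (fun v => ∀ j, if x j ≤ y j then (x j ≤ v j ∧ v j < y j)
          else (v j < y j ∨ x j ≤ v j))
      have h3 : (((n * k) ^ (e + 2) : ℕ) : ℝ) = ((n * k : ℕ) : ℝ) ^ (e + 2) := by push_cast; ring
      rw [h2, h3]
      linarith)
  unfold perInt
  refine le_trans (le_of_eq ?_) hc
  rw [Real.mul_rpow (by positivity) (by positivity)]
  unfold cc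
  ring

lemma exists_k (e n : ℕ) (hn : 1 ≤ n) (δ : ℝ) (hδ : 0 < δ) : ∃ k : ℕ, 1 ≤ k ∧
    (((n * k : ℕ) : ℝ) + 2) ^ (e + 2) - ((n * k : ℕ) : ℝ) ^ (e + 2) ≤ ((n * k : ℕ) : ℝ) ^ (e + 2) * δ := by
  have hlim : Filter.Tendsto (fun k : ℕ => (1 + 2 / ((n : ℝ) * (k : ℝ))) ^ (e + 2)) Filter.atTop (nhds ((1 + 0) ^ (e + 2))) := by
    apply Filter.Tendsto.pow
    apply Filter.Tendsto.const_add
    apply Filter.Tendsto.div_atTop tendsto_const_nhds
    apply Filter.Tendsto.const_mul_atTop (by exact_mod_cast hn)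
    exact tendsto_natCast_atTop_atTop
  have h1 : ∀ᶠ k : ℕ in Filter.atTop, (1 + 2 / ((n : ℝ) * (k : ℝ))) ^ (e + 2) < 1 + δ := by
    apply hlim.eventually_lt_const
    simp [hδ]
  obtain ⟨k, hk1, hk2⟩ := (h1.and (Filter.eventually_ge_atTop 1)).exists
  refine ⟨k, hk2, ?_⟩
  have hn' : (1 : ℝ) ≤ n := by exact_mod_cast hn
  have hk' : (1 : ℝ) ≤ k := by exact_mod_cast hk2
  have hm : (0 : ℝ) < (n : ℝ) * k := by positivity
  have h2 : (((n * k : ℕ) : ℝ) + 2) ^ (e + 2) = ((n : ℝ) * k) ^ (e + 2) * (1 + 2 / ((n : ℝ) * (k : ℝ))) ^ (e + 2) := by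
    rw [← mul_pow]
    congr 1
    push_cast
    field_simp
  rw [h2]
  have h3 : ((n * k : ℕ) : ℝ) = (n : ℝ) * k := by push_cast; ring
  rw [h3]
  have h4 : 0 < ((n : ℝ) * k) ^ (e + 2) := by positivity
  nlinarith

/-- Main disproof: in every dimension `e+2 ≥ 2` and for every `p ≥ 1` the ratio is unbounded. -/
theorem unbounded (p : ℝ) (hp : 1 ≤ p) (e : ℕ) (C : ℝ) (hC : 0 < C) :
    ∃ N : ℕ, ∃ P : Fin N → Fin (e + 2) → ℝ, Function.Injective P ∧ (∀ i j, 0 ≤ P i j ∧ P i j < 1) ∧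
      C * (starInt p (e + 2) N P) ^ (1 / p) < (perInt p (e + 2) N P) ^ (1 / p) := by
  set c : ℝ := ((1 / 3 : ℝ) ^ (e + 1) / 2) ^ p * cc e with hc
  have hc0 : 0 < c := by
    have := cc_pos e
    positivity
  have hp0 : 0 < p := by linarith
  -- choose n
  obtain ⟨n0, hn0⟩ := exists_nat_gt (C ^ p * (1 + 2 ^ p) / c)
  set n := max n0 4 with hn
  have hn4 : 4 ≤ n := le_max_right _ _
  have hn1 : 1 ≤ n := by omega
  have hnR : (4 : ℝ) ≤ n := by exact_mod_cast hn4
  have hnn0 : (n0 : ℝ) ≤ n := by exact_mod_cast le_max_left _ _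
  have hkey : C ^ p * ((1 + 2 ^ p) / n) < c := by
    have h1 : C ^ p * (1 + 2 ^ p) / c < n := lt_of_lt_of_le hn0 hnn0
    rw [div_lt_iff₀ hc0] at h1
    have h2 : C ^ p * ((1 + 2 ^ p) / n) = (C ^ p * (1 + 2 ^ p)) / n := by ring
    rw [h2, div_lt_iff₀ (by linarith)]
    linarith
  obtain ⟨k, hk1, hk2⟩ := exists_k e n hn1 (min (1 / n / n) (1 / n * (1 / 3) ^ (e + 1) / 2))
    (lt_min (by positivity) (by positivity))
  set M : ℝ := ((n * k : ℕ) : ℝ) ^ (e + 2) with hM
  have hmpos : (0 : ℝ) < ((n * k : ℕ) : ℝ) := by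
    have : 0 < n * k := by positivity
    exact_mod_cast this
  have hM0 : 0 < M := by positivity
  have hE1 : (((n * k : ℕ) : ℝ) + 2) ^ (e + 2) - M ≤ M / n / n := by
    refine hk2.trans ?_
    calc M * min (1 / (n : ℝ) / n) (1 / (n : ℝ) * (1 / 3) ^ (e + 1) / 2) ≤ M * (1 / n / n) :=
          mul_le_mul_of_nonneg_left (min_le_left _ _) hM0.le
      _ = M / n / n := by ring
  have hE2 : (((n * k : ℕ) : ℝ) + 2) ^ (e + 2) - M ≤ M / n * (1 / 3) ^ (e + 1) / 2 := by
    refine hk2.trans ?_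
    calc M * min (1 / (n : ℝ) / n) (1 / (n : ℝ) * (1 / 3) ^ (e + 1) / 2) ≤ M * (1 / n * (1 / 3) ^ (e + 1) / 2) :=
          mul_le_mul_of_nonneg_left (min_le_right _ _) hM0.le
      _ = M / n * (1 / 3) ^ (e + 1) / 2 := by ring
  refine ⟨(n * k) ^ (e + 2), fam e k n, fam_injective e k n hn1 hk1, fam_mem e k n hn1, ?_⟩
  have hs := starInt_le p hp e k n hn1 hk1 hE1
  have hper := perInt_ge p hp e k n hn4 hk1 hE2
  have hs0 : 0 ≤ starInt p (e + 2) ((n * k) ^ (e + 2)) (fam e k n) := by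
    unfold starInt
    exact integral_nonneg fun t => Real.rpow_nonneg (abs_nonneg _) _
  have hstep : C ^ p * starInt p (e + 2) ((n * k) ^ (e + 2)) (fam e k n)
      < perInt p (e + 2) ((n * k) ^ (e + 2)) (fam e k n) := by
    calc C ^ p * starInt p (e + 2) ((n * k) ^ (e + 2)) (fam e k n)
        ≤ C ^ p * ((M / n) ^ p * ((1 + 2 ^ p) / n)) := mul_le_mul_of_nonneg_left hs (by positivity)
      _ = (M / n) ^ p * (C ^ p * ((1 + 2 ^ p) / n)) := by ring
      _ < (M / n) ^ p * c := by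
          apply mul_lt_mul_of_pos_left hkey
          positivity
      _ ≤ _ := hper
  have h1 : C * (starInt p (e + 2) ((n * k) ^ (e + 2)) (fam e k n)) ^ (1 / p)
      = (C ^ p * starInt p (e + 2) ((n * k) ^ (e + 2)) (fam e k n)) ^ (1 / p) := by
    rw [Real.mul_rpow (by positivity) hs0, ← Real.rpow_mul hC.le]
    rw [mul_one_div_cancel hp0.ne', Real.rpow_one]
  rw [h1]
  exact Real.rpow_lt_rpow (mul_nonneg (by positivity) hs0) hstep (by positivity)

end Pool.Agent.H10.Disc
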