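import Mathlib
import Pool.Agent.H10.Disc4
set_option autoImplicit false
open Classical MeasureTheory

namespace Pool.Agent.H10.Disc

lemma rpow_add_le (p : ℝ) (hp : 1 ≤ p) (a b : ℝ) (ha : 0 ≤ a) (hb : 0 ≤ b) :
    (a + b) ^ p ≤ 2 ^ (p - 1) * (a ^ p + b ^ p) := by
  lift a to NNReal using ha
  lift b to NNReal using hb
  exact_mod_cast NNReal.rpow_add_le_mul_rpow_add_rpow a b hp

/-- the one-dimensional star discrepancy function -/
noncomputable def D1 (N : ℕ) (P : Fin N → Fin 1 → ℝ) (t : Fin 1 → ℝ) : ℝ :=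
  ((Finset.univ.filter (fun i : Fin N => ∀ j : Fin 1, P i j < t j)).card : ℝ)
      - (N : ℝ) * ∏ j : Fin 1, t j

lemma per_eq (N : ℕ) (P : Fin N → Fin 1 → ℝ) (x y : Fin 1 → ℝ) :
    ((Finset.univ.filter (fun i : Fin N => ∀ j : Fin 1,
          if x j ≤ y j then (x j ≤ P i j ∧ P i j < y j)
          else (P i j < y j ∨ x j ≤ P i j))).card : ℝ)
      - (N : ℝ) * ∏ j : Fin 1, (if x j ≤ y j then y j - x j else 1 - x j + y j)
      = D1 N P y - D1 N P x := by
  unfold D1
  simp only [Fin.forall_fin_one, Fin.prod_univ_one]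
  set A := Finset.univ.filter (fun i : Fin N => P i 0 < y 0) with hA
  set B := Finset.univ.filter (fun i : Fin N => P i 0 < x 0) with hB
  by_cases hxy : x 0 ≤ y 0
  · simp only [hxy, if_true]
    have hdis : Disjoint B (Finset.univ.filter (fun i : Fin N => x 0 ≤ P i 0 ∧ P i 0 < y 0)) := by
      rw [Finset.disjoint_left]
      intro i hi hi'
      simp only [hB, Finset.mem_filter, Finset.mem_univ, true_and] at hi hi'
      linarith [hi'.1]
    have hun : B ∪ (Finset.univ.filter (fun i : Fin N => x 0 ≤ P i 0 ∧ P i 0 < y 0)) = A := by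
      ext i
      simp only [hA, hB, Finset.mem_union, Finset.mem_filter, Finset.mem_univ, true_and]
      constructor
      · rintro (h | h)
        · linarith
        · exact h.2
      · intro h
        by_cases h' : P i 0 < x 0
        · exact Or.inl h'
        · exact Or.inr ⟨not_lt.mp h', h⟩
    have hc := Finset.card_union_of_disjoint hdis
    rw [hun] at hc
    have hc' : (A.card : ℝ) = (B.card : ℝ) +
      ((Finset.univ.filter (fun i : Fin N => x 0 ≤ P i 0 ∧ P i 0 < y 0)).card : ℝ) := by
      exact_mod_cast hc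
    linarith
  · simp only [hxy, if_false]
    have hxy' : y 0 < x 0 := not_le.mp hxy
    set E := Finset.univ.filter (fun i : Fin N => x 0 ≤ P i 0) with hE
    have hdis : Disjoint A E := by
      rw [Finset.disjoint_left]
      intro i hi hi'
      simp only [hA, hE, Finset.mem_filter, Finset.mem_univ, true_and] at hi hi'
      linarith
    have hun : (Finset.univ.filter (fun i : Fin N => P i 0 < y 0 ∨ x 0 ≤ P i 0)) = A ∪ E := by
      ext i
      simp only [hA, hE, Finset.mem_union, Finset.mem_filter, Finset.mem_univ, true_and]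
    have hc := Finset.card_union_of_disjoint hdis
    have hBE : B.card + E.card = N := by
      have h := Finset.card_filter_add_card_filter_not (s := (Finset.univ : Finset (Fin N)))
        (fun i : Fin N => P i 0 < x 0)
      rw [Finset.card_univ, Fintype.card_fin] at h
      have hE' : E = Finset.univ.filter (fun i : Fin N => ¬ (P i 0 < x 0)) := by
        ext i
        simp only [hE, Finset.mem_filter, Finset.mem_univ, true_and, not_lt]
      rw [hE']
      exact h
    rw [hun, hc]
    have hBE' : (B.card : ℝ) + (E.card : ℝ) = N := by exact_mod_cast hBE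
    push_cast
    rw [← hBE']
    ring

lemma meas_D1 (N : ℕ) (P : Fin N → Fin 1 → ℝ) : Measurable (D1 N P) := by
  unfold D1
  apply Measurable.sub
  · have h : (fun t : Fin 1 → ℝ => ((Finset.univ.filter (fun i : Fin N => ∀ j : Fin 1, P i j < t j)).card : ℝ))
        = fun t => ∑ i : Fin N, (if (∀ j : Fin 1, P i j < t j) then (1 : ℝ) else 0) := by
      funext z
      rw [Finset.card_filter]
      push_cast
      rfl
    rw [h]
    refine Finset.measurable_sum _ fun i _ => ?_
    refine Measurable.ite ?_ measurable_const measurable_const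
    rw [Set.ofPred_forall]
    refine MeasurableSet.iInter fun j => ?_
    exact measurableSet_lt measurable_const (measurable_pi_apply j)
  · apply Measurable.const_mul
    exact Finset.measurable_prod _ fun j _ => measurable_pi_apply j

lemma bound_D1 (N : ℕ) (P : Fin N → Fin 1 → ℝ) (t : Fin 1 → ℝ) (ht : t ∈ Set.Icc (0 : Fin 1 → ℝ) 1) :
    |D1 N P t| ≤ N := by
  unfold D1
  have hc : ((Finset.univ.filter (fun i : Fin N => ∀ j : Fin 1, P i j < t j)).card : ℝ) ≤ N := by
    have := Finset.card_filter_le (Finset.univ : Finset (Fin N)) (fun i : Fin N => ∀ j : Fin 1, P i j < t j)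
    rw [Finset.card_univ, Fintype.card_fin] at this
    exact_mod_cast this
  have hc0 : 0 ≤ ((Finset.univ.filter (fun i : Fin N => ∀ j : Fin 1, P i j < t j)).card : ℝ) :=
    Nat.cast_nonneg _
  have h0 := ht.1 0
  have h1 := ht.2 0
  simp only [Pi.zero_apply, Pi.one_apply] at h0 h1
  have hN : (0 : ℝ) ≤ N := Nat.cast_nonneg _
  rw [Fin.prod_univ_one, abs_le]
  constructor <;> nlinarith

/-- in dimension one the periodic discrepancy is at most twice the star discrepancy -/
theorem dim_one (p : ℝ) (hp : 1 ≤ p) (N : ℕ) (P : Fin N → Fin 1 → ℝ) :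
    (perInt p 1 N P) ^ (1 / p) ≤ 2 * (starInt p 1 N P) ^ (1 / p) := by
  have hp0 : 0 < p := by linarith
  have hvol : volume (Set.Icc (0 : Fin 1 → ℝ) 1) ≠ ⊤ := by rw [vol_unit]; simp
  have hvolr : volume.real (Set.Icc (0 : Fin 1 → ℝ) 1) = 1 := by
    unfold Measure.real; rw [vol_unit]; simp
  set g : (Fin 1 → ℝ) → ℝ := fun t => |D1 N P t| ^ p with hg
  have hg0 : ∀ t, 0 ≤ g t := fun t => Real.rpow_nonneg (abs_nonneg _) _
  have hgm : Measurable g := ((continuous_abs.measurable).comp (meas_D1 N P)).pow_const p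
  have hgint : IntegrableOn g (Set.Icc (0 : Fin 1 → ℝ) 1) := by
    refine Measure.integrableOn_of_bounded hvol hgm.aestronglyMeasurable (M := (N : ℝ) ^ p) ?_
    refine (ae_restrict_iff' measurableSet_Icc).mpr (Filter.Eventually.of_forall fun x hx => ?_)
    rw [Real.norm_eq_abs, abs_of_nonneg (hg0 x)]
    exact Real.rpow_le_rpow (abs_nonneg _) (bound_D1 N P x hx) hp0.le
  have hstar : starInt p 1 N P = ∫ t in Set.Icc (0 : Fin 1 → ℝ) 1, g t := rfl
  set S := ∫ t in Set.Icc (0 : Fin 1 → ℝ) 1, g t with hS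
  have hS0 : 0 ≤ S := integral_nonneg hg0
  have hper : perInt p 1 N P = ∫ x in Set.Icc (0 : Fin 1 → ℝ) 1, ∫ y in Set.Icc (0 : Fin 1 → ℝ) 1,
      |D1 N P y - D1 N P x| ^ p := by
    unfold perInt
    simp only [per_eq]
  have hpt : ∀ x y : Fin 1 → ℝ, |D1 N P y - D1 N P x| ^ p ≤ 2 ^ (p - 1) * (g y + g x) := by
    intro x y
    calc |D1 N P y - D1 N P x| ^ p ≤ (|D1 N P y| + |D1 N P x|) ^ p :=
          Real.rpow_le_rpow (abs_nonneg _) (abs_sub _ _) hp0.le
      _ ≤ _ := rpow_add_le p hp _ _ (abs_nonneg _) (abs_nonneg _)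
  have hinner : ∀ x : Fin 1 → ℝ, ∫ y in Set.Icc (0 : Fin 1 → ℝ) 1, |D1 N P y - D1 N P x| ^ p
      ≤ 2 ^ (p - 1) * (S + g x) := by
    intro x
    have hint : IntegrableOn (fun y => 2 ^ (p - 1) * (g y + g x)) (Set.Icc (0 : Fin 1 → ℝ) 1) :=
      (hgint.add (integrableOn_const hvol)).const_mul _
    have h1 := integral_mono_of_nonneg (μ := volume.restrict (Set.Icc (0 : Fin 1 → ℝ) 1))
      (f := fun y => |D1 N P y - D1 N P x| ^ p) (g := fun y => 2 ^ (p - 1) * (g y + g x))
      (Filter.Eventually.of_forall fun t => Real.rpow_nonneg (abs_nonneg _) _) hint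
      (Filter.Eventually.of_forall fun y => hpt x y)
    refine h1.trans (le_of_eq ?_)
    rw [integral_const_mul, integral_add hgint (integrableOn_const hvol), setIntegral_const, hvolr,
      one_smul]
  have houter : perInt p 1 N P ≤ 2 ^ p * S := by
    rw [hper]
    have hSint : IntegrableOn (fun _ : Fin 1 → ℝ => S) (Set.Icc (0 : Fin 1 → ℝ) 1) :=
      integrableOn_const hvol
    have hint : IntegrableOn (fun x => 2 ^ (p - 1) * (S + g x)) (Set.Icc (0 : Fin 1 → ℝ) 1) :=
      (hSint.add hgint).const_mul _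
    have h1 := integral_mono_of_nonneg (μ := volume.restrict (Set.Icc (0 : Fin 1 → ℝ) 1))
      (f := fun x => ∫ y in Set.Icc (0 : Fin 1 → ℝ) 1, |D1 N P y - D1 N P x| ^ p)
      (g := fun x => 2 ^ (p - 1) * (S + g x))
      (Filter.Eventually.of_forall fun t => integral_nonneg fun y => Real.rpow_nonneg (abs_nonneg _) _)
      hint (Filter.Eventually.of_forall hinner)
    refine h1.trans (le_of_eq ?_)
    rw [integral_const_mul, integral_add hSint hgint, setIntegral_const, hvolr,
      one_smul, ← hS]
    have : (2 : ℝ) ^ p = 2 ^ (p - 1) * 2 := by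
      rw [← Real.rpow_add_one (by norm_num)]
      congr 1
      ring
    rw [this]
    ring
  have hper0 : 0 ≤ perInt p 1 N P := by
    unfold perInt
    exact integral_nonneg fun x => integral_nonneg fun y => Real.rpow_nonneg (abs_nonneg _) _
  rw [hstar]
  calc (perInt p 1 N P) ^ (1 / p) ≤ (2 ^ p * S) ^ (1 / p) :=
        Real.rpow_le_rpow hper0 houter (by positivity)
    _ = 2 * S ^ (1 / p) := by
        rw [Real.mul_rpow (by positivity) hS0, ← Real.rpow_mul (by norm_num),
          mul_one_div_cancel hp0.ne', Real.rpow_one]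

end Pool.Agent.H10.Disc
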