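import Mathlib
set_option autoImplicit false

namespace Pool.Agent.H10.First

open Finset

lemma count_dvd_modEq {m d : ℕ} (hm : 0 < m) (hd : 0 < d) (hmd : Nat.Coprime m d) (n a : ℕ) :
    |(((range n).filter (fun x => x ≡ a [MOD m] ∧ d ∣ x)).card : ℝ) - (n : ℝ) / (m * d)| ≤ 1 := by
  obtain ⟨c, hc1, hc2⟩ := Nat.chineseRemainder hmd a 0
  have hmdpos : 0 < m * d := Nat.mul_pos hm hd
  have h1 : (range n).filter (fun x => x ≡ a [MOD m] ∧ d ∣ x)
      = (range n).filter (fun x => x ≡ c [MOD m * d]) := by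
    apply filter_congr
    intro x _
    constructor
    · rintro ⟨h1, h2⟩
      refine (Nat.modEq_and_modEq_iff_modEq_mul hmd).mp ⟨h1.trans hc1.symm, ?_⟩
      exact ((Nat.modEq_zero_iff_dvd).mpr h2).trans hc2.symm
    · intro h
      have h3 := (Nat.modEq_and_modEq_iff_modEq_mul hmd).mpr h
      exact ⟨h3.1.trans hc1, (Nat.modEq_zero_iff_dvd).mp (h3.2.trans hc2)⟩
  have h2 := Nat.count_modEq_card n hmdpos c
  rw [Nat.count_eq_card_filter_range] at h2
  rw [h1, h2]
  have h3 : ((n / (m * d) : ℕ) : ℝ) ≤ (n : ℝ) / (m * d) := by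
    have := @Nat.cast_div_le ℝ _ _ _ n (m * d)
    push_cast at this
    exact this
  have h4 : (n : ℝ) / (m * d) < ((n / (m * d) : ℕ) : ℝ) + 1 := by
    have h5 : n < (n / (m * d) + 1) * (m * d) := by
      have := Nat.lt_div_mul_add (a := n) hmdpos
      nlinarith
    have h6 : (n : ℝ) < (((n / (m * d) : ℕ) : ℝ) + 1) * (m * d) := by exact_mod_cast h5
    have h7 : (0 : ℝ) < (m : ℝ) * d := by exact_mod_cast hmdpos
    rw [div_lt_iff₀ h7]
    exact h6
  rw [abs_le]
  push_cast
  split_ifs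
  · constructor <;> linarith
  · constructor <;> linarith

lemma bonf (S : Finset ℕ) (r : ℕ) :
    |(if S = ∅ then (1 : ℝ) else 0)
        - ∑ D ∈ S.powerset with D.card ≤ r, (-1 : ℝ) ^ D.card|
      ≤ ∑ D ∈ S.powerset with D.card = r + 1, (1 : ℝ) := by
  classical
  have h1 : ∑ D ∈ S.powerset with D.card ≤ r, (-1 : ℝ) ^ D.card
      = ∑ j ∈ range (r + 1), (-1 : ℝ) ^ j * (S.card.choose j : ℝ) := by
    have h2 : ∀ D ∈ S.powerset.filter (fun D => D.card ≤ r), D.card ∈ range (r + 1) := by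
      intro D hD
      rw [mem_filter] at hD
      exact mem_range.mpr (by omega)
    rw [← sum_fiberwise_of_maps_to h2]
    refine sum_congr rfl ?_
    intro j hj
    have h3 : (S.powerset.filter (fun D => D.card ≤ r)).filter (fun D => D.card = j)
        = S.powersetCard j := by
      ext D
      simp only [mem_filter, mem_powerset, mem_powersetCard]
      have := mem_range.mp hj
      constructor
      · rintro ⟨⟨h, _⟩, h'⟩
        exact ⟨h, h'⟩
      · rintro ⟨h, h'⟩
        exact ⟨⟨h, by omega⟩, h'⟩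
    rw [h3]
    have h4 : ∀ D ∈ S.powersetCard j, (-1 : ℝ) ^ D.card = (-1 : ℝ) ^ j := by
      intro D hD
      rw [(mem_powersetCard.mp hD).2]
    rw [sum_congr rfl h4, sum_const, card_powersetCard, nsmul_eq_mul, mul_comm]
  have h5 : ∑ D ∈ S.powerset with D.card = r + 1, (1 : ℝ) = (S.card.choose (r + 1) : ℝ) := by
    rw [← powersetCard_eq_filter, sum_const, card_powersetCard, nsmul_eq_mul, mul_one]
  rw [h1, h5]
  rcases Nat.eq_zero_or_pos S.card with h0 | h0
  · have h6 : S = ∅ := card_eq_zero.mp h0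
    rw [if_pos h6, h0, sum_range_succ']
    simp
  · have h6 : S ≠ ∅ := by
      rintro rfl
      simp at h0
    rw [if_neg h6]
    obtain ⟨s, hs⟩ : ∃ s, S.card = s + 1 := ⟨S.card - 1, by omega⟩
    rw [hs]
    have h7 := @Int.alternating_sum_range_choose_eq_choose s r
    have h8 : ∑ j ∈ range (r + 1), (-1 : ℝ) ^ j * ((s + 1).choose j : ℝ)
        = (-1) ^ r * (s.choose r : ℝ) := by
      exact_mod_cast h7
    rw [h8, zero_sub, abs_neg, abs_mul, abs_pow, abs_neg, abs_one, one_pow, one_mul, Nat.abs_cast,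
      Nat.choose_succ_succ]
    push_cast
    have : (0 : ℝ) ≤ (s.choose (r + 1) : ℝ) := by positivity
    linarith

lemma sieve2 (Q : Finset ℕ) (hQ : ∀ q ∈ Q, q.Prime) {m : ℕ} (hm : 0 < m)
    (hmQ : ∀ q ∈ Q, Nat.Coprime m q) (n a r : ℕ) :
    |(((range n).filter (fun x => x ≡ a [MOD m] ∧ ∀ q ∈ Q, ¬ q ∣ x)).card : ℝ)
        - (n : ℝ) / m * ∏ q ∈ Q, (1 - 1 / (q : ℝ))|
      ≤ ((Q.powerset.filter (fun D => D.card ≤ r + 1)).card : ℝ)
        + 2 * ((n : ℝ) / m) * ∑ D ∈ Q.powerset with r + 1 ≤ D.card, ∏ q ∈ D, (1 / (q : ℝ)) := by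
  classical
  set S : ℕ → Finset ℕ := fun x => Q.filter (fun q => q ∣ x) with hS
  set X := (range n).filter (fun x => x ≡ a [MOD m]) with hX
  set E : Finset ℕ → ℝ := fun D =>
    (((range n).filter (fun x => x ≡ a [MOD m] ∧ (∏ q ∈ D, q) ∣ x)).card : ℝ) with hE
  set w : Finset ℕ → ℝ := fun D => ∏ q ∈ D, (1 / (q : ℝ)) with hw
  have hw0 : ∀ D, 0 ≤ w D := fun D => prod_nonneg (fun q _ => by positivity)
  -- divisibility by a product
  have hprod : ∀ D ∈ Q.powerset, ∀ x, D ∈ (S x).powerset ↔ (∏ q ∈ D, q) ∣ x := by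
    intro D hD x
    rw [mem_powerset] at hD
    rw [mem_powerset]
    constructor
    · intro h
      apply prod_primes_dvd
      · intro q hq
        exact (hQ q (hD hq)).prime
      · intro q hq
        exact (mem_filter.mp (h hq)).2
    · intro h q hq
      exact mem_filter.mpr ⟨hD hq, (dvd_prod_of_mem _ hq).trans h⟩
  -- interchange
  have hinter : ∀ (P : Finset ℕ → Prop) [DecidablePred P] (g : Finset ℕ → ℝ),
      ∑ x ∈ X, ∑ D ∈ (S x).powerset with P D, g D = ∑ D ∈ Q.powerset with P D, g D * E D := by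
    intro P _ g
    have h1 : ∀ x ∈ X, ∑ D ∈ (S x).powerset with P D, g D
        = ∑ D ∈ Q.powerset with P D, if (∏ q ∈ D, q) ∣ x then g D else 0 := by
      intro x _
      rw [← sum_filter]
      refine sum_congr ?_ (fun _ _ => rfl)
      ext D
      simp only [mem_filter]
      constructor
      · rintro ⟨h1, h2⟩
        have h3 : D ∈ Q.powerset := mem_powerset.mpr
          ((mem_powerset.mp h1).trans (filter_subset _ _))
        exact ⟨⟨h3, h2⟩, (hprod D h3 x).mp h1⟩
      · rintro ⟨⟨h1, h2⟩, h3⟩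
        exact ⟨(hprod D h1 x).mpr h3, h2⟩
    rw [sum_congr rfl h1, sum_comm]
    refine sum_congr rfl ?_
    intro D _
    rw [← sum_filter, sum_const, nsmul_eq_mul, mul_comm, hX, filter_filter]
  -- the count
  have hcount : (((range n).filter (fun x => x ≡ a [MOD m] ∧ ∀ q ∈ Q, ¬ q ∣ x)).card : ℝ)
      = ∑ x ∈ X, if S x = ∅ then (1 : ℝ) else 0 := by
    rw [← sum_filter, sum_const, nsmul_eq_mul, mul_one, hX, filter_filter]
    congr 2
    apply filter_congr
    intro x _
    rw [hS]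
    simp only [filter_eq_empty_iff]
  have hA : |(∑ x ∈ X, if S x = ∅ then (1 : ℝ) else 0)
      - ∑ D ∈ Q.powerset with D.card ≤ r, (-1 : ℝ) ^ D.card * E D|
      ≤ ∑ D ∈ Q.powerset with D.card = r + 1, E D := by
    rw [← hinter, ← sum_sub_distrib]
    refine (abs_sum_le_sum_abs _ _).trans ?_
    refine (sum_le_sum (fun x _ => bonf (S x) r)).trans ?_
    rw [hinter]
    simp
  have hEb : ∀ D ∈ Q.powerset, |E D - (n : ℝ) / m * w D| ≤ 1 := by
    intro D hD
    rw [mem_powerset] at hD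
    have hd : 0 < ∏ q ∈ D, q := prod_pos (fun q hq => (hQ q (hD hq)).pos)
    have hcop : Nat.Coprime m (∏ q ∈ D, q) :=
      Nat.Coprime.prod_right (fun q hq => hmQ q (hD hq))
    have h1 := count_dvd_modEq hm hd hcop n a
    have h2 : (n : ℝ) / m * w D = (n : ℝ) / (m * ((∏ q ∈ D, q : ℕ) : ℝ)) := by
      rw [hw]
      simp only [one_div]
      rw [prod_inv_distrib]
      push_cast
      rw [div_mul_eq_div_div, div_eq_mul_inv ((n : ℝ) / m)]
    rw [h2]
    exact h1
  have hB : |∑ D ∈ Q.powerset with D.card ≤ r, (-1 : ℝ) ^ D.card * E D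
      - ∑ D ∈ Q.powerset with D.card ≤ r, (-1 : ℝ) ^ D.card * ((n : ℝ) / m * w D)|
      ≤ ((Q.powerset.filter (fun D => D.card ≤ r)).card : ℝ) := by
    rw [← sum_sub_distrib]
    refine (abs_sum_le_sum_abs _ _).trans ?_
    rw [card_eq_sum_ones]
    push_cast
    refine sum_le_sum ?_
    intro D hD
    rw [← mul_sub, abs_mul, abs_pow, abs_neg, abs_one, one_pow, one_mul]
    exact hEb D (mem_of_mem_filter D hD)
  have hC : ∑ D ∈ Q.powerset with D.card = r + 1, E D
      ≤ ((Q.powerset.filter (fun D => D.card = r + 1)).card : ℝ)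
        + (n : ℝ) / m * ∑ D ∈ Q.powerset with D.card = r + 1, w D := by
    rw [card_eq_sum_ones, mul_sum]
    push_cast
    rw [← sum_add_distrib]
    refine sum_le_sum ?_
    intro D hD
    have := abs_le.mp (hEb D (mem_of_mem_filter D hD))
    linarith [this.2]
  have hV : (n : ℝ) / m * ∏ q ∈ Q, (1 - 1 / (q : ℝ))
      = ∑ D ∈ Q.powerset with D.card ≤ r, (-1 : ℝ) ^ D.card * ((n : ℝ) / m * w D)
        + ∑ D ∈ Q.powerset with ¬ D.card ≤ r, (-1 : ℝ) ^ D.card * ((n : ℝ) / m * w D) := by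
    rw [sum_filter_add_sum_filter_not]
    have h1 : ∀ q : ℕ, 1 - 1 / (q : ℝ) = 1 + (-1) * (1 / (q : ℝ)) := fun q => by ring
    simp_rw [h1]
    rw [prod_one_add, mul_sum]
    refine sum_congr rfl ?_
    intro D _
    rw [prod_mul_distrib, prod_const]
    ring
  have hD : |∑ D ∈ Q.powerset with ¬ D.card ≤ r, (-1 : ℝ) ^ D.card * ((n : ℝ) / m * w D)|
      ≤ (n : ℝ) / m * ∑ D ∈ Q.powerset with r + 1 ≤ D.card, w D := by
    refine (abs_sum_le_sum_abs _ _).trans ?_
    have h1 : Q.powerset.filter (fun D => ¬ D.card ≤ r)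
        = Q.powerset.filter (fun D => r + 1 ≤ D.card) := by
      apply filter_congr
      intro D _
      omega
    rw [h1, mul_sum]
    refine sum_le_sum ?_
    intro D _
    rw [abs_mul, abs_pow, abs_neg, abs_one, one_pow, one_mul,
      abs_of_nonneg (mul_nonneg (by positivity) (hw0 D))]
  have hF : ∑ D ∈ Q.powerset with D.card = r + 1, w D
      ≤ ∑ D ∈ Q.powerset with r + 1 ≤ D.card, w D := by
    apply sum_le_sum_of_subset_of_nonneg
    · intro D hD
      rw [mem_filter] at hD ⊢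
      exact ⟨hD.1, hD.2.ge⟩
    · intro D _ _
      exact hw0 D
  have hG : ((Q.powerset.filter (fun D => D.card ≤ r)).card : ℝ)
      + ((Q.powerset.filter (fun D => D.card = r + 1)).card : ℝ)
      = ((Q.powerset.filter (fun D => D.card ≤ r + 1)).card : ℝ) := by
    rw [← Nat.cast_add, ← card_union_of_disjoint]
    · congr 2
      ext D
      simp only [mem_union, mem_filter]
      constructor
      · rintro (h | h)
        · exact ⟨h.1, by omega⟩
        · exact ⟨h.1, by omega⟩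
      · rintro ⟨h1, h2⟩
        rcases Nat.lt_or_ge r D.card with h3 | h3
        · exact Or.inr ⟨h1, by omega⟩
        · exact Or.inl ⟨h1, h3⟩
    · rw [disjoint_left]
      intro D h1 h2
      rw [mem_filter] at h1 h2
      omega
  rw [hcount, hV]
  have hnm : 0 ≤ (n : ℝ) / m := by positivity
  have hF' := mul_le_mul_of_nonneg_left hF hnm
  rw [abs_le] at hA hB hD ⊢
  constructor <;> linarith [hA.1, hA.2, hB.1, hB.2, hD.1, hD.2]

end Pool.Agent.H10.First
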