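import Pool.Agent.H10.First1
set_option autoImplicit false

namespace Pool.Agent.H10.First

open Finset

lemma prod_Icc_add (K : ℕ) (hK : 1 ≤ K) : ∏ j ∈ Icc 2 K, (1 + 1 / (j : ℝ)) ≤ K := by
  induction K, hK using Nat.le_induction with
  | base => simp
  | succ K hK ih =>
    rw [prod_Icc_succ_top (by omega)]
    have h1 : (0 : ℝ) < (K : ℝ) + 1 := by positivity
    have h2 : (0 : ℝ) ≤ 1 + 1 / ((K + 1 : ℕ) : ℝ) := by positivity
    refine (mul_le_mul_of_nonneg_right ih h2).trans ?_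
    push_cast
    rw [mul_add, mul_one, mul_one_div]
    have : (K : ℝ) / (K + 1) ≤ 1 := by
      rw [div_le_one h1]
      linarith
    linarith

lemma prod_Icc_sub (K : ℕ) (hK : 1 ≤ K) : ∏ j ∈ Icc 2 K, (1 - 1 / (j : ℝ)) = 1 / K := by
  induction K, hK using Nat.le_induction with
  | base => simp
  | succ K hK ih =>
    rw [prod_Icc_succ_top (by omega), ih]
    have h1 : (0 : ℝ) < (K : ℝ) := by exact_mod_cast hK
    push_cast
    field_simp
    ring

lemma prod_add_le {Q : Finset ℕ} {K : ℕ} (hK : 1 ≤ K) (hQ : Q ⊆ Icc 2 K) :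
    ∏ q ∈ Q, (1 + 1 / (q : ℝ)) ≤ K := by
  refine le_trans ?_ (prod_Icc_add K hK)
  refine prod_le_prod_of_subset_of_one_le hQ (fun i _ => by positivity) ?_
  intro i _ _
  have : (0 : ℝ) ≤ 1 / (i : ℝ) := by positivity
  linarith

lemma prod_sub_ge {Q : Finset ℕ} {K : ℕ} (hK : 1 ≤ K) (hQ : Q ⊆ Icc 2 K) :
    1 / (K : ℝ) ≤ ∏ q ∈ Q, (1 - 1 / (q : ℝ)) := by
  rw [← prod_Icc_sub K hK, ← prod_sdiff hQ]
  have h0 : ∀ i ∈ Icc 2 K, (0 : ℝ) ≤ 1 - 1 / (i : ℝ) ∧ 1 - 1 / (i : ℝ) ≤ 1 := by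
    intro i hi
    have h1 : (2 : ℝ) ≤ i := by exact_mod_cast (mem_Icc.mp hi).1
    constructor
    · rw [sub_nonneg, div_le_one (by linarith)]
      linarith
    · have : (0 : ℝ) ≤ 1 / (i : ℝ) := by positivity
      linarith
  have h1 : ∏ q ∈ Icc 2 K \ Q, (1 - 1 / (q : ℝ)) ≤ 1 :=
    prod_le_one (fun i hi => (h0 i (mem_sdiff.mp hi).1).1) (fun i hi => (h0 i (mem_sdiff.mp hi).1).2)
  have h2 : 0 ≤ ∏ q ∈ Q, (1 - 1 / (q : ℝ)) := prod_nonneg (fun i hi => (h0 i (hQ hi)).1)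
  exact mul_le_of_le_one_left h2 h1

lemma tail_le {Q : Finset ℕ} {K : ℕ} (hK : 1 ≤ K) (hQ : Q ⊆ Icc 2 K) (R : ℕ) :
    ∑ D ∈ Q.powerset with R ≤ D.card, ∏ q ∈ D, (1 / (q : ℝ)) ≤ (K : ℝ) ^ 2 / 2 ^ R := by
  have h1 : ∑ D ∈ Q.powerset with R ≤ D.card, ∏ q ∈ D, (1 / (q : ℝ))
      ≤ ∑ D ∈ Q.powerset, (∏ q ∈ D, (2 / (q : ℝ))) / 2 ^ R := by
    have h4 : ∀ D ∈ Q.powerset.filter (fun D => R ≤ D.card), ∏ q ∈ D, (1 / (q : ℝ))
        ≤ (∏ q ∈ D, (2 / (q : ℝ))) / 2 ^ R := by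
      intro D hD
      have h2 : R ≤ D.card := (mem_filter.mp hD).2
      have h3 : ∏ q ∈ D, (2 / (q : ℝ)) = 2 ^ D.card * ∏ q ∈ D, (1 / (q : ℝ)) := by
        rw [← prod_const, ← prod_mul_distrib]
        exact prod_congr rfl (fun q _ => by ring)
      rw [h3, le_div_iff₀ (by positivity), mul_comm]
      apply mul_le_mul_of_nonneg_right _ (prod_nonneg (fun q _ => by positivity))
      exact pow_le_pow_right₀ (by norm_num) h2
    refine (sum_le_sum h4).trans ?_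
    apply sum_le_sum_of_subset_of_nonneg (filter_subset _ _)
    · intro D _ _
      exact div_nonneg (prod_nonneg (fun q _ => by positivity)) (by positivity)
  refine h1.trans ?_
  rw [← sum_div, ← prod_one_add]
  apply div_le_div_of_nonneg_right _ (by positivity)
  calc ∏ q ∈ Q, (1 + 2 / (q : ℝ)) ≤ ∏ q ∈ Q, (1 + 1 / (q : ℝ)) ^ 2 := by
        apply prod_le_prod (fun q _ => by positivity)
        intro q _
        have : (0 : ℝ) ≤ (1 / (q : ℝ)) ^ 2 := by positivity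
        have h2 : (2 : ℝ) / q = 2 * (1 / q) := by ring
        rw [h2]
        nlinarith
    _ = (∏ q ∈ Q, (1 + 1 / (q : ℝ))) ^ 2 := by rw [prod_pow]
    _ ≤ (K : ℝ) ^ 2 := by
        apply pow_le_pow_left₀ (prod_nonneg (fun q _ => by positivity))
        exact prod_add_le hK hQ

lemma card_small {Q : Finset ℕ} {K : ℕ} (hK : 1 ≤ K) (hQ : Q ⊆ Icc 2 K) (R : ℕ) :
    (Q.powerset.filter (fun D => D.card ≤ R)).card ≤ K ^ R := by
  classical
  have hc : Q.card + 1 ≤ K := by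
    have := card_le_card hQ
    rw [Nat.card_Icc] at this
    omega
  have h1 : (Q.powerset.filter (fun D => D.card ≤ R)).card
      = ∑ j ∈ range (R + 1), Q.card.choose j := by
    have h2 : ∀ D ∈ Q.powerset.filter (fun D => D.card ≤ R), D.card ∈ range (R + 1) := by
      intro D hD
      rw [mem_filter] at hD
      exact mem_range.mpr (by omega)
    rw [card_eq_sum_card_fiberwise h2]
    refine sum_congr rfl ?_
    intro j hj
    have h3 : (Q.powerset.filter (fun D => D.card ≤ R)).filter (fun D => D.card = j)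
        = Q.powersetCard j := by
      ext D
      simp only [mem_filter, mem_powerset, mem_powersetCard]
      have := mem_range.mp hj
      constructor
      · rintro ⟨⟨h, _⟩, h'⟩
        exact ⟨h, h'⟩
      · rintro ⟨h, h'⟩
        exact ⟨⟨h, by omega⟩, h'⟩
    rw [h3, card_powersetCard]
  rw [h1]
  calc ∑ j ∈ range (R + 1), Q.card.choose j
      ≤ ∑ j ∈ range (R + 1), Q.card ^ j * 1 ^ (R - j) * R.choose j := by
        apply sum_le_sum
        intro j hj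
        have h2 : 1 ≤ R.choose j := Nat.choose_pos (by have := mem_range.mp hj; omega)
        have h3 : Q.card.choose j ≤ Q.card ^ j := Nat.choose_le_pow _ _
        rw [one_pow, mul_one]
        exact h3.trans (Nat.le_mul_of_pos_right _ h2)
    _ = (Q.card + 1) ^ R := (add_pow _ _ _).symm
    _ ≤ K ^ R := Nat.pow_le_pow_left hc R

/-- two sided sieve estimate -/
lemma sieve3 {Q : Finset ℕ} (hQ : ∀ q ∈ Q, q.Prime) {K : ℕ} (hK : 4 ≤ K) (hQK : Q ⊆ Icc 2 K)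
    {m : ℕ} (hm : 0 < m) (hmK : m ≤ K) (hmQ : ∀ q ∈ Q, Nat.Coprime m q) (a : ℕ) {r : ℕ}
    (hr : 8 * K ^ 3 ≤ 2 ^ (r + 1)) :
    |(((range (K ^ (r + 4))).filter (fun x => x ≡ a [MOD m] ∧ ∀ q ∈ Q, ¬ q ∣ x)).card : ℝ)
        - ((K : ℝ) ^ (r + 4)) / m * ∏ q ∈ Q, (1 - 1 / (q : ℝ))|
      ≤ ((K : ℝ) ^ (r + 4)) / m * (∏ q ∈ Q, (1 - 1 / (q : ℝ))) / 2 := by
  have hK1 : 1 ≤ K := by omega
  have h0 := sieve2 Q hQ hm hmQ (K ^ (r + 4)) a r
  push_cast at h0
  refine h0.trans ?_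
  set V := ∏ q ∈ Q, (1 - 1 / (q : ℝ)) with hV
  have hKr : (4 : ℝ) ≤ K := by exact_mod_cast hK
  have hKpos : (0 : ℝ) < K := by linarith
  have hmr : (0 : ℝ) < m := by exact_mod_cast hm
  have hmKr : (m : ℝ) ≤ K := by exact_mod_cast hmK
  have hV1 : 1 / (K : ℝ) ≤ V := prod_sub_ge hK1 hQK
  have hA : ((Q.powerset.filter (fun D => D.card ≤ r + 1)).card : ℝ) ≤ (K : ℝ) ^ (r + 1) := by
    exact_mod_cast card_small hK1 hQK (r + 1)
  have hB := tail_le hK1 hQK (r + 1)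
  have hnm : 0 ≤ (K : ℝ) ^ (r + 4) / m := by positivity
  have hnm2 : (K : ℝ) ^ (r + 3) ≤ (K : ℝ) ^ (r + 4) / m := by
    rw [le_div_iff₀ hmr, pow_succ (K : ℝ) (r + 3)]
    exact mul_le_mul_of_nonneg_left hmKr (by positivity)
  have hnV : (K : ℝ) ^ (r + 4) / m * (1 / K) ≤ (K : ℝ) ^ (r + 4) / m * V :=
    mul_le_mul_of_nonneg_left hV1 hnm
  have h1 : (K : ℝ) ^ (r + 1) ≤ (K : ℝ) ^ (r + 4) / m * V / 4 := by
    have h2 : (K : ℝ) ^ (r + 3) * (1 / K) ≤ (K : ℝ) ^ (r + 4) / m * (1 / K) :=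
      mul_le_mul_of_nonneg_right hnm2 (by positivity)
    have h3 : (K : ℝ) ^ (r + 3) * (1 / K) = (K : ℝ) ^ (r + 1) * K := by
      field_simp
      ring
    have h4 : (K : ℝ) ^ (r + 1) * 4 ≤ (K : ℝ) ^ (r + 1) * K :=
      mul_le_mul_of_nonneg_left hKr (by positivity)
    linarith
  have h5 : (K : ℝ) ^ 2 / 2 ^ (r + 1) ≤ 1 / (8 * K) := by
    rw [div_le_div_iff₀ (by positivity) (by positivity)]
    have h6 : (8 : ℝ) * K ^ 3 ≤ 2 ^ (r + 1) := by exact_mod_cast hr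
    nlinarith
  have h7 : 2 * ((K : ℝ) ^ (r + 4) / m) * (∑ D ∈ Q.powerset with r + 1 ≤ D.card,
      ∏ q ∈ D, (1 / (q : ℝ))) ≤ (K : ℝ) ^ (r + 4) / m * V / 4 := by
    have h8 := mul_le_mul_of_nonneg_left (hB.trans h5) (mul_nonneg (by norm_num : (0:ℝ) ≤ 2) hnm)
    have h9 : 2 * ((K : ℝ) ^ (r + 4) / m) * (1 / (8 * K))
        = (K : ℝ) ^ (r + 4) / m * (1 / K) / 4 := by
      field_simp
      ring
    linarith
  linarith

/-- greedy covering lemma -/
lemma cover {T : Type} [DecidableEq T] (X : Finset ℕ) (U : Finset T) (A : T → Finset ℕ) {B : ℝ} (hB : 1 ≤ B)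
    (hA : ∀ τ ∈ U, A τ ⊆ X) (hAc : ∀ τ ∈ U, (X.card : ℝ) ≤ B * (A τ).card) (hX : X.Nonempty)
    (t : ℕ) :
    ∃ Y ⊆ X, Y.card ≤ t ∧ ((U.filter (fun τ => Disjoint Y (A τ))).card : ℝ)
      ≤ U.card * (1 - 1 / B) ^ t := by
  classical
  have hB0 : 0 < B := by linarith
  induction t with
  | zero => exact ⟨∅, empty_subset _, le_refl _, by simp⟩
  | succ t ih =>
    obtain ⟨Y, hY, hYc, hYU⟩ := ih
    set W := U.filter (fun τ => Disjoint Y (A τ)) with hW
    -- double counting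
    have h1 : ∑ x ∈ X, ((W.filter (fun τ => x ∈ A τ)).card : ℝ) = ∑ τ ∈ W, ((A τ).card : ℝ) := by
      have h2 : ∀ x, ((W.filter (fun τ => x ∈ A τ)).card : ℝ)
          = ∑ τ ∈ W, if x ∈ A τ then (1 : ℝ) else 0 := by
        intro x
        rw [← sum_filter, sum_const, nsmul_eq_mul, mul_one]
      simp_rw [h2]
      rw [sum_comm]
      refine sum_congr rfl ?_
      intro τ hτ
      rw [← sum_filter, sum_const, nsmul_eq_mul, mul_one]
      congr 2
      ext x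
      simp only [mem_filter]
      exact ⟨fun h => h.2, fun h => ⟨hA τ (mem_filter.mp hτ).1 h, h⟩⟩
    have h3 : ∑ x ∈ X, ((W.card : ℝ) / B) ≤ ∑ x ∈ X, ((W.filter (fun τ => x ∈ A τ)).card : ℝ) := by
      rw [h1, sum_const, nsmul_eq_mul]
      have h4 : ∑ τ ∈ W, ((X.card : ℝ) / B) ≤ ∑ τ ∈ W, ((A τ).card : ℝ) := by
        apply sum_le_sum
        intro τ hτ
        rw [div_le_iff₀ hB0, mul_comm]
        exact hAc τ (mem_filter.mp hτ).1
      rw [sum_const, nsmul_eq_mul] at h4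
      calc (X.card : ℝ) * ((W.card : ℝ) / B) = W.card * ((X.card : ℝ) / B) := by ring
        _ ≤ _ := h4
    obtain ⟨x, hx, hxW⟩ := exists_le_of_sum_le hX h3
    refine ⟨insert x Y, insert_subset hx hY, (card_insert_le _ _).trans (by omega), ?_⟩
    have h5 : U.filter (fun τ => Disjoint (insert x Y) (A τ)) = W.filter (fun τ => ¬ x ∈ A τ) := by
      ext τ
      simp only [hW, mem_filter, disjoint_insert_left]
      tauto
    have h6 : ((W.filter (fun τ => x ∈ A τ)).card : ℝ) + ((W.filter (fun τ => ¬ x ∈ A τ)).card : ℝ)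
        = W.card := by
      exact_mod_cast card_filter_add_card_filter_not (fun τ => x ∈ A τ)
    rw [h5]
    have h7 : ((W.filter (fun τ => ¬ x ∈ A τ)).card : ℝ) ≤ W.card * (1 - 1 / B) := by
      have : (W.card : ℝ) * (1 - 1 / B) = W.card - W.card / B := by ring
      rw [this]
      linarith
    have h8 : (0 : ℝ) ≤ 1 - 1 / B := by
      rw [sub_nonneg, div_le_one hB0]
      exact hB
    calc ((W.filter (fun τ => ¬ x ∈ A τ)).card : ℝ) ≤ W.card * (1 - 1 / B) := h7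
      _ ≤ (U.card * (1 - 1 / B) ^ t) * (1 - 1 / B) := mul_le_mul_of_nonneg_right hYU h8
      _ = U.card * (1 - 1 / B) ^ (t + 1) := by ring

end Pool.Agent.H10.First
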