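import Mathlib
set_option autoImplicit false

namespace Pool.Agent.H10.Tuples

lemma adm_of_card {H : Finset ℕ} {p : ℕ} (hp : p.Prime) (hc : H.card < p) :
    ∃ c : ℕ, ∀ h ∈ H, ¬ p ∣ c + h := by
  have : Fact p.Prime := ⟨hp⟩
  classical
  have h1 : (H.image (fun h : ℕ => (h : ZMod p))).card < Fintype.card (ZMod p) := by
    rw [ZMod.card]
    exact lt_of_le_of_lt Finset.card_image_le hc
  obtain ⟨x, hx⟩ : ∃ x : ZMod p, x ∉ H.image (fun h : ℕ => (h : ZMod p)) := by
    by_contra hcon
    push Not at hcon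
    have : H.image (fun h : ℕ => (h : ZMod p)) = Finset.univ := Finset.eq_univ_iff_forall.mpr hcon
    rw [this, Finset.card_univ] at h1
    exact lt_irrefl _ h1
  refine ⟨(-x).val, fun h hh hdiv => hx ?_⟩
  rw [Finset.mem_image]
  refine ⟨h, hh, ?_⟩
  have h2 : (((-x).val + h : ℕ) : ZMod p) = 0 := (ZMod.natCast_eq_zero_iff _ _).mpr hdiv
  push_cast at h2
  rw [ZMod.natCast_val, ZMod.cast_id', id] at h2
  have : (h : ZMod p) = x := by linear_combination h2
  exact this

lemma prime_dvd_primorial {p n : ℕ} (hp : p.Prime) (hle : p ≤ n) : p ∣ primorial n := by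
  unfold primorial
  apply Finset.dvd_prod_of_mem (fun q => q)
  simp only [Finset.mem_filter, Finset.mem_range]
  exact ⟨by omega, hp⟩

/-- gap law, hard direction -/
theorem gap (r : ℕ) (hr : 1 ≤ r) (k : ℕ)
    (hk : ∀ H : Finset ℕ, H.card = k → (∀ p : ℕ, p.Prime → ∃ c : ℕ, ∀ h ∈ H, ¬ p ∣ c + h) →
      ∃ N : ℕ, (H.filter (fun h => ¬ (N + h).Prime)).card < k / r)
    (H0 : Finset ℕ) (hcard : H0.card = r)
    (hadm : ∀ p : ℕ, p.Prime → ∃ c : ℕ, ∀ h ∈ H0, ¬ p ∣ c + h) :
    {N : ℕ | ∀ h ∈ H0, (N + h).Prime}.Infinite := by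
  classical
  rw [Set.infinite_iff_exists_gt]
  intro B
  set J := k / r with hJ
  set Q := primorial (r * (J + 1)) with hQ
  have hQpos : 0 < Q := primorial_pos _
  set L := Q * (B + H0.sup id + 1) with hL
  have hLB : B < L := by
    have : 1 * (B + H0.sup id + 1) ≤ Q * (B + H0.sup id + 1) := Nat.mul_le_mul_right _ hQpos
    omega
  have hLH : ∀ h ∈ H0, h < L := by
    intro h hh
    have h1 : h ≤ H0.sup id := Finset.le_sup (f := id) hh
    have : 1 * (B + H0.sup id + 1) ≤ Q * (B + H0.sup id + 1) := Nat.mul_le_mul_right _ hQpos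
    omega
  have hQL : Q ∣ L := Dvd.intro _ rfl
  -- the map (h, i) ↦ h + (i+1) L is injective on H0 × ℕ
  have hinj : ∀ h ∈ H0, ∀ h' ∈ H0, ∀ i i' : ℕ, h + (i + 1) * L = h' + (i' + 1) * L → h = h' ∧ i = i' := by
    intro h hh h' hh' i i' heq
    have hLpos : 0 < L := by omega
    have h1 := congrArg (fun x => x / L) heq
    simp only [Nat.add_mul_div_right _ _ hLpos, Nat.div_eq_of_lt (hLH h hh),
      Nat.div_eq_of_lt (hLH h' hh')] at h1
    have h2 : i = i' := by omega
    subst h2
    exact ⟨by omega, rfl⟩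
  set F : Finset ℕ := (H0 ×ˢ Finset.range (J + 1)).image (fun x => x.1 + (x.2 + 1) * L) with hF
  set F' : Finset ℕ := (H0 ×ˢ Finset.range J).image (fun x => x.1 + (x.2 + 1) * L) with hF'
  have hinjOn : ∀ m : ℕ, Set.InjOn (fun x : ℕ × ℕ => x.1 + (x.2 + 1) * L) ((H0 ×ˢ Finset.range m : Finset (ℕ × ℕ)) : Set (ℕ × ℕ)) := by
    intro m x hx y hy hxy
    simp only [Finset.coe_product, Set.mem_prod, Finset.mem_coe] at hx hy
    obtain ⟨h1, h2⟩ := hinj x.1 hx.1 y.1 hy.1 x.2 y.2 hxy
    exact Prod.ext h1 h2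
  have hFcard : F.card = r * (J + 1) := by
    rw [hF, Finset.card_image_of_injOn (hinjOn (J + 1)), Finset.card_product, Finset.card_range, hcard]
  have hF'card : F'.card = r * J := by
    rw [hF', Finset.card_image_of_injOn (hinjOn J), Finset.card_product, Finset.card_range, hcard]
  have hF'F : F' ⊆ F := by
    apply Finset.image_subset_image
    apply Finset.product_subset_product_right
    exact Finset.range_subset_range.mpr (by omega)
  have hk1 : F'.card ≤ k := by
    rw [hF'card, hJ]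
    exact Nat.mul_div_le k r
  have hk2 : k ≤ F.card := by
    rw [hFcard, hJ]
    have := Nat.lt_mul_div_succ k (show 0 < r by omega)
    exact this.le
  obtain ⟨H, hF'H, hHF, hHcard⟩ := Finset.exists_subsuperset_card_eq hF'F hk1 hk2
  have hFadm : ∀ p : ℕ, p.Prime → ∃ c : ℕ, ∀ h ∈ F, ¬ p ∣ c + h := by
    intro p hp
    by_cases hle : p ≤ r * (J + 1)
    · obtain ⟨c, hc⟩ := hadm p hp
      refine ⟨c, fun x hx => ?_⟩
      obtain ⟨⟨h, i⟩, hmem, rfl⟩ := Finset.mem_image.mp hx
      rw [Finset.mem_product] at hmem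
      intro hdiv
      apply hc h hmem.1
      have hpL : p ∣ (i + 1) * L := Dvd.dvd.mul_left ((prime_dvd_primorial hp hle).trans hQL) _
      have h3 : c + (h + (i + 1) * L) = (i + 1) * L + (c + h) := by ring
      simp only at hdiv
      rw [h3] at hdiv
      exact (Nat.dvd_add_right hpL).mp hdiv
    · apply adm_of_card hp
      rw [hFcard]
      omega
  obtain ⟨N, hN⟩ := hk H hHcard (fun p hp => by
    obtain ⟨c, hc⟩ := hFadm p hp
    exact ⟨c, fun h hh => hc h (hHF hh)⟩)
  -- some copy is entirely prime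
  have hcopy : ∃ i < J, ∀ h ∈ H0, (N + (h + (i + 1) * L)).Prime := by
    by_contra hcon
    push Not at hcon
    -- pick a nonprime in each copy
    have hch : ∀ i : ℕ, ∃ h : ℕ, i < J → (h ∈ H0 ∧ ¬ (N + (h + (i + 1) * L)).Prime) := by
      intro i
      by_cases hi : i < J
      · obtain ⟨h, hh, hnp⟩ := hcon i hi
        exact ⟨h, fun _ => ⟨hh, hnp⟩⟩
      · exact ⟨0, fun h => absurd h hi⟩
    choose f hf using hch
    have hle : J ≤ (H.filter (fun h => ¬ (N + h).Prime)).card := by
      have hmaps : ∀ i ∈ Finset.range J, f i + (i + 1) * L ∈ H.filter (fun h => ¬ (N + h).Prime) := by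
        intro i hi
        rw [Finset.mem_range] at hi
        obtain ⟨h1, h2⟩ := hf i hi
        rw [Finset.mem_filter]
        refine ⟨hF'H ?_, h2⟩
        exact Finset.mem_image.mpr ⟨(f i, i), Finset.mem_product.mpr ⟨h1, Finset.mem_range.mpr hi⟩, rfl⟩
      have hinjf : Set.InjOn (fun i => f i + (i + 1) * L) (Finset.range J : Set ℕ) := by
        intro i hi j hj hij
        rw [Finset.mem_coe, Finset.mem_range] at hi hj
        exact (hinj _ (hf i hi).1 _ (hf j hj).1 i j hij).2
      have := Finset.card_le_card_of_injOn _ hmaps hinjf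
      rwa [Finset.card_range] at this
    omega
  obtain ⟨i, hi, hprime⟩ := hcopy
  refine ⟨N + (i + 1) * L, fun h hh => ?_, ?_⟩
  · have := hprime h hh
    have h3 : N + (i + 1) * L + h = N + (h + (i + 1) * L) := by ring
    rw [h3]
    exact this
  · have : L ≤ (i + 1) * L := Nat.le_mul_of_pos_left _ (by omega)
    omega

end Pool.Agent.H10.Tuples
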