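import Pool.Agent.H10.First2
import Pool.Agent.H10.TuplesBasic
set_option autoImplicit false

namespace Pool.Agent.H10.First

open Finset

/-- the primes up to `K` -/
def PP (K : ℕ) : Finset ℕ := (Icc 2 K).filter Nat.Prime

/-- candidates: integers below `n` free of prime factors up to `K` -/
def XX (K n : ℕ) : Finset ℕ := (range n).filter (fun x => ∀ q ∈ PP K, ¬ q ∣ x)

lemma mem_PP {K q : ℕ} : q ∈ PP K ↔ q.Prime ∧ q ≤ K := by
  unfold PP
  rw [mem_filter, mem_Icc]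
  constructor
  · rintro ⟨⟨_, h2⟩, h3⟩
    exact ⟨h3, h2⟩
  · rintro ⟨h1, h2⟩
    exact ⟨⟨h1.two_le, h2⟩, h1⟩

lemma XX_bounds {K r : ℕ} (hK : 4 ≤ K) (hr : 8 * K ^ 3 ≤ 2 ^ (r + 1)) :
    (K : ℝ) ^ (r + 4) * (∏ q ∈ PP K, (1 - 1 / (q : ℝ))) / 2 ≤ (XX K (K ^ (r + 4))).card ∧
    ((XX K (K ^ (r + 4))).card : ℝ) ≤ 3 / 2 * ((K : ℝ) ^ (r + 4) * ∏ q ∈ PP K, (1 - 1 / (q : ℝ)))
    := by
  have h := sieve3 (Q := PP K) (fun q hq => (mem_PP.mp hq).1) hK (filter_subset _ _)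
    (m := 1) one_pos (by omega) (fun q _ => Nat.coprime_one_left q) 0 hr
  have h1 : (range (K ^ (r + 4))).filter (fun x => x ≡ 0 [MOD 1] ∧ ∀ q ∈ PP K, ¬ q ∣ x)
      = XX K (K ^ (r + 4)) := by
    unfold XX
    apply filter_congr
    intro x _
    simp [Nat.modEq_one]
  rw [h1] at h
  simp only [Nat.cast_one, div_one] at h
  rw [abs_le] at h
  constructor <;> linarith [h.1, h.2]

lemma XX_class {K r : ℕ} (hK : 4 ≤ K) (hr : 8 * K ^ 3 ≤ 2 ^ (r + 1)) {p a : ℕ} (hp : p.Prime)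
    (hpK : p ≤ K) (ha : ¬ p ∣ a) :
    ((XX K (K ^ (r + 4))).card : ℝ)
      ≤ 3 * p * (((XX K (K ^ (r + 4))).filter (fun x => x ≡ a [MOD p])).card : ℝ) := by
  have hsub : (PP K).erase p ⊆ Icc 2 K := (erase_subset _ _).trans (filter_subset _ _)
  have h := sieve3 (Q := (PP K).erase p) (fun q hq => (mem_PP.mp (mem_of_mem_erase hq)).1) hK hsub
    (m := p) hp.pos hpK (fun q hq => (Nat.coprime_primes hp
      (mem_PP.mp (mem_of_mem_erase hq)).1).mpr (ne_of_mem_erase hq).symm) a hr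
  have h1 : (range (K ^ (r + 4))).filter (fun x => x ≡ a [MOD p] ∧ ∀ q ∈ (PP K).erase p, ¬ q ∣ x)
      = (XX K (K ^ (r + 4))).filter (fun x => x ≡ a [MOD p]) := by
    unfold XX
    rw [filter_filter]
    apply filter_congr
    intro x _
    constructor
    · rintro ⟨h1, h2⟩
      refine ⟨fun q hq hqx => ?_, h1⟩
      by_cases hqp : q = p
      · subst hqp
        exact ha (((h1.dvd_iff (dvd_refl q)).mp) hqx)
      · exact h2 q (mem_erase.mpr ⟨hqp, hq⟩) hqx
    · rintro ⟨h1, h2⟩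
      exact ⟨h2, fun q hq => h1 q (mem_of_mem_erase hq)⟩
  rw [h1] at h
  have hpP : p ∈ PP K := mem_PP.mpr ⟨hp, hpK⟩
  have hp1 : (1 : ℝ) ≤ p := by exact_mod_cast hp.one_le
  have hp0 : (0 : ℝ) < p := by linarith
  have hV : ∏ q ∈ PP K, (1 - 1 / (q : ℝ)) ≤ ∏ q ∈ (PP K).erase p, (1 - 1 / (q : ℝ)) := by
    rw [← mul_prod_erase _ _ hpP]
    apply mul_le_of_le_one_left
    · apply prod_nonneg
      intro q hq
      have : (1 : ℝ) ≤ q := by exact_mod_cast (mem_PP.mp (mem_of_mem_erase hq)).1.one_le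
      rw [sub_nonneg, div_le_one (by linarith)]
      exact this
    · have : (0 : ℝ) ≤ 1 / (p : ℝ) := by positivity
      linarith
  have h2 := (XX_bounds hK hr).2
  have h3 := (abs_le.mp h).1
  have hKn : (0 : ℝ) ≤ (K : ℝ) ^ (r + 4) := by positivity
  have h4 : (K : ℝ) ^ (r + 4) / p * (∏ q ∈ (PP K).erase p, (1 - 1 / (q : ℝ))) / 2
      ≤ (((XX K (K ^ (r + 4))).filter (fun x => x ≡ a [MOD p])).card : ℝ) := by linarith
  have h5 := mul_le_mul_of_nonneg_left h4 (by positivity : (0 : ℝ) ≤ 3 * p)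
  have h6 : 3 * (p : ℝ) * ((K : ℝ) ^ (r + 4) / p * (∏ q ∈ (PP K).erase p, (1 - 1 / (q : ℝ))) / 2)
      = 3 / 2 * ((K : ℝ) ^ (r + 4) * ∏ q ∈ (PP K).erase p, (1 - 1 / (q : ℝ))) := by
    field_simp
  have h7 := mul_le_mul_of_nonneg_left hV hKn
  linarith

lemma XX_large {K r : ℕ} (hK : 4 ≤ K) (hr : 8 * K ^ 3 ≤ 2 ^ (r + 1)) :
    K ≤ (XX K (K ^ (r + 4))).card := by
  have h1 := (XX_bounds hK hr).1
  have hK1 : 1 ≤ K := by omega
  have h2 : 1 / (K : ℝ) ≤ ∏ q ∈ PP K, (1 - 1 / (q : ℝ)) := prod_sub_ge hK1 (filter_subset _ _)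
  have hKr : (4 : ℝ) ≤ K := by exact_mod_cast hK
  have h3 := mul_le_mul_of_nonneg_left h2 (by positivity : (0 : ℝ) ≤ (K : ℝ) ^ (r + 4))
  have h4 : (K : ℝ) ^ (r + 4) * (1 / K) = (K : ℝ) ^ (r + 3) := by
    field_simp
    ring
  have h5 : (K : ℝ) ^ 2 ≤ (K : ℝ) ^ (r + 3) := pow_le_pow_right₀ (by linarith) (by omega)
  have h6 : (K : ℝ) ≤ ((XX K (K ^ (r + 4))).card : ℝ) := by nlinarith
  exact_mod_cast h6

theorem exists_H {k z t r : ℕ} (hk : 4 ≤ k) (hz : z ≤ k) (hr : 8 * k ^ 3 ≤ 2 ^ (r + 1))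
    (ht : t + 1 ≤ k) (hz1 : 1 ≤ z) (hzt : (z : ℝ) ^ 2 * (1 - 1 / (3 * z)) ^ t < 1) :
    ∃ H : Finset ℕ, H.card = k ∧ 0 ∈ H ∧ (∀ p : ℕ, p.Prime → ∃ c : ℕ, ∀ h ∈ H, ¬ p ∣ c + h) ∧
      (∀ h ∈ H, h ≤ k ^ (r + 4)) ∧
      ∀ N : ℕ, (∀ h ∈ H, (N + h).Prime) → primorial z ∣ N + 1 := by
  classical
  set X := XX k (k ^ (r + 4)) with hX
  have hXk : k ≤ X.card := XX_large hk hr
  set U : Finset (ℕ × ℕ) := (Icc 1 z ×ˢ Icc 1 z).filter (fun τ => τ.1.Prime ∧ ¬ τ.1 ∣ τ.2) with hU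
  set A : ℕ × ℕ → Finset ℕ := fun τ => X.filter (fun x => x ≡ τ.2 [MOD τ.1]) with hA
  have hz1r : (1 : ℝ) ≤ z := by exact_mod_cast hz1
  have hUc : (U.card : ℝ) ≤ (z : ℝ) ^ 2 := by
    have h1 : U.card ≤ z * z := by
      refine (card_filter_le _ _).trans ?_
      rw [card_product, Nat.card_Icc]
      simp
    rw [sq]
    exact_mod_cast h1
  obtain ⟨Y, hYX, hYt, hYU⟩ := cover X U A (B := 3 * z) (by linarith)
    (fun τ _ => filter_subset _ _) (by
      intro τ hτ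
      rw [hU, mem_filter, mem_product, mem_Icc, mem_Icc] at hτ
      have h1 := XX_class hk hr hτ.2.1 (by omega : τ.1 ≤ k) hτ.2.2
      have h2 : (τ.1 : ℝ) ≤ z := by exact_mod_cast hτ.1.1.2
      refine h1.trans ?_
      apply mul_le_mul_of_nonneg_right _ (by positivity)
      linarith) (card_pos.mp (by omega)) t
  have hunhit : U.filter (fun τ => Disjoint Y (A τ)) = ∅ := by
    rw [← card_eq_zero]
    have h1 : (0 : ℝ) ≤ (1 - 1 / (3 * z)) ^ t := by
      apply pow_nonneg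
      rw [sub_nonneg, div_le_one (by linarith)]
      linarith
    have h2 : ((U.filter (fun τ => Disjoint Y (A τ))).card : ℝ) < 1 := by
      refine hYU.trans_lt (lt_of_le_of_lt ?_ hzt)
      exact mul_le_mul_of_nonneg_right hUc h1
    have h3 : (U.filter (fun τ => Disjoint Y (A τ))).card < 1 := by exact_mod_cast h2
    omega
  have hhit : ∀ p a : ℕ, p.Prime → p ≤ z → 1 ≤ a → a < p → ∃ x ∈ Y, x ≡ a [MOD p] := by
    intro p a hp hpz ha hap
    by_contra hcon
    push Not at hcon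
    have h1 : (p, a) ∈ U.filter (fun τ => Disjoint Y (A τ)) := by
      rw [mem_filter, hU, mem_filter, mem_product, mem_Icc, mem_Icc]
      refine ⟨⟨⟨⟨hp.one_le, hpz⟩, ⟨ha, by simp only; omega⟩⟩, hp, Nat.not_dvd_of_pos_of_lt ha hap⟩,
        ?_⟩
      rw [disjoint_left]
      intro x hx hxA
      exact hcon x hx (mem_filter.mp hxA).2
    rw [hunhit] at h1
    simp at h1
  obtain ⟨Y', hYY', hY'X, hY'c⟩ := exists_subsuperset_card_eq hYX (n := k - 1) (by omega) (by omega)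
  have hXmem : ∀ x ∈ Y', x < k ^ (r + 4) ∧ ∀ q ∈ PP k, ¬ q ∣ x := by
    intro x hx
    have := hY'X hx
    rw [hX, XX, mem_filter, mem_range] at this
    exact this
  refine ⟨insert 0 (Y'.image (fun x => x + 1)), ?_, mem_insert_self _ _, ?_, ?_, ?_⟩
  · rw [card_insert_of_notMem, card_image_of_injective _ (fun a b h => by simpa using h)]
    · omega
    · simp
  · intro p hp
    by_cases hpk : p ≤ k
    · refine ⟨p - 1, ?_⟩
      intro h hh
      rw [mem_insert, mem_image] at hh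
      have hp2 := hp.two_le
      rcases hh with rfl | ⟨x, hx, rfl⟩
      · rw [add_zero]
        exact Nat.not_dvd_of_pos_of_lt (by omega) (by omega)
      · have h1 : p - 1 + (x + 1) = p + x := by omega
        rw [h1, Nat.dvd_add_right (dvd_refl p)]
        exact (hXmem x hx).2 p (mem_PP.mpr ⟨hp, hpk⟩)
    · apply Pool.Agent.H10.Tuples.adm_of_card hp
      refine lt_of_le_of_lt (card_insert_le _ _) ?_
      rw [card_image_of_injective _ (fun a b h => by simpa using h)]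
      omega
  · intro h hh
    rw [mem_insert, mem_image] at hh
    rcases hh with rfl | ⟨x, hx, rfl⟩
    · exact Nat.zero_le _
    · exact (hXmem x hx).1
  · intro N hN
    have hN0 : N.Prime := by simpa using hN 0 (mem_insert_self _ _)
    have hmem : ∀ x ∈ Y, (N + (x + 1)).Prime := fun x hx =>
      hN (x + 1) (mem_insert_of_mem (mem_image.mpr ⟨x, hYY' hx, rfl⟩))
    have key : ∀ p : ℕ, p.Prime → p ≤ z → p ∣ N + 1 := by
      intro p hp hpz
      by_contra hcon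
      have h1 : 0 < (N + 1) % p := Nat.pos_of_ne_zero (fun h => hcon (Nat.dvd_of_mod_eq_zero h))
      have h2 : (N + 1) % p < p := Nat.mod_lt _ hp.pos
      obtain ⟨x, hx, hxa⟩ := hhit p (p - (N + 1) % p) hp hpz (by omega) (by omega)
      have h3 : p ∣ N + (x + 1) := by
        have h4 : (N + 1) + x ≡ (N + 1) % p + (p - (N + 1) % p) [MOD p] :=
          Nat.ModEq.add (Nat.mod_modEq _ _).symm hxa
        have h5 : (N + 1) % p + (p - (N + 1) % p) = p := by omega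
        rw [h5] at h4
        have h6 := (Nat.modEq_zero_iff_dvd).mp (h4.trans ((Nat.modEq_zero_iff_dvd).mpr (dvd_refl p)))
        have h7 : N + (x + 1) = N + 1 + x := by ring
        rw [h7]
        exact h6
      have h8 : N + (x + 1) = p := ((Nat.prime_dvd_prime_iff_eq hp (hmem x hx)).mp h3).symm
      have hN2 := hN0.two_le
      obtain ⟨y, hy, hya⟩ := hhit N (N - 1) hN0 (by omega) (by omega) (by omega)
      have h9 : N ∣ N + (y + 1) := by
        have h10 : y + 1 ≡ N - 1 + 1 [MOD N] := Nat.ModEq.add_right 1 hya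
        have h11 : N - 1 + 1 = N := by omega
        rw [h11] at h10
        have h12 := (Nat.modEq_zero_iff_dvd).mp (h10.trans ((Nat.modEq_zero_iff_dvd).mpr (dvd_refl N)))
        exact (Nat.dvd_add_right (dvd_refl N)).mpr h12
      have h13 := (Nat.prime_dvd_prime_iff_eq hN0 (hmem y hy)).mp h9
      omega
    unfold primorial
    apply prod_primes_dvd
    · intro q hq
      exact (mem_filter.mp hq).2.prime
    · intro q hq
      rw [mem_filter, mem_range] at hq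
      exact key q hq.2 (by omega)

end Pool.Agent.H10.First
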