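import Pool.Agent.H10.First3
set_option autoImplicit false

namespace Pool.Agent.H10.First

open Finset Filter Topology

lemma theta_lower : ∀ᶠ z : ℕ in atTop, (0.68 : ℝ) * z ≤ Chebyshev.theta z := by
  have h1 : (fun x : ℝ => Real.log x) =o[atTop] fun x : ℝ => x ^ (1 / 4 : ℝ) :=
    isLittleO_log_rpow_atTop (by norm_num)
  have h2 := (h1.bound (c := 1) one_pos)
  have h2' : ∀ᶠ z : ℕ in atTop, ‖Real.log (z : ℝ)‖ ≤ 1 * ‖(z : ℝ) ^ (1 / 4 : ℝ)‖ :=
    tendsto_natCast_atTop_atTop.eventually h2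
  have h3 : ∀ᶠ z : ℕ in atTop, (10000 : ℝ) ≤ (z : ℝ) ^ (1 / 4 : ℝ) :=
    ((tendsto_rpow_atTop (by norm_num : (0 : ℝ) < 1 / 4)).comp
      tendsto_natCast_atTop_atTop).eventually (eventually_ge_atTop _)
  filter_upwards [h2', h3, eventually_ge_atTop 10] with z hz2 hz3 hz10
  have hz : (10 : ℝ) ≤ z := by exact_mod_cast hz10
  have hz0 : (0 : ℝ) < z := by linarith
  set y := (z : ℝ) ^ (1 / 4 : ℝ) with hy
  have hy0 : 0 < y := by positivity
  have hy4 : y ^ 4 = z := by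
    rw [hy, ← Real.rpow_natCast, ← Real.rpow_mul hz0.le]
    norm_num
  have hy2 : √(z : ℝ) = y ^ 2 := by
    rw [← hy4]
    rw [show y ^ 4 = (y ^ 2) ^ 2 by ring]
    exact Real.sqrt_sq (by positivity)
  have hlog : Real.log z ≤ y := by
    have := (le_abs_self (Real.log z)).trans hz2
    rw [one_mul, Real.norm_of_nonneg hy0.le] at this
    exact this
  have hlog1 : Real.log (z + 1) ≤ 2 * y := by
    have h4 : Real.log (z + 1) ≤ Real.log (z * z) := by
      apply Real.log_le_log (by positivity)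
      nlinarith
    rw [Real.log_mul hz0.ne' hz0.ne'] at h4
    linarith
  have h5 := Chebyshev.theta_ge z
  rw [hy2] at h5
  have h6 : (0.69 : ℝ) * z ≤ z * Real.log 2 := by
    have := Real.log_two_gt_d9
    nlinarith
  have h7 : 2 * y ^ 2 * Real.log z ≤ 2 * y ^ 3 := by
    have := mul_le_mul_of_nonneg_left hlog (by positivity : (0 : ℝ) ≤ 2 * y ^ 2)
    linarith [this, (by ring : 2 * y ^ 2 * y = 2 * y ^ 3)]
  have h8 : y ^ 3 * 10000 ≤ z := by
    rw [← hy4]
    have := mul_le_mul_of_nonneg_left hz3 (by positivity : (0 : ℝ) ≤ y ^ 3)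
    linarith [this, (by ring : y ^ 3 * y = y ^ 4)]
  have h9 : y ≤ y ^ 3 := by
    have : (1 : ℝ) ≤ y ^ 2 := by nlinarith
    nlinarith
  linarith

/-- eventual numerical facts -/
lemma numeric : ∀ᶠ k : ℕ in atTop, ∃ z : ℕ, 1 ≤ z ∧ z ≤ k ∧
    (z : ℝ) ^ 2 * (1 - 1 / (3 * z)) ^ (k - 1) < 1 ∧
    Real.exp (k / (10 * Real.log k)) ≤ (primorial z : ℝ) - 1 := by
  obtain ⟨Z, hZ⟩ := eventually_atTop.mp theta_lower
  have hlog : Tendsto (fun k : ℕ => Real.log (k : ℝ)) atTop atTop :=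
    Real.tendsto_log_atTop.comp tendsto_natCast_atTop_atTop
  have hdiv : Tendsto (fun k : ℕ => (k : ℝ) / Real.log k) atTop atTop := by
    have h1 : Tendsto (fun x : ℝ => x / Real.log x) atTop atTop := by
      have h2 := Real.isLittleO_log_id_atTop
      have h3 : Tendsto (fun x : ℝ => Real.log x / x) atTop (𝓝 0) := h2.tendsto_div_nhds_zero
      have h4 : Tendsto (fun x : ℝ => Real.log x / x) atTop (𝓝[>] 0) := by
        rw [tendsto_nhdsWithin_iff]
        refine ⟨h3, ?_⟩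
        filter_upwards [eventually_gt_atTop 1] with x hx
        exact div_pos (Real.log_pos hx) (by linarith)
      have h5 := h4.inv_tendsto_nhdsGT_zero
      refine h5.congr ?_
      intro x
      simp
    exact h1.comp tendsto_natCast_atTop_atTop
  filter_upwards [hlog.eventually (eventually_ge_atTop 1),
    hdiv.eventually (eventually_ge_atTop (6.5 * (Z + 1) + 10000 : ℝ)), eventually_ge_atTop 10]
    with k hk1 hk2 hk3
  have hkr : (10 : ℝ) ≤ k := by exact_mod_cast hk3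
  set L := Real.log (k : ℝ) with hL
  have hL0 : 0 < L := by linarith
  set z := ⌊((k : ℝ) - 1) / (6.5 * L)⌋₊ with hz
  have hw0 : 0 ≤ ((k : ℝ) - 1) / (6.5 * L) := div_nonneg (by linarith) (by linarith)
  have hz1 : (z : ℝ) ≤ ((k : ℝ) - 1) / (6.5 * L) := Nat.floor_le hw0
  have hz2 : ((k : ℝ) - 1) / (6.5 * L) < z + 1 := Nat.lt_floor_add_one _
  have h1L : 1 / L ≤ 1 := by
    rw [div_le_one hL0]
    exact hk1
  have hw : ((k : ℝ) - 1) / (6.5 * L) = (k / L - 1 / L) / 6.5 := by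
    field_simp
  have hzZ : (Z : ℝ) + 1000 ≤ z := by
    rw [hw, div_lt_iff₀ (by norm_num)] at hz2
    linarith
  have hzpos : (1000 : ℝ) ≤ z := by
    have : (0 : ℝ) ≤ Z := by positivity
    linarith
  have hzk : (z : ℝ) ≤ k := by
    refine hz1.trans ?_
    rw [div_le_iff₀ (by positivity)]
    nlinarith
  refine ⟨z, ?_, ?_, ?_, ?_⟩
  · have : (1 : ℝ) ≤ z := by linarith
    exact_mod_cast this
  · exact_mod_cast hzk
  · -- covering condition
    have hz0 : (0 : ℝ) < z := by linarith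
    have h1 : 1 - 1 / (3 * (z : ℝ)) ≤ Real.exp (-(1 / (3 * (z : ℝ)))) := by
      have := Real.add_one_le_exp (-(1 / (3 * (z : ℝ))))
      linarith
    have h2 : (0 : ℝ) ≤ 1 - 1 / (3 * (z : ℝ)) := by
      rw [sub_nonneg, div_le_one (by linarith)]
      linarith
    have h3 : (1 - 1 / (3 * (z : ℝ))) ^ (k - 1) ≤ Real.exp (-(1 / (3 * (z : ℝ))) * ((k : ℝ) - 1)) := by
      refine (pow_le_pow_left₀ h2 h1 _).trans ?_
      rw [← Real.exp_nat_mul]
      apply le_of_eq
      congr 1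
      have : ((k - 1 : ℕ) : ℝ) = (k : ℝ) - 1 := by
        rw [Nat.cast_sub (by omega)]
        simp
      rw [this]
      ring
    have h4 : (z : ℝ) ^ 2 = Real.exp (2 * Real.log z) := by
      rw [two_mul, Real.exp_add, Real.exp_log hz0, sq]
    have h5 : Real.log z ≤ L := Real.log_le_log hz0 hzk
    rw [h4]
    calc Real.exp (2 * Real.log z) * (1 - 1 / (3 * (z : ℝ))) ^ (k - 1)
        ≤ Real.exp (2 * Real.log z) * Real.exp (-(1 / (3 * (z : ℝ))) * ((k : ℝ) - 1)) :=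
          mul_le_mul_of_nonneg_left h3 (Real.exp_pos _).le
      _ = Real.exp (2 * Real.log z + -(1 / (3 * (z : ℝ))) * ((k : ℝ) - 1)) := by
          rw [Real.exp_add]
      _ < 1 := by
          rw [Real.exp_lt_one_iff]
          have h6 : 2 * L < 1 / (3 * (z : ℝ)) * ((k : ℝ) - 1) := by
            rw [one_div_mul_eq_div, lt_div_iff₀ (by linarith)]
            rw [le_div_iff₀ (by linarith)] at hz1
            nlinarith
          linarith
  · have h1 := hZ z (by
      have : (Z : ℝ) ≤ z := by linarith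
      exact_mod_cast this)
    rw [Chebyshev.theta_eq_log_primorial, Nat.floor_natCast] at h1
    have hpp : (0 : ℝ) < (primorial z : ℝ) := by exact_mod_cast primorial_pos z
    have h2 : Real.exp (0.68 * z) ≤ primorial z := by
      rw [← Real.le_log_iff_exp_le hpp]
      exact h1
    have h3 : (k : ℝ) / (10 * L) + 1 ≤ 0.68 * z := by
      have h4 : (k : ℝ) / (10 * L) = (k / L) / 10 := by
        field_simp
      rw [h4]
      rw [hw, div_lt_iff₀ (by norm_num)] at hz2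
      nlinarith
    have h5 : Real.exp ((k : ℝ) / (10 * L) + 1) ≤ primorial z :=
      (Real.exp_le_exp.mpr h3).trans h2
    rw [Real.exp_add] at h5
    have h6 : (2 : ℝ) ≤ Real.exp 1 := by
      have := Real.add_one_le_exp (1 : ℝ)
      linarith
    have h7 : (1 : ℝ) ≤ Real.exp ((k : ℝ) / (10 * L)) := Real.one_le_exp (by positivity)
    nlinarith

lemma size_bound : ∀ᶠ k : ℕ in atTop,
    ((k : ℝ) ^ (3 * Nat.clog 2 k + 2 + 4)) ≤ Real.exp (5 * (Real.log k) ^ 2) := by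
  have hlog : Tendsto (fun k : ℕ => Real.log (k : ℝ)) atTop atTop :=
    Real.tendsto_log_atTop.comp tendsto_natCast_atTop_atTop
  filter_upwards [hlog.eventually (eventually_ge_atTop 20), eventually_ge_atTop 10] with k hk1 hk2
  have hkr : (10 : ℝ) ≤ k := by exact_mod_cast hk2
  have hk0 : (0 : ℝ) < k := by linarith
  set L := Real.log (k : ℝ) with hL
  have h1 : (Nat.clog 2 k : ℝ) ≤ L / Real.log 2 + 1 := by
    have h2 : 2 ^ (Nat.clog 2 k - 1) < k := Nat.pow_pred_clog_lt_self (by norm_num) (by omega)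
    have h3 : ((2 : ℝ) ^ (Nat.clog 2 k - 1)) < k := by exact_mod_cast h2
    have h4 := Real.log_lt_log (by positivity) h3
    rw [Real.log_pow] at h4
    have h5 : 1 ≤ Nat.clog 2 k := Nat.clog_pos (by norm_num) (by omega)
    rw [Nat.cast_sub h5] at h4
    have hl2 : 0 < Real.log 2 := Real.log_pos (by norm_num)
    rw [← sub_le_iff_le_add, le_div_iff₀ hl2]
    push_cast at h4
    exact h4.le
  have h6 : L / Real.log 2 ≤ 1.45 * L := by
    have hl2 : 0 < Real.log 2 := Real.log_pos (by norm_num)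
    rw [div_le_iff₀ hl2]
    have := Real.log_two_gt_d9
    nlinarith
  rw [← Real.exp_log hk0, ← Real.exp_nat_mul, ← hL, Real.exp_le_exp]
  push_cast
  nlinarith

theorem first : ∃ k₀ : ℕ, ∀ k ≥ k₀, ∃ H : Finset ℕ, H.card = k ∧ 0 ∈ H ∧
    (∀ p : ℕ, p.Prime → ∃ c : ℕ, ∀ h ∈ H, ¬ p ∣ c + h) ∧
    (∀ h ∈ H, (h : ℝ) ≤ Real.exp (5 * (Real.log k) ^ 2)) ∧
    ∀ N : ℕ, (∀ h ∈ H, (N + h).Prime) → Real.exp (k / (10 * Real.log k)) ≤ N := by
  have h := (numeric.and size_bound).and (eventually_ge_atTop 4)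
  obtain ⟨k₀, hk₀⟩ := eventually_atTop.mp h
  refine ⟨k₀, ?_⟩
  intro k hk
  obtain ⟨⟨⟨z, hz1, hz2, hz3, hz4⟩, hs⟩, hk4⟩ := hk₀ k hk
  have hr : 8 * k ^ 3 ≤ 2 ^ (3 * Nat.clog 2 k + 2 + 1) := by
    have h1 : k ≤ 2 ^ Nat.clog 2 k := Nat.le_pow_clog (by norm_num) k
    have h2 : k ^ 3 ≤ (2 ^ Nat.clog 2 k) ^ 3 := Nat.pow_le_pow_left h1 3
    have h3 : 2 ^ (3 * Nat.clog 2 k + 2 + 1) = 8 * (2 ^ Nat.clog 2 k) ^ 3 := by
      rw [← pow_mul]
      ring
    rw [h3]
    exact Nat.mul_le_mul_left 8 h2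
  obtain ⟨H, hc, h0, hadm, hH, hN⟩ := exists_H (t := k - 1) hk4 hz2 hr (by omega) hz1 hz3
  refine ⟨H, hc, h0, hadm, ?_, ?_⟩
  · intro x hx
    refine le_trans ?_ hs
    exact_mod_cast hH x hx
  · intro N hN'
    have h1 := Nat.le_of_dvd (Nat.succ_pos N) (hN N hN')
    have h2 : (primorial z : ℝ) ≤ N + 1 := by exact_mod_cast h1
    linarith

end Pool.Agent.H10.First
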