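import Mathlib
set_option autoImplicit false

namespace Pool.Agent.H10.KTC

open scoped Pointwise

/-- admissibility for finite sets of integers -/
def AdmZ (H : Finset ℤ) : Prop := ∀ p : ℕ, p.Prime → ∃ c : ℤ, ∀ h ∈ H, ¬ (p : ℤ) ∣ c + h

/-- the prime k-tuples conjecture, verbatim as in the frozen statement S17679 -/
def PrimeTuples : Prop :=
  ∀ (k : ℕ) (a : Fin k → ℕ),
      (∀ p : ℕ, p.Prime → ∃ r : ℕ, ¬ p ∣ r ∧ ∀ i : Fin k, ¬ p ∣ r + a i) →
      Set.Infinite {N : ℕ | N.Prime ∧ ∀ i : Fin k, (N + a i).Prime}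

lemma adm_of_card {H : Finset ℤ} {p : ℕ} (hp : p.Prime) (hc : H.card < p) :
    ∃ c : ℤ, ∀ h ∈ H, ¬ (p : ℤ) ∣ c + h := by
  have : Fact p.Prime := ⟨hp⟩
  classical
  have h1 : (H.image (fun h : ℤ => (h : ZMod p))).card < Fintype.card (ZMod p) := by
    rw [ZMod.card]
    exact lt_of_le_of_lt Finset.card_image_le hc
  obtain ⟨x, hx⟩ : ∃ x : ZMod p, x ∉ H.image (fun h : ℤ => (h : ZMod p)) := by
    by_contra hcon
    push Not at hcon
    have : H.image (fun h : ℤ => (h : ZMod p)) = Finset.univ := Finset.eq_univ_iff_forall.mpr hcon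
    rw [this, Finset.card_univ] at h1
    exact lt_irrefl _ h1
  refine ⟨(-x).val, fun h hh hdiv => hx ?_⟩
  rw [Finset.mem_image]
  refine ⟨h, hh, ?_⟩
  have h2 : ((((-x).val : ℤ) + h : ℤ) : ZMod p) = 0 := (ZMod.intCast_zmod_eq_zero_iff_dvd _ _).mpr hdiv
  push_cast at h2
  rw [ZMod.natCast_val, ZMod.cast_id', id] at h2
  linear_combination h2

lemma AdmZ.mono {H K : Finset ℤ} (hK : AdmZ K) (h : H ⊆ K) : AdmZ H := by
  intro p hp
  obtain ⟨c, hc⟩ := hK p hp
  exact ⟨c, fun x hx => hc x (h hx)⟩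

/-- if all translation amounts are divisible by all small primes, `H + T` is admissible -/
lemma adm_add {H T : Finset ℤ} (hH : AdmZ H)
    (hT : ∀ p : ℕ, p.Prime → p ≤ H.card * T.card → ∀ t ∈ T, (p : ℤ) ∣ t) : AdmZ (H + T) := by
  intro p hp
  by_cases hle : p ≤ H.card * T.card
  · obtain ⟨c, hc⟩ := hH p hp
    refine ⟨c, fun x hx => ?_⟩
    obtain ⟨h, hh, t, ht, rfl⟩ := Finset.mem_add.mp hx
    intro hdiv
    apply hc h hh
    have := dvd_sub hdiv (hT p hp hle t ht)
    have h2 : c + (h + t) - t = c + h := by ring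
    rwa [h2] at this
  · exact adm_of_card hp (lt_of_le_of_lt Finset.card_add_le (not_le.mp hle))

/-- tuples conjecture for finite sets of integers -/
lemma tuples_int (hK : PrimeTuples) (H : Finset ℤ) (hne : H.Nonempty) (hadm : AdmZ H) (B : ℤ) :
    ∃ N : ℤ, B < N ∧ ∀ h ∈ H, ∃ q : ℕ, q.Prime ∧ N + h = q := by
  classical
  set m : ℤ := H.min' hne with hm
  have hmH : m ∈ H := H.min'_mem hne
  have hle : ∀ h ∈ H, m ≤ h := fun h hh => H.min'_le h hh
  -- enumerate
  set k := H.card with hk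
  set e := H.equivFin with he
  set a : Fin k → ℕ := fun i => ((e.symm i : ℤ) - m).toNat with ha
  have haeq : ∀ i : Fin k, ((a i : ℕ) : ℤ) = (e.symm i : ℤ) - m := by
    intro i
    simp only [ha]
    exact Int.toNat_of_nonneg (by linarith [hle _ (e.symm i).2])
  have hcond : ∀ p : ℕ, p.Prime → ∃ r : ℕ, ¬ p ∣ r ∧ ∀ i : Fin k, ¬ p ∣ r + a i := by
    intro p hp
    obtain ⟨c, hc⟩ := hadm p hp
    have hp0 : (p : ℤ) ≠ 0 := by exact_mod_cast hp.ne_zero
    set r : ℕ := ((c + m) % (p : ℤ)).toNat with hr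
    have hreq : ((r : ℕ) : ℤ) = (c + m) % (p : ℤ) :=
      Int.toNat_of_nonneg (Int.emod_nonneg _ hp0)
    have hkey : ∀ x : ℤ, (p : ℤ) ∣ (r : ℤ) + (x - m) → (p : ℤ) ∣ c + x := by
      intro x hx
      rw [hreq] at hx
      have h1 : (p : ℤ) ∣ (c + m) - (c + m) % (p : ℤ) := Int.dvd_self_sub_emod
      have h2 := dvd_add h1 hx
      have h3 : (c + m) - (c + m) % (p : ℤ) + ((c + m) % (p : ℤ) + (x - m)) = c + x := by ring
      rwa [h3] at h2
    refine ⟨r, ?_, fun i => ?_⟩
    · intro hdiv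
      apply hc m hmH
      apply hkey m
      rw [sub_self, add_zero]
      exact_mod_cast hdiv
    · intro hdiv
      apply hc _ (e.symm i).2
      apply hkey
      rw [← haeq]
      exact_mod_cast hdiv
  have hinf := hK k a hcond
  obtain ⟨n, hn, hnB⟩ := hinf.exists_gt (B + |m|).toNat
  refine ⟨(n : ℤ) - m, ?_, fun h hh => ?_⟩
  · have h1 : B + |m| ≤ ((B + |m|).toNat : ℤ) := Int.self_le_toNat _
    have h2 : ((B + |m|).toNat : ℤ) < n := by exact_mod_cast hnB
    have h3 := le_abs_self m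
    linarith
  · have h1 := hn.2 (e ⟨h, hh⟩)
    refine ⟨n + a (e ⟨h, hh⟩), h1, ?_⟩
    push_cast
    rw [haeq]
    simp
    ring

/-- forcing residues modulo the primes dividing `M` -/
lemma forcing (H : Finset ℤ) (hne : H.Nonempty) (hadm : AdmZ H) (M : ℕ) (hM : 1 ≤ M) (a : ℤ)
    (hcop : ∀ h ∈ H, IsCoprime (a + h) (M : ℤ)) :
    ∃ H1 : Finset ℤ, H ⊆ H1 ∧ AdmZ H1 ∧
      ∀ N : ℤ, (∀ x ∈ H1, ∃ q : ℕ, q.Prime ∧ (M : ℤ) < q ∧ N + x = q) →
        ∀ p : ℕ, p.Prime → p ∣ M → (p : ℤ) ∣ N - a := by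
  classical
  obtain ⟨h0, hh0⟩ := hne
  set Z : ℕ := H.card + M * M with hZ
  -- product of small primes other than p
  set Q : ℕ → ℕ := fun p => ∏ q ∈ ((Finset.range (Z + 1)).filter (fun q => q.Prime ∧ q ≠ p)), q with hQ
  have hQcop : ∀ p : ℕ, p.Prime → IsCoprime (p : ℤ) (Q p : ℤ) := by
    intro p hp
    rw [Nat.isCoprime_iff_coprime]
    simp only [hQ]
    apply Nat.Coprime.prod_right
    intro q hq
    simp only [Finset.mem_filter] at hq
    exact (Nat.coprime_primes hp hq.2.1).mpr (fun h => hq.2.2 h.symm)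
  -- the forcing elements
  have hex : ∀ p : ℕ, ∀ c : ℤ, ∃ e : ℤ, p.Prime → ((p : ℤ) ∣ e - c ∧ (Q p : ℤ) ∣ e - h0) := by
    intro p c
    by_cases hp : p.Prime
    · obtain ⟨u, v, huv⟩ := hQcop p hp
      refine ⟨h0 + (c - h0) * (v * Q p), fun _ => ⟨?_, ?_⟩⟩
      · refine ⟨-(c - h0) * u, ?_⟩
        have : v * (Q p : ℤ) = 1 - u * p := by linarith
        rw [this]; ring
      · exact ⟨(c - h0) * v, by ring⟩
    · exact ⟨0, fun h => absurd h hp⟩
  choose e he using hex
  set E : Finset ℤ := M.primeFactors.biUnion (fun p =>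
    ((Finset.range p).filter (fun c : ℕ => ¬ (p : ℤ) ∣ (c : ℤ) + a)).image (fun c : ℕ => e p c)) with hE
  have hEcard : E.card ≤ M * M := by
    calc E.card ≤ ∑ p ∈ M.primeFactors, (((Finset.range p).filter (fun c : ℕ => ¬ (p : ℤ) ∣ (c : ℤ) + a)).image (fun c : ℕ => e p c)).card :=
          Finset.card_biUnion_le
      _ ≤ ∑ p ∈ M.primeFactors, M := by
          apply Finset.sum_le_sum
          intro p hp
          calc _ ≤ ((Finset.range p).filter (fun c : ℕ => ¬ (p : ℤ) ∣ (c : ℤ) + a)).card := Finset.card_image_le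
            _ ≤ (Finset.range p).card := Finset.card_filter_le _ _
            _ = p := Finset.card_range p
            _ ≤ M := Nat.le_of_mem_primeFactors hp
      _ = M.primeFactors.card * M := by simp
      _ ≤ M * M := by
          apply Nat.mul_le_mul_right
          calc M.primeFactors.card ≤ (Finset.Icc 1 M).card := by
                apply Finset.card_le_card
                intro p hp
                rw [Finset.mem_Icc]
                exact ⟨(Nat.prime_of_mem_primeFactors hp).one_lt.le, Nat.le_of_mem_primeFactors hp⟩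
            _ = M := by simp
  have hEmem : ∀ x ∈ E, ∃ p : ℕ, p.Prime ∧ p ∣ M ∧ ∃ c : ℤ, ¬ (p : ℤ) ∣ c + a ∧ (p : ℤ) ∣ x - c ∧ (Q p : ℤ) ∣ x - h0 := by
    intro x hx
    simp only [hE, Finset.mem_biUnion, Finset.mem_image, Finset.mem_filter, Finset.mem_range] at hx
    obtain ⟨p, hp, c, ⟨_, hc⟩, rfl⟩ := hx
    have hpp := Nat.prime_of_mem_primeFactors hp
    exact ⟨p, hpp, Nat.dvd_of_mem_primeFactors hp, c, hc, (he p c hpp).1, (he p c hpp).2⟩
  refine ⟨H ∪ E, Finset.subset_union_left, ?_, ?_⟩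
  · -- admissibility
    intro q hq
    by_cases hqZ : Z < q
    · apply adm_of_card hq
      calc (H ∪ E).card ≤ H.card + E.card := Finset.card_union_le _ _
        _ ≤ H.card + M * M := by omega
        _ < q := hqZ
    · have hqZ' : q ≤ Z := not_lt.mp hqZ
      have hqQ : ∀ p : ℕ, p ≠ q → (q : ℤ) ∣ (Q p : ℤ) := by
        intro p hpq
        have : q ∣ Q p := by
          simp only [hQ]
          apply Finset.dvd_prod_of_mem (fun q => q)
          simp only [Finset.mem_filter, Finset.mem_range]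
          exact ⟨by omega, hq, fun h => hpq h.symm⟩
        exact_mod_cast this
      by_cases hqM : q ∣ M
      · refine ⟨a, fun x hx => ?_⟩
        have hH : ∀ h ∈ H, ¬ (q : ℤ) ∣ a + h := by
          intro h hh hdiv
          have hcp := hcop h hh
          have hqM' : (q : ℤ) ∣ (M : ℤ) := by exact_mod_cast hqM
          have hu := hcp.isUnit_of_dvd' hdiv hqM'
          rw [Int.isUnit_iff] at hu
          have := hq.one_lt
          omega
        rcases Finset.mem_union.mp hx with hx | hx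
        · exact hH x hx
        · obtain ⟨p, hp, hpM, c, hc, hxc, hxQ⟩ := hEmem x hx
          by_cases hpq : p = q
          · subst hpq
            intro hdiv
            apply hc
            have h1 := dvd_sub hdiv hxc
            have h2 : a + x - (x - c) = c + a := by ring
            rwa [h2] at h1
          · intro hdiv
            apply hH h0 hh0
            have h1 := dvd_sub hdiv ((hqQ p hpq).trans hxQ)
            have h2 : a + x - (x - h0) = a + h0 := by ring
            rwa [h2] at h1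
      · obtain ⟨c0, hc0⟩ := hadm q hq
        refine ⟨c0, fun x hx => ?_⟩
        rcases Finset.mem_union.mp hx with hx | hx
        · exact hc0 x hx
        · obtain ⟨p, hp, hpM, c, hc, hxc, hxQ⟩ := hEmem x hx
          have hpq : p ≠ q := fun h => hqM (h ▸ hpM)
          intro hdiv
          apply hc0 h0 hh0
          have h1 := dvd_sub hdiv ((hqQ p hpq).trans hxQ)
          have h2 : c0 + x - (x - h0) = c0 + h0 := by ring
          rwa [h2] at h1
  · intro N hN p hp hpM
    by_contra hcon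
    have hp0 : (p : ℤ) ≠ 0 := by exact_mod_cast hp.ne_zero
    set c : ℕ := ((-N) % (p : ℤ)).toNat with hc
    have hceq : ((c : ℕ) : ℤ) = (-N) % (p : ℤ) := Int.toNat_of_nonneg (Int.emod_nonneg _ hp0)
    have hclt : c < p := by
      have := Int.emod_lt_of_pos (-N) (by exact_mod_cast hp.pos : (0 : ℤ) < p)
      rw [← hceq] at this
      exact_mod_cast this
    have hcN : (p : ℤ) ∣ (c : ℤ) + N := by
      rw [hceq]
      have : (p : ℤ) ∣ (-N) - (-N) % (p : ℤ) := Int.dvd_self_sub_emod
      have h2 := (dvd_neg).mpr this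
      have h3 : -(-N - -N % (p : ℤ)) = -N % (p : ℤ) + N := by ring
      rwa [h3] at h2
    have hca : ¬ (p : ℤ) ∣ (c : ℤ) + a := by
      intro h
      apply hcon
      have := dvd_sub hcN h
      have h2 : (c : ℤ) + N - (c + a) = N - a := by ring
      rwa [h2] at this
    have hmem : e p c ∈ E := by
      simp only [hE, Finset.mem_biUnion, Finset.mem_image, Finset.mem_filter, Finset.mem_range]
      refine ⟨p, ?_, c, ⟨hclt, hca⟩, rfl⟩
      rw [Nat.mem_primeFactors]
      exact ⟨hp, hpM, by omega⟩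
    obtain ⟨q, hq, hMq, hqe⟩ := hN _ (Finset.mem_union_right _ hmem)
    have h1 := (he p c hp).1
    have h2 : (p : ℤ) ∣ (q : ℤ) := by
      rw [← hqe]
      have h3 := dvd_add h1 hcN
      have h4 : e p c - c + (c + N) = N + e p c := by ring
      rwa [h4] at h3
    have h3 : p ∣ q := by exact_mod_cast h2
    rw [Nat.prime_dvd_prime_iff_eq hp hq] at h3
    have h4 : p ≤ M := Nat.le_of_dvd (by omega) hpM
    have h5 : M < q := by exact_mod_cast hMq
    omega

end Pool.Agent.H10.KTC
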