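import Mathlib
import Pool.Agent.H10.KTC
set_option autoImplicit false

namespace Pool.Agent.H10.KTC

open scoped Pointwise

/-- an integer divisible by all primes dividing `M` is divisible by `gcd Q M` for squarefree `Q` -/
lemma gcd_dvd_of_primes {Q M : ℕ} (hQ : Squarefree Q) (z : ℤ)
    (hz : ∀ p : ℕ, p.Prime → p ∣ M → (p : ℤ) ∣ z) : ((Nat.gcd Q M : ℕ) : ℤ) ∣ z := by
  have hD : Squarefree (Nat.gcd Q M) := hQ.squarefree_of_dvd (Nat.gcd_dvd_left Q M)
  have h1 : ∏ p ∈ (Nat.gcd Q M).primeFactors, p = Nat.gcd Q M := Nat.prod_primeFactors_of_squarefree hD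
  have h2 : (∏ p ∈ (Nat.gcd Q M).primeFactors, p) ∣ z.natAbs := by
    apply Finset.prod_primes_dvd
    · intro p hp
      exact (Nat.prime_of_mem_primeFactors hp).prime
    · intro p hp
      have hpD := Nat.dvd_of_mem_primeFactors hp
      have := hz p (Nat.prime_of_mem_primeFactors hp) (hpD.trans (Nat.gcd_dvd_right Q M))
      exact Int.natCast_dvd.mp this
  rw [h1] at h2
  exact Int.natCast_dvd.mpr h2

/-- covering a compact group by boundedly many translates with exponents divisible by `Q` -/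
lemma cover {G : Type*} [Group G] [TopologicalSpace G] [IsTopologicalGroup G] [CompactSpace G]
    (g : G) (hg : ∀ m : ℕ, 0 < m → Dense (Set.range fun n : ℤ => g ^ ((m : ℤ) * n)))
    (U : Set G) (hU : IsOpen U) (hUne : U.Nonempty) (M : ℕ) (hM : 1 ≤ M) (a : ℤ) :
    ∃ J : ℕ, ∀ Q : ℕ, 0 < Q → Squarefree Q → ∃ T : Finset ℤ, T.card ≤ J ∧
      (∀ t ∈ T, (Q : ℤ) ∣ t) ∧
      ∀ N : ℤ, (∀ p : ℕ, p.Prime → p ∣ M → (p : ℤ) ∣ N - a) →
        ∃ t ∈ T, (M : ℤ) ∣ N + t - a ∧ g ^ (N + t) ∈ U := by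
  classical
  obtain ⟨u, hu⟩ := hUne
  -- local product neighbourhoods
  have hloc : ∀ x : G, ∃ A B : Set G, IsOpen A ∧ IsOpen B ∧ u * x⁻¹ ∈ A ∧ x ∈ B ∧
      ∀ y ∈ A, ∀ z ∈ B, y * z ∈ U := by
    intro x
    have hcont : Continuous (fun q : G × G => q.1 * q.2) := continuous_mul
    have hopen : IsOpen ((fun q : G × G => q.1 * q.2) ⁻¹' U) := hU.preimage hcont
    have hmem : (u * x⁻¹, x) ∈ ((fun q : G × G => q.1 * q.2) ⁻¹' U) := by
      simp [hu]
    obtain ⟨A, B, hA, hB, hxA, hxB, hAB⟩ := isOpen_prod_iff.mp hopen _ _ hmem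
    exact ⟨A, B, hA, hB, hxA, hxB, fun y hy z hz => hAB (Set.mk_mem_prod hy hz)⟩
  choose A B hA hB hxA hxB hAB using hloc
  obtain ⟨S, hS⟩ := isCompact_univ.elim_finite_subcover B hB
    (fun x _ => Set.mem_iUnion.mpr ⟨x, hxB x⟩)
  refine ⟨M * S.card, fun Q hQ hQs => ?_⟩
  -- elements
  have hex : ∀ r : ℕ, ∀ x : G, ∃ t : ℤ, (Q : ℤ) ∣ t ∧ (((Nat.gcd Q M : ℕ) : ℤ) ∣ (r : ℤ) →
      ((M : ℤ) ∣ t - r ∧ g ^ t ∈ A x)) := by
    intro r x
    by_cases hr : ((Nat.gcd Q M : ℕ) : ℤ) ∣ (r : ℤ)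
    · obtain ⟨r', hr'⟩ := hr
      have hbez : ((Nat.gcd Q M : ℕ) : ℤ) = Q * Nat.gcdA Q M + M * Nat.gcdB Q M := Nat.gcd_eq_gcd_ab Q M
      set t0 : ℤ := Q * (Nat.gcdA Q M * r') with ht0
      have ht0r : (M : ℤ) ∣ t0 - r := by
        refine ⟨-(Nat.gcdB Q M * r'), ?_⟩
        rw [hr', hbez, ht0]
        ring
      have hdense := hg (Q * M) (by positivity)
      have hopen : IsOpen ((fun y : G => g ^ t0 * y) ⁻¹' (A x)) :=
        (hA x).preimage (continuous_const.mul continuous_id)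
      have hne : ((fun y : G => g ^ t0 * y) ⁻¹' (A x)).Nonempty :=
        ⟨(g ^ t0)⁻¹ * (u * x⁻¹), by simpa using hxA x⟩
      obtain ⟨y, hyr, hy⟩ := hdense.exists_mem_open hopen hne
      obtain ⟨n, rfl⟩ := hyr
      refine ⟨t0 + (Q * M : ℕ) * n, ?_, fun _ => ⟨?_, ?_⟩⟩
      · refine dvd_add ⟨_, rfl⟩ ?_
        push_cast
        exact ⟨M * n, by ring⟩
      · have h1 : (M : ℤ) ∣ ((Q * M : ℕ) : ℤ) * n := by
          push_cast
          exact ⟨Q * n, by ring⟩
        have h2 := dvd_add ht0r h1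
        have h3 : t0 - (r : ℤ) + ((Q * M : ℕ) : ℤ) * n = t0 + ((Q * M : ℕ) : ℤ) * n - r := by ring
        rwa [h3] at h2
      · rw [zpow_add]
        exact hy
    · exact ⟨0, dvd_zero _, fun h => absurd h hr⟩
  choose t ht using hex
  refine ⟨(Finset.range M ×ˢ S).image (fun rx => t rx.1 rx.2), ?_, ?_, ?_⟩
  · calc _ ≤ (Finset.range M ×ˢ S).card := Finset.card_image_le
      _ = M * S.card := by simp
  · intro s hs
    obtain ⟨rx, _, rfl⟩ := Finset.mem_image.mp hs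
    exact (ht _ _).1
  · intro N hN
    have hM0 : (M : ℤ) ≠ 0 := by positivity
    set r : ℕ := ((a - N) % (M : ℤ)).toNat with hr
    have hreq : ((r : ℕ) : ℤ) = (a - N) % (M : ℤ) := Int.toNat_of_nonneg (Int.emod_nonneg _ hM0)
    have hrlt : r < M := by
      have := Int.emod_lt_of_pos (a - N) (by positivity : (0 : ℤ) < M)
      rw [← hreq] at this
      exact_mod_cast this
    have hMr : (M : ℤ) ∣ (a - N) - r := by
      rw [hreq]
      exact Int.dvd_self_sub_emod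
    have hgr : ((Nat.gcd Q M : ℕ) : ℤ) ∣ (r : ℤ) := by
      have h1 : ((Nat.gcd Q M : ℕ) : ℤ) ∣ N - a := gcd_dvd_of_primes hQs _ hN
      have h2 : ((Nat.gcd Q M : ℕ) : ℤ) ∣ (M : ℤ) := by exact_mod_cast Nat.gcd_dvd_right Q M
      have h3 := dvd_add (h2.trans hMr) h1
      have h4 : a - N - (r : ℤ) + (N - a) = -r := by ring
      rw [h4] at h3
      exact (dvd_neg.mp h3)
    have hcov : g ^ N ∈ ⋃ i ∈ S, B i := hS (Set.mem_univ _)
    simp only [Set.mem_iUnion] at hcov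
    obtain ⟨x, hxS, hxB'⟩ := hcov
    obtain ⟨_, h2⟩ := ht r x
    obtain ⟨h3, h4⟩ := h2 hgr
    refine ⟨t r x, Finset.mem_image.mpr ⟨(r, x), Finset.mem_product.mpr ⟨Finset.mem_range.mpr hrlt, hxS⟩, rfl⟩, ?_, ?_⟩
    · have h5 := dvd_sub h3 hMr
      have h6 : t r x - (r : ℤ) - (a - N - r) = N + t r x - a := by ring
      rwa [h6] at h5
    · have : g ^ (N + t r x) = g ^ (t r x) * g ^ N := by rw [← zpow_add, add_comm]
      rw [this]
      exact hAB x _ h4 _ hxB'

lemma prime_dvd_primorial {p n : ℕ} (hp : p.Prime) (hle : p ≤ n) : p ∣ primorial n := by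
  unfold primorial
  apply Finset.dvd_prod_of_mem (fun q => q)
  simp only [Finset.mem_filter, Finset.mem_range]
  exact ⟨by omega, hp⟩

/-- residue classes and Bohr sets -/
lemma main_int (hK : PrimeTuples) {G : Type*} [Group G] [TopologicalSpace G] [IsTopologicalGroup G]
    [CompactSpace G]
    (g : G) (hg : ∀ m : ℕ, 0 < m → Dense (Set.range fun n : ℤ => g ^ ((m : ℤ) * n)))
    (U : Set G) (hU : IsOpen U) (hUne : U.Nonempty)
    (H : Finset ℤ) (hne : H.Nonempty) (hadm : AdmZ H) (M : ℕ) (hM : 1 ≤ M) (a : ℤ)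
    (hcop : ∀ h ∈ H, IsCoprime (a + h) (M : ℤ)) (B : ℤ) :
    ∃ N : ℤ, B < N ∧ (M : ℤ) ∣ N - a ∧ (∀ h ∈ H, ∃ q : ℕ, q.Prime ∧ N + h = q) ∧ g ^ N ∈ U := by
  classical
  obtain ⟨H1, hHH1, hadm1, hforce⟩ := forcing H hne hadm M hM a hcop
  obtain ⟨J, hJ⟩ := cover g hg U hU hUne M hM a
  set Z := max (H1.card * J) M with hZ
  obtain ⟨T, hTJ, hTQ, hT⟩ := hJ (primorial Z) (primorial_pos Z) (squarefree_primorial Z)
  have hTne : T.Nonempty := by
    obtain ⟨t, ht, _⟩ := hT a (fun p _ _ => by simp)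
    exact ⟨t, ht⟩
  have hTp : ∀ p : ℕ, p.Prime → p ≤ Z → ∀ t ∈ T, (p : ℤ) ∣ t := by
    intro p hp hle t ht
    have h1 : (p : ℤ) ∣ ((primorial Z : ℕ) : ℤ) := by exact_mod_cast prime_dvd_primorial hp hle
    exact h1.trans (hTQ t ht)
  have hadm2 : AdmZ (H1 + T) := by
    apply adm_add hadm1
    intro p hp hle t ht
    apply hTp p hp _ t ht
    calc p ≤ H1.card * T.card := hle
      _ ≤ H1.card * J := Nat.mul_le_mul_left _ hTJ
      _ ≤ Z := le_max_left _ _
  have hH1ne : H1.Nonempty := hne.mono hHH1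
  set B0 : ℤ := |B| + M + ∑ t ∈ T, |t| + ∑ x ∈ H1 + T, |x| with hB0
  obtain ⟨N, hNB, hN⟩ := tuples_int hK (H1 + T) (hH1ne.add hTne) hadm2 B0
  have hsum1 : ∀ t ∈ T, |t| ≤ ∑ t ∈ T, |t| := fun t ht =>
    Finset.single_le_sum (f := fun t : ℤ => |t|) (fun i _ => abs_nonneg i) ht
  have hsum2 : ∀ x ∈ H1 + T, |x| ≤ ∑ x ∈ H1 + T, |x| := fun x hx =>
    Finset.single_le_sum (f := fun t : ℤ => |t|) (fun i _ => abs_nonneg i) hx
  have hs1 : 0 ≤ ∑ t ∈ T, |t| := Finset.sum_nonneg fun i _ => abs_nonneg i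
  have hs2 : 0 ≤ ∑ x ∈ H1 + T, |x| := Finset.sum_nonneg fun i _ => abs_nonneg i
  have hM0 : (0 : ℤ) ≤ M := by positivity
  -- each translate forces the residue
  have hforce' : ∀ t ∈ T, ∀ p : ℕ, p.Prime → p ∣ M → (p : ℤ) ∣ N - a := by
    intro t ht p hp hpM
    have h1 := hforce (N + t) (fun x hx => by
      have hmem : x + t ∈ H1 + T := Finset.add_mem_add hx ht
      obtain ⟨q, hq, hqe⟩ := hN _ hmem
      refine ⟨q, hq, ?_, ?_⟩
      · have h3 := hsum2 _ hmem
        have h4 := neg_abs_le (x + t)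
        have h5 := abs_nonneg B
        rw [← hqe]
        linarith
      · rw [← hqe]; ring) p hp hpM
    have h2 : (p : ℤ) ∣ t := hTp p hp ((Nat.le_of_dvd (by omega) hpM).trans (le_max_right _ _)) t ht
    have h3 := dvd_sub h1 h2
    have h4 : N + t - a - t = N - a := by ring
    rwa [h4] at h3
  obtain ⟨t1, ht1⟩ := hTne
  obtain ⟨t, ht, hMt, hgt⟩ := hT N (hforce' t1 ht1)
  refine ⟨N + t, ?_, hMt, ?_, hgt⟩
  · have h3 := hsum1 t ht
    have h4 := neg_abs_le t
    have h5 := le_abs_self B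
    linarith
  · intro h hh
    have hmem : h + t ∈ H1 + T := Finset.add_mem_add (hHH1 hh) ht
    obtain ⟨q, hq, hqe⟩ := hN _ hmem
    exact ⟨q, hq, by rw [← hqe]; ring⟩

/-- with a window of prescribed composite values -/
lemma main_window (hK : PrimeTuples) {G : Type*} [Group G] [TopologicalSpace G] [IsTopologicalGroup G]
    [CompactSpace G]
    (g : G) (hg : ∀ m : ℕ, 0 < m → Dense (Set.range fun n : ℤ => g ^ ((m : ℤ) * n)))
    (U : Set G) (hU : IsOpen U) (hUne : U.Nonempty)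
    (H : Finset ℤ) (hne : H.Nonempty) (hadm : AdmZ H) (W : Finset ℤ) :
    ∀ (_ : Disjoint H W) (M : ℕ) (_ : 1 ≤ M) (a : ℤ)
    (_ : ∀ h ∈ H, IsCoprime (a + h) (M : ℤ)) (B : ℤ),
    ∃ N : ℤ, B < N ∧ (M : ℤ) ∣ N - a ∧ (∀ h ∈ H, ∃ q : ℕ, q.Prime ∧ N + h = q) ∧ g ^ N ∈ U ∧
      ∀ w ∈ W, ∃ d : ℤ, 1 < d ∧ d < N + w ∧ d ∣ N + w := by
  classical
  induction W using Finset.induction_on with
  | empty =>
    intro _ M hM a hcop B
    obtain ⟨N, h1, h2, h3, h4⟩ := main_int hK g hg U hU hUne H hne hadm M hM a hcop B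
    exact ⟨N, h1, h2, h3, h4, by simp⟩
  | insert w W hw ih =>
    intro hdis M hM a hcop B
    have hwH : w ∉ H := by
      rw [Finset.disjoint_insert_right] at hdis
      exact hdis.1
    have hdis' : Disjoint H W := by
      rw [Finset.disjoint_insert_right] at hdis
      exact hdis.2
    -- choose a large prime
    obtain ⟨q, hqge, hq⟩ := Nat.exists_infinite_primes (M + (∑ h ∈ H, |h - w|).toNat + 1)
    have hqM : M < q := by omega
    have hqH : ∀ h ∈ H, |h - w| < q := by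
      intro h hh
      have h1 : |h - w| ≤ ∑ h ∈ H, |h - w| :=
        Finset.single_le_sum (f := fun h : ℤ => |h - w|) (fun i _ => abs_nonneg _) hh
      have h2 : ∑ h ∈ H, |h - w| ≤ ((∑ h ∈ H, |h - w|).toNat : ℤ) := Int.self_le_toNat _
      have h3 : ((∑ h ∈ H, |h - w|).toNat : ℤ) < q := by
        have : (∑ h ∈ H, |h - w|).toNat < q := by omega
        exact_mod_cast this
      linarith
    have hcopMq : IsCoprime (M : ℤ) (q : ℤ) := by
      rw [Nat.isCoprime_iff_coprime]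
      exact (Nat.coprime_of_lt_prime (by omega) hqM hq).symm
    obtain ⟨s, r, hsr⟩ := hcopMq
    -- new residue
    set a' : ℤ := a * (r * q) + (-w) * (s * M) with ha'
    have ha'M : (M : ℤ) ∣ a' - a := by
      refine ⟨(-a - w) * s, ?_⟩
      have : r * (q : ℤ) = 1 - s * M := by linarith
      rw [ha', this]; ring
    have ha'q : (q : ℤ) ∣ a' + w := by
      refine ⟨(a + w) * r, ?_⟩
      have : s * (M : ℤ) = 1 - r * q := by linarith
      rw [ha', this]; ring
    have hcop' : ∀ h ∈ H, IsCoprime (a' + h) ((M * q : ℕ) : ℤ) := by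
      intro h hh
      push_cast
      apply IsCoprime.mul_right
      · obtain ⟨z, hz⟩ := ha'M
        have h1 : a' + h = (a + h) + z * M := by linarith
        rw [h1]
        exact (hcop h hh).add_mul_right_left z
      · rw [isCoprime_comm, Prime.coprime_iff_not_dvd (Nat.prime_iff_prime_int.mp hq)]
        intro hdiv
        have h1 := dvd_sub hdiv ha'q
        have h2 : a' + h - (a' + w) = h - w := by ring
        rw [h2] at h1
        have h3 : h - w ≠ 0 := fun h0 => hwH (by rw [sub_eq_zero] at h0; rwa [← h0])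
        have h4 := Int.le_of_dvd (abs_pos.mpr h3) ((dvd_abs _ _).mpr h1)
        linarith [hqH h hh]
    obtain ⟨N, hN1, hN2, hN3, hN4, hN5⟩ := ih hdis' (M * q) (by
      have := hq.pos
      exact Nat.one_le_iff_ne_zero.mpr (by positivity)) a' hcop' (|B| + q + |w|)
    have hMN : (M : ℤ) ∣ N - a := by
      have h1 : (M : ℤ) ∣ ((M * q : ℕ) : ℤ) := by push_cast; exact dvd_mul_right _ _
      have h2 := dvd_add (h1.trans hN2) ha'M
      have h3 : N - a' + (a' - a) = N - a := by ring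
      rwa [h3] at h2
    have hqN : (q : ℤ) ∣ N + w := by
      have h1 : (q : ℤ) ∣ ((M * q : ℕ) : ℤ) := by push_cast; exact dvd_mul_left _ _
      have h2 := dvd_add (h1.trans hN2) ha'q
      have h3 : N - a' + (a' + w) = N + w := by ring
      rwa [h3] at h2
    refine ⟨N, ?_, hMN, hN3, hN4, ?_⟩
    · have h1 := le_abs_self B
      have h2 := abs_nonneg w
      have h3 : (0 : ℤ) ≤ q := by positivity
      linarith
    · intro x hx
      rcases Finset.mem_insert.mp hx with rfl | hx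
      · refine ⟨q, by exact_mod_cast hq.one_lt, ?_, hqN⟩
        have h1 := neg_abs_le x
        have h2 := abs_nonneg B
        linarith
      · exact hN5 x hx

end Pool.Agent.H10.KTC
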