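import Mathlib
set_option autoImplicit false

/-!
A derandomised choice of residue classes: every set of a given finite family keeps an
unsieved element, while a given set of integers is completely avoided.
-/

namespace Pool.Agent.H10.Least

open Finset

/-- the elements of `A` which are not killed by the class `t` modulo `q` -/
def surv (e : Prop) [Decidable e] (A : Finset ℕ) (q t : ℕ) : Finset ℕ :=
  A.filter (fun m => e → ¬ m ≡ t [MOD q])

lemma sum_kill_le (A : Finset ℕ) (q : ℕ) :
    ∑ t ∈ range (q - 1), (A.filter (fun m => m ≡ t [MOD q])).card ≤ A.card := by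
  have h1 : ∀ t ∈ range (q - 1), (A.filter (fun m => m ≡ t [MOD q])).card
      = ∑ m ∈ A, if m ≡ t [MOD q] then 1 else 0 := by
    intro t _
    rw [card_filter]
  rw [sum_congr rfl h1, sum_comm]
  rw [card_eq_sum_ones]
  apply sum_le_sum
  intro m _
  rw [← card_filter]
  apply card_le_one.mpr
  intro a ha b hb
  rw [mem_filter, mem_range] at ha hb
  have h2 : a ≡ b [MOD q] := ha.2.symm.trans hb.2
  exact Nat.ModEq.eq_of_lt_of_lt h2 (by omega) (by omega)

lemma sum_surv_le (A : Finset ℕ) (q : ℕ) (hq : 3 ≤ q)
    (hA : ∀ m ∈ A, ∀ m' ∈ A, m ≡ m' [MOD q] → m = m') (θ : ℝ) (h0 : 0 ≤ θ) (h1 : θ ≤ 1) :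
    ∑ t ∈ range (q - 1), (1 - θ) ^ (A.filter (fun m => ¬ m ≡ t [MOD q])).card
      ≤ ((q : ℝ) - 1) * (1 - θ * (1 - 1 / ((q : ℝ) - 1))) ^ A.card := by
  have hq3 : (3 : ℝ) ≤ q := by exact_mod_cast hq
  have hq1 : (0 : ℝ) < (q : ℝ) - 1 := by linarith
  have hcast : ((q - 1 : ℕ) : ℝ) = (q : ℝ) - 1 := by
    rw [Nat.cast_sub (by omega)]
    simp
  rcases Nat.eq_zero_or_pos A.card with hn | hn
  · rw [hn, pow_zero, mul_one]
    have hA0 : A = ∅ := card_eq_zero.mp hn
    rw [hA0]
    simp only [filter_empty, card_empty, pow_zero, sum_const, card_range, nsmul_eq_mul, mul_one]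
    rw [hcast]
  · set n := A.card with hnn
    set u := 1 - θ with hu
    have hu0 : 0 ≤ u := by linarith
    have hker : ∀ t ∈ range (q - 1), u ^ (A.filter (fun m => ¬ m ≡ t [MOD q])).card
        = u ^ n + ((A.filter (fun m => m ≡ t [MOD q])).card : ℝ) * (u ^ (n - 1) - u ^ n) := by
      intro t _
      have h2 := card_filter_add_card_filter_not (s := A) (fun m => m ≡ t [MOD q])
      have h3 : (A.filter (fun m => m ≡ t [MOD q])).card ≤ 1 := by
        apply card_le_one.mpr
        intro a ha b hb
        rw [mem_filter] at ha hb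
        exact hA a ha.1 b hb.1 (ha.2.trans hb.2.symm)
      rcases Nat.le_one_iff_eq_zero_or_eq_one.mp h3 with h4 | h4
      · have h5 : (A.filter (fun m => ¬ m ≡ t [MOD q])).card = n := by omega
        rw [h5, h4]
        simp
      · have h5 : (A.filter (fun m => ¬ m ≡ t [MOD q])).card = n - 1 := by omega
        rw [h5, h4]
        simp
    rw [sum_congr rfl hker, sum_add_distrib, sum_const, card_range, nsmul_eq_mul, hcast, ← sum_mul]
    have h6 : (∑ t ∈ range (q - 1), ((A.filter (fun m => m ≡ t [MOD q])).card : ℝ)) ≤ n := by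
      have := sum_kill_le A q
      exact_mod_cast this
    have h7 : 0 ≤ u ^ (n - 1) - u ^ n := by
      have : u ^ n ≤ u ^ (n - 1) := pow_le_pow_of_le_one hu0 (by linarith) (by omega)
      linarith
    have h8 := mul_le_mul_of_nonneg_right h6 h7
    have h9 : u ^ (n - 1) - u ^ n = θ * u ^ (n - 1) := by
      have : u ^ n = u ^ (n - 1) * u := by
        rw [← pow_succ]
        congr 1
        omega
      rw [this, hu]
      ring
    set v := θ / ((q : ℝ) - 1) with hv
    have hv0 : 0 ≤ v := div_nonneg h0 hq1.le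
    have h10 : 1 - θ * (1 - 1 / ((q : ℝ) - 1)) = u + v := by
      rw [hu, hv]
      ring
    have h11 : u ^ n + n * u ^ (n - 1) * v ≤ (u + v) ^ n := by
      have : ∀ k : ℕ, 1 ≤ k → u ^ k + k * u ^ (k - 1) * v ≤ (u + v) ^ k := by
        intro k hk
        induction k, hk using Nat.le_induction with
        | base => simp
        | succ k hk ih =>
          have h12 : u ^ (k + 1) + ((k + 1 : ℕ) : ℝ) * u ^ (k + 1 - 1) * v
              ≤ (u ^ k + k * u ^ (k - 1) * v) * (u + v) := by
            have h13 : u ^ k = u ^ (k - 1) * u := by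
              rw [← pow_succ]
              congr 1
              omega
            have h14 : k + 1 - 1 = k := by omega
            rw [h14, pow_succ]
            push_cast
            have h15 : (0 : ℝ) ≤ k * u ^ (k - 1) * v * v := by positivity
            have h16 : (k : ℝ) * u ^ (k - 1) * v * u = k * u ^ k * v := by
              rw [h13]
              ring
            nlinarith
          refine h12.trans ?_
          rw [pow_succ]
          exact mul_le_mul_of_nonneg_right ih (by linarith)
      exact this n hn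
    rw [h10]
    have h12 := mul_le_mul_of_nonneg_left h11 hq1.le
    have h13 : ((q : ℝ) - 1) * (u ^ n + n * u ^ (n - 1) * v)
        = ((q : ℝ) - 1) * u ^ n + n * (θ * u ^ (n - 1)) := by
      rw [hv]
      field_simp
    rw [h9] at h8 ⊢
    linarith

lemma step {ι : Type} (I : Finset ι) (B : ι → Finset ℕ) (pr : ι → ℕ) (q : ℕ) (hq : 3 ≤ q)
    (hB : ∀ i ∈ I, pr i ≠ q → ∀ m ∈ B i, ∀ m' ∈ B i, m ≡ m' [MOD q] → m = m')
    (θ : ℝ) (h0 : 0 ≤ θ) (h1 : θ ≤ 1) (w : ℝ) (hw : 0 ≤ w) (C : Finset ℕ) :
    ∃ t < q - 1, ∑ i ∈ I, (1 - θ) ^ (surv (pr i ≠ q) (B i) q t).card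
        + w * ((C.filter (fun n => q ∣ n + t)).card : ℝ)
      ≤ ∑ i ∈ I, (1 - θ * (1 - 1 / ((q : ℝ) - 1))) ^ (B i).card + w * (C.card : ℝ) / ((q : ℝ) - 1)
    := by
  have hq3 : (3 : ℝ) ≤ q := by exact_mod_cast hq
  have hq1 : (0 : ℝ) < (q : ℝ) - 1 := by linarith
  have hcast : ((q - 1 : ℕ) : ℝ) = (q : ℝ) - 1 := by
    rw [Nat.cast_sub (by omega)]
    simp
  set R := ∑ i ∈ I, (1 - θ * (1 - 1 / ((q : ℝ) - 1))) ^ (B i).card
    + w * (C.card : ℝ) / ((q : ℝ) - 1) with hR
  have key : ∑ t ∈ range (q - 1), (∑ i ∈ I, (1 - θ) ^ (surv (pr i ≠ q) (B i) q t).card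
        + w * ((C.filter (fun n => q ∣ n + t)).card : ℝ)) ≤ ∑ t ∈ range (q - 1), R := by
    rw [sum_add_distrib, sum_comm, sum_const, card_range, nsmul_eq_mul, hcast, hR, mul_add, mul_sum]
    apply add_le_add
    · apply sum_le_sum
      intro i hi
      by_cases hpi : pr i ≠ q
      · have h2 : ∀ t ∈ range (q - 1), (1 - θ) ^ (surv (pr i ≠ q) (B i) q t).card
            = (1 - θ) ^ ((B i).filter (fun m => ¬ m ≡ t [MOD q])).card := by
          intro t _
          congr 2
          unfold surv
          apply filter_congr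
          intro m _
          simp [hpi]
        rw [sum_congr rfl h2]
        exact sum_surv_le (B i) q hq (hB i hi hpi) θ h0 h1
      · have h2 : ∀ t ∈ range (q - 1), (1 - θ) ^ (surv (pr i ≠ q) (B i) q t).card
            = (1 - θ) ^ (B i).card := by
          intro t _
          congr 2
          unfold surv
          rw [filter_true_of_mem]
          intro m _ h
          exact absurd h hpi
        rw [sum_congr rfl h2, sum_const, card_range, nsmul_eq_mul, hcast]
        apply mul_le_mul_of_nonneg_left _ hq1.le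
        apply pow_le_pow_left₀ (by linarith)
        have h3 : θ * (1 - 1 / ((q : ℝ) - 1)) ≤ θ := by
          apply mul_le_of_le_one_right h0
          have : 0 ≤ 1 / ((q : ℝ) - 1) := by positivity
          linarith
        linarith
    · rw [← mul_sum]
      have h2 : ∑ t ∈ range (q - 1), ((C.filter (fun n => q ∣ n + t)).card : ℝ) ≤ C.card := by
        have h3 : ∑ t ∈ range (q - 1), (C.filter (fun n => q ∣ n + t)).card ≤ C.card := by
          have h1 : ∀ t ∈ range (q - 1), (C.filter (fun n => q ∣ n + t)).card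
              = ∑ m ∈ C, if q ∣ m + t then 1 else 0 := by
            intro t _
            rw [card_filter]
          rw [sum_congr rfl h1, sum_comm, card_eq_sum_ones]
          apply sum_le_sum
          intro m _
          rw [← card_filter]
          apply card_le_one.mpr
          intro a ha b hb
          rw [mem_filter, mem_range] at ha hb
          have h2 : m + a ≡ m + b [MOD q] :=
            ((Nat.modEq_zero_iff_dvd).mpr ha.2).trans ((Nat.modEq_zero_iff_dvd).mpr hb.2).symm
          exact Nat.ModEq.eq_of_lt_of_lt (Nat.ModEq.add_left_cancel' m h2) (by omega) (by omega)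
        exact_mod_cast h3
      have h3 : ((q : ℝ) - 1) * (w * (C.card : ℝ) / ((q : ℝ) - 1)) = w * C.card := by
        field_simp
      rw [h3]
      exact mul_le_mul_of_nonneg_left h2 hw
  have hne : (range (q - 1)).Nonempty := ⟨0, mem_range.mpr (by omega)⟩
  obtain ⟨t, ht, ht2⟩ := exists_le_of_sum_le hne key
  exact ⟨t, mem_range.mp ht, ht2⟩

lemma iter {ι : Type} (I : Finset ι) (A : ι → Finset ℕ) (pr : ι → ℕ) (C : Finset ℕ) (Q : Finset ℕ)
    (hQ : ∀ q ∈ Q, 3 ≤ q)
    (hA : ∀ i ∈ I, ∀ q ∈ Q, pr i ≠ q → ∀ m ∈ A i, ∀ m' ∈ A i, m ≡ m' [MOD q] → m = m') :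
    ∀ θ w : ℝ, 0 ≤ θ → θ ≤ 1 → 0 ≤ w → ∃ s : ℕ → ℕ, (∀ q ∈ Q, s q < q - 1) ∧
      ∑ i ∈ I, (1 - θ) ^ ((A i).filter (fun m => ∀ q ∈ Q, pr i ≠ q → ¬ m ≡ s q [MOD q])).card
        + w * ((C.filter (fun n => ∀ q ∈ Q, q ∣ n + s q)).card : ℝ)
      ≤ ∑ i ∈ I, (1 - θ * ∏ q ∈ Q, (1 - 1 / ((q : ℝ) - 1))) ^ (A i).card
        + w * (C.card : ℝ) / ∏ q ∈ Q, ((q : ℝ) - 1) := by
  classical
  induction Q using Finset.induction_on with
  | empty =>
    intro θ w _ _ _
    refine ⟨fun _ => 0, by simp, ?_⟩
    simp
  | insert q Q hqQ ih =>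
    intro θ w h0 h1 hw
    have hq3 : 3 ≤ q := hQ q (mem_insert_self _ _)
    have hq3r : (3 : ℝ) ≤ q := by exact_mod_cast hq3
    have hq1 : (0 : ℝ) < (q : ℝ) - 1 := by linarith
    have hfac0 : 0 ≤ 1 - 1 / ((q : ℝ) - 1) := by
      rw [sub_nonneg, div_le_one hq1]
      linarith
    have hfac1 : 1 - 1 / ((q : ℝ) - 1) ≤ 1 := by
      have : 0 ≤ 1 / ((q : ℝ) - 1) := by positivity
      linarith
    obtain ⟨s, hs, hs2⟩ := ih (fun q hq => hQ q (mem_insert_of_mem hq))
      (fun i hi q hq => hA i hi q (mem_insert_of_mem hq))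
      (θ * (1 - 1 / ((q : ℝ) - 1))) (w / ((q : ℝ) - 1)) (mul_nonneg h0 hfac0)
      ((mul_le_mul h1 hfac1 hfac0 (by norm_num)).trans (by norm_num)) (div_nonneg hw hq1.le)
    set B : ι → Finset ℕ := fun i => (A i).filter (fun m => ∀ q ∈ Q, pr i ≠ q → ¬ m ≡ s q [MOD q])
      with hB
    set C' : Finset ℕ := C.filter (fun n => ∀ q ∈ Q, q ∣ n + s q) with hC'
    obtain ⟨t, ht, ht2⟩ := step I B pr q hq3 (by
      intro i hi hpq m hm m' hm'
      exact hA i hi q (mem_insert_self _ _) hpq m (mem_of_mem_filter m hm) m'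
        (mem_of_mem_filter m' hm')) θ h0 h1 w hw C'
    refine ⟨Function.update s q t, ?_, ?_⟩
    · intro q' hq'
      by_cases h : q' = q
      · subst h
        rw [Function.update_self]
        exact ht
      · rw [Function.update_of_ne h]
        exact hs q' (mem_of_mem_insert_of_ne hq' h)
    · have hupd : ∀ q' ∈ Q, Function.update s q t q' = s q' := by
        intro q' hq'
        rw [Function.update_of_ne]
        rintro rfl
        exact hqQ hq'
      have e1 : ∀ i, (A i).filter (fun m => ∀ q' ∈ insert q Q, pr i ≠ q' →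
          ¬ m ≡ Function.update s q t q' [MOD q']) = surv (pr i ≠ q) (B i) q t := by
        intro i
        unfold surv
        rw [hB]
        simp only
        rw [filter_filter]
        apply filter_congr
        intro m _
        constructor
        · intro h
          refine ⟨fun q' hq' hpq' => ?_, fun hpq => ?_⟩
          · have := h q' (mem_insert_of_mem hq') hpq'
            rw [hupd q' hq'] at this
            exact this
          · have := h q (mem_insert_self _ _) hpq
            rw [Function.update_self] at this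
            exact this
        · rintro ⟨ha, hb⟩ q' hq' hpq'
          rcases mem_insert.mp hq' with rfl | hq''
          · rw [Function.update_self]
            exact hb hpq'
          · rw [hupd q' hq'']
            exact ha q' hq'' hpq'
      have e2 : C.filter (fun n => ∀ q' ∈ insert q Q, q' ∣ n + Function.update s q t q')
          = C'.filter (fun n => q ∣ n + t) := by
        rw [hC', filter_filter]
        apply filter_congr
        intro n _
        constructor
        · intro h
          refine ⟨fun q' hq' => ?_, ?_⟩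
          · have := h q' (mem_insert_of_mem hq')
            rw [hupd q' hq'] at this
            exact this
          · have := h q (mem_insert_self _ _)
            rw [Function.update_self] at this
            exact this
        · rintro ⟨ha, hb⟩ q' hq'
          rcases mem_insert.mp hq' with rfl | hq''
          · rw [Function.update_self]
            exact hb
          · rw [hupd q' hq'']
            exact ha q' hq''
      rw [e2]
      simp_rw [e1]
      refine ht2.trans ?_
      have h2 : w * (C'.card : ℝ) / ((q : ℝ) - 1) = w / ((q : ℝ) - 1) * C'.card := by ring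
      rw [h2]
      refine hs2.trans ?_
      rw [prod_insert hqQ, prod_insert hqQ]
      apply le_of_eq
      congr 1
      · refine sum_congr rfl ?_
        intro i _
        rw [mul_assoc]
      · rw [div_mul_eq_mul_div, div_div]

end Pool.Agent.H10.Least
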