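import Pool.Agent.H10.First3
set_option autoImplicit false

namespace Pool.Agent.H10.Least

open Finset Pool.Agent.H10.First

/-- lower bound sieve in an arithmetic progression -/
lemma sieve_ap {Q : Finset ℕ} (hQ : ∀ q ∈ Q, q.Prime) {K : ℕ} (hK : 4 ≤ K) (hQK : Q ⊆ Icc 2 K)
    {m : ℕ} (hm : 0 < m) (hmQ : ∀ q ∈ Q, Nat.Coprime m q) (a : ℕ) {r : ℕ}
    (hr : 8 * K ^ 3 ≤ 2 ^ (r + 1)) :
    (K : ℝ) ^ (r + 4) * (∏ q ∈ Q, (1 - 1 / (q : ℝ))) / 2
      ≤ (((range (m * K ^ (r + 4))).filter (fun x => x ≡ a [MOD m] ∧ ∀ q ∈ Q, ¬ q ∣ x)).card : ℝ)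
    := by
  have hK1 : 1 ≤ K := by omega
  have h0 := sieve2 Q hQ hm hmQ (m * K ^ (r + 4)) a r
  have hmr : (0 : ℝ) < m := by exact_mod_cast hm
  push_cast at h0
  have hmm : (m : ℝ) * (K : ℝ) ^ (r + 4) / m = (K : ℝ) ^ (r + 4) := by field_simp
  rw [hmm] at h0
  set V := ∏ q ∈ Q, (1 - 1 / (q : ℝ)) with hV
  have hKr : (4 : ℝ) ≤ K := by exact_mod_cast hK
  have hKpos : (0 : ℝ) < K := by linarith
  have hV1 : 1 / (K : ℝ) ≤ V := prod_sub_ge hK1 hQK
  have hA : ((Q.powerset.filter (fun D => D.card ≤ r + 1)).card : ℝ) ≤ (K : ℝ) ^ (r + 1) := by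
    exact_mod_cast card_small hK1 hQK (r + 1)
  have hB := tail_le hK1 hQK (r + 1)
  have hnm : 0 ≤ (K : ℝ) ^ (r + 4) := by positivity
  have hnV : (K : ℝ) ^ (r + 4) * (1 / K) ≤ (K : ℝ) ^ (r + 4) * V :=
    mul_le_mul_of_nonneg_left hV1 hnm
  have h1 : (K : ℝ) ^ (r + 1) ≤ (K : ℝ) ^ (r + 4) * V / 4 := by
    have h3 : (K : ℝ) ^ (r + 4) * (1 / K) = (K : ℝ) ^ (r + 1) * K * K := by
      field_simp
      ring
    have h4 : (K : ℝ) ^ (r + 1) * 4 ≤ (K : ℝ) ^ (r + 1) * K :=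
      mul_le_mul_of_nonneg_left hKr (by positivity)
    have h5 : (K : ℝ) ^ (r + 1) * K * 1 ≤ (K : ℝ) ^ (r + 1) * K * K :=
      mul_le_mul_of_nonneg_left (by linarith) (by positivity)
    linarith
  have h5 : (K : ℝ) ^ 2 / 2 ^ (r + 1) ≤ 1 / (8 * K) := by
    rw [div_le_div_iff₀ (by positivity) (by positivity)]
    have h6 : (8 : ℝ) * K ^ 3 ≤ 2 ^ (r + 1) := by exact_mod_cast hr
    nlinarith
  have h7 : 2 * (K : ℝ) ^ (r + 4) * (∑ D ∈ Q.powerset with r + 1 ≤ D.card,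
      ∏ q ∈ D, (1 / (q : ℝ))) ≤ (K : ℝ) ^ (r + 4) * V / 4 := by
    have h8 := mul_le_mul_of_nonneg_left (hB.trans h5) (mul_nonneg (by norm_num : (0:ℝ) ≤ 2) hnm)
    have h9 : 2 * (K : ℝ) ^ (r + 4) * (1 / (8 * K))
        = (K : ℝ) ^ (r + 4) * (1 / K) / 4 := by
      field_simp
      ring
    linarith
  have h10 := (abs_le.mp h0).1
  linarith

/-- In every residue class modulo a prime there is a short window rich in integers free of small
prime factors. -/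
lemma rough_block {K r p a : ℕ} (hK : 4 ≤ K) (hr : 8 * K ^ 3 ≤ 2 ^ (r + 1)) (hp : p.Prime)
    (hap : a < p) (ha : p ≤ K → a ≠ 0) :
    ∃ A : Finset ℕ, (∀ m ∈ A, m < p * K ^ (r + 4) ∧ m ≡ a [MOD p] ∧ ∀ q ∈ PP K, ¬ q ∣ m) ∧
      (∀ q : ℕ, q.Prime → K < q → p ≠ q → ∀ m ∈ A, ∀ m' ∈ A, m ≡ m' [MOD q] → m = m') ∧
      (K : ℝ) * (∏ q ∈ PP K, (1 - 1 / (q : ℝ))) / 2 ≤ A.card := by
  classical
  have hp0 := hp.pos
  have hK0 : 0 < K := by omega
  have hsub : (PP K).erase p ⊆ Icc 2 K := (erase_subset _ _).trans (filter_subset _ _)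
  have h := sieve_ap (Q := (PP K).erase p) (fun q hq => (mem_PP.mp (mem_of_mem_erase hq)).1) hK hsub
    (m := p) hp0 (fun q hq => (Nat.coprime_primes hp
      (mem_PP.mp (mem_of_mem_erase hq)).1).mpr (ne_of_mem_erase hq).symm) a hr
  set S := (range (p * K ^ (r + 4))).filter (fun x => x ≡ a [MOD p] ∧ ∀ q ∈ (PP K).erase p, ¬ q ∣ x)
    with hS
  have hV : ∏ q ∈ PP K, (1 - 1 / (q : ℝ)) ≤ ∏ q ∈ (PP K).erase p, (1 - 1 / (q : ℝ)) := by
    by_cases hpP : p ∈ PP K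
    · rw [← mul_prod_erase _ _ hpP]
      apply mul_le_of_le_one_left
      · apply prod_nonneg
        intro q hq
        have : (1 : ℝ) ≤ q := by exact_mod_cast (mem_PP.mp (mem_of_mem_erase hq)).1.one_le
        rw [sub_nonneg, div_le_one (by linarith)]
        exact this
      · have : (0 : ℝ) ≤ 1 / (p : ℝ) := by positivity
        linarith
    · rw [erase_eq_of_notMem hpP]
  have hKn : (0 : ℝ) ≤ (K : ℝ) ^ (r + 4) := by positivity
  have h7 := mul_le_mul_of_nonneg_left hV hKn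
  have hSc : (K : ℝ) ^ (r + 4) * (∏ q ∈ PP K, (1 - 1 / (q : ℝ))) / 2 ≤ S.card := by linarith
  -- pigeonhole over blocks
  have hmaps : ∀ x ∈ S, x / p / K ∈ range (K ^ (r + 3)) := by
    intro x hx
    rw [hS, mem_filter, mem_range] at hx
    rw [mem_range, Nat.div_lt_iff_lt_mul hK0, Nat.div_lt_iff_lt_mul hp0]
    calc x < p * K ^ (r + 4) := hx.1
      _ = K ^ (r + 3) * K * p := by rw [← pow_succ]; ring
  have hne : (range (K ^ (r + 3))).Nonempty := ⟨0, mem_range.mpr (by positivity)⟩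
  have hcard : ((range (K ^ (r + 3))).card : ℝ)
      * ((K : ℝ) * (∏ q ∈ PP K, (1 - 1 / (q : ℝ))) / 2) ≤ (S.card : ℝ) := by
    rw [card_range]
    push_cast
    have : (K : ℝ) ^ (r + 3) * ((K : ℝ) * (∏ q ∈ PP K, (1 - 1 / (q : ℝ))) / 2)
        = (K : ℝ) ^ (r + 4) * (∏ q ∈ PP K, (1 - 1 / (q : ℝ))) / 2 := by ring
    rw [this]
    exact hSc
  obtain ⟨b, hb, hbc⟩ := exists_le_card_fiber_of_nsmul_le_card_of_maps_to (M := ℝ) hmaps hne (by
    rw [nsmul_eq_mul]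
    exact hcard)
  refine ⟨S.filter (fun x => x / p / K = b), ?_, ?_, hbc⟩
  · intro m hm
    rw [mem_filter, hS, mem_filter, mem_range] at hm
    obtain ⟨⟨hm1, hm2, hm3⟩, _⟩ := hm
    refine ⟨hm1, hm2, ?_⟩
    intro q hq hqm
    by_cases hqp : q = p
    · subst hqp
      have h1 : q ≤ K := (mem_PP.mp hq).2
      have h2 : q ∣ a := (hm2.dvd_iff (dvd_refl q)).mp hqm
      exact ha h1 (Nat.eq_zero_of_dvd_of_lt h2 hap)
    · exact hm3 q (mem_erase.mpr ⟨hqp, hq⟩) hqm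
  · intro q hq hKq hpq m hm m' hm' hmm
    rw [mem_filter, hS, mem_filter, mem_range] at hm hm'
    obtain ⟨⟨hm1, hm2, hm3⟩, hmb⟩ := hm
    obtain ⟨⟨hm1', hm2', hm3'⟩, hmb'⟩ := hm'
    have hcop : Nat.Coprime p q := (Nat.coprime_primes hp hq).mpr hpq
    have h1 : m ≡ m' [MOD p * q] :=
      (Nat.modEq_and_modEq_iff_modEq_mul hcop).mp ⟨hm2.trans hm2'.symm, hmm⟩
    -- both lie in a window of length p * K
    have key : ∀ x y : ℕ, x ≡ a [MOD p] → y ≡ a [MOD p] → x / p / K = b → y / p / K = b →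
        x ≤ y → y - x < p * q := by
      intro x y hx hy hxb hyb hxy
      have e1 : x % p = a := by
        have := hx
        unfold Nat.ModEq at this
        rw [this, Nat.mod_eq_of_lt hap]
      have e2 : y % p = a := by
        have := hy
        unfold Nat.ModEq at this
        rw [this, Nat.mod_eq_of_lt hap]
      have d1 := Nat.div_add_mod x p
      have d2 := Nat.div_add_mod y p
      have c1 := Nat.div_add_mod (x / p) K
      have c2 := Nat.div_add_mod (y / p) K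
      have m1 := Nat.mod_lt (x / p) hK0
      have m2 := Nat.mod_lt (y / p) hK0
      rw [hxb] at c1
      rw [hyb] at c2
      rw [e1] at d1
      rw [e2] at d2
      have h2 : y / p < x / p + K := by omega
      have h3 : p * (y / p) < p * (x / p + K) := Nat.mul_lt_mul_of_pos_left h2 hp0
      have h4 : p * (x / p + K) = p * (x / p) + p * K := by ring
      have h5 : p * K < p * q := Nat.mul_lt_mul_of_pos_left hKq hp0
      omega
    rcases le_total m m' with hle | hle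
    · have h2 := key m m' hm2 hm2' hmb hmb' hle
      have h3 : p * q ∣ m' - m := (Nat.modEq_iff_dvd' hle).mp h1
      have h4 := Nat.eq_zero_of_dvd_of_lt h3 h2
      omega
    · have h2 := key m' m hm2' hm2 hmb' hmb hle
      have h3 : p * q ∣ m - m' := (Nat.modEq_iff_dvd' hle).mp h1.symm
      have h4 := Nat.eq_zero_of_dvd_of_lt h3 h2
      omega

end Pool.Agent.H10.Least
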