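import Pool.Agent.H10.Least1
import Pool.Agent.H10.Least2
set_option autoImplicit false

namespace Pool.Agent.H10.Least

open Finset Pool.Agent.H10.First

lemma fac_bounds {q : ℕ} (hq : 3 ≤ q) :
    (0 : ℝ) ≤ 1 - 1 / ((q : ℝ) - 1) ∧ (1 : ℝ) - 1 / ((q : ℝ) - 1) ≤ 1 := by
  have hq3r : (3 : ℝ) ≤ q := by exact_mod_cast hq
  have hq1 : (0 : ℝ) < (q : ℝ) - 1 := by linarith
  constructor
  · rw [sub_nonneg, div_le_one hq1]
    linarith
  · have : 0 ≤ 1 / ((q : ℝ) - 1) := by positivity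
    linarith

lemma prod_bounds (Q : Finset ℕ) (hQ : ∀ q ∈ Q, 3 ≤ q) :
    (0 : ℝ) ≤ ∏ q ∈ Q, (1 - 1 / ((q : ℝ) - 1)) ∧ ∏ q ∈ Q, ((1 : ℝ) - 1 / ((q : ℝ) - 1)) ≤ 1 :=
  ⟨prod_nonneg fun q hq => (fac_bounds (hQ q hq)).1,
    prod_le_one (fun q hq => (fac_bounds (hQ q hq)).1) (fun q hq => (fac_bounds (hQ q hq)).2)⟩

theorem construct {D y K r X n₀ : ℕ} (hK : 4 ≤ K) (hKy : K ≤ y) (hr : 8 * K ^ 3 ≤ 2 ^ (r + 1))
    (hD : y * K ^ (r + 4) ≤ D)
    (hn : (n₀ : ℝ) ≤ (K : ℝ) * (∏ q ∈ PP K, (1 - 1 / (q : ℝ))) / 2)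
    (hnum : (y : ℝ) ^ 2 * (1 - ∏ q ∈ (Ioc K D).filter Nat.Prime, (1 - 1 / ((q : ℝ) - 1))) ^ n₀
      + X / ∏ q ∈ (Ioc K y).filter Nat.Prime, ((q : ℝ) - 1) < 1) :
    ∃ H : Finset ℕ, 0 ∈ H ∧ (∀ h ∈ H, h ≤ D) ∧
      (∀ p : ℕ, p.Prime → ∃ c : ℕ, ∀ h ∈ H, ¬ p ∣ c + h) ∧
      ∀ N : ℕ, (∀ h ∈ H, (N + h).Prime) → X ≤ N := by
  classical
  have hyD : y ≤ D := by
    refine le_trans ?_ hD
    exact Nat.le_mul_of_pos_right _ (by positivity)
  set Q1 := (Ioc K y).filter Nat.Prime with hQ1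
  set Q2 := (Ioc y D).filter Nat.Prime with hQ2
  have hdisj : Disjoint Q1 Q2 := by
    rw [disjoint_left]
    intro q h1 h2
    rw [hQ1, mem_filter, mem_Ioc] at h1
    rw [hQ2, mem_filter, mem_Ioc] at h2
    omega
  have hun : (Ioc K D).filter Nat.Prime = Q1 ∪ Q2 := by
    rw [hQ1, hQ2, ← filter_union, Ioc_union_Ioc_eq_Ioc hKy hyD]
  have hQ1p : ∀ q ∈ Q1, q.Prime ∧ K < q ∧ q ≤ y := by
    intro q hq
    rw [hQ1, mem_filter, mem_Ioc] at hq
    exact ⟨hq.2, hq.1.1, hq.1.2⟩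
  have hQ2p : ∀ q ∈ Q2, q.Prime ∧ y < q ∧ q ≤ D := by
    intro q hq
    rw [hQ2, mem_filter, mem_Ioc] at hq
    exact ⟨hq.2, hq.1.1, hq.1.2⟩
  have h31 : ∀ q ∈ Q1, 3 ≤ q := fun q hq => by have := hQ1p q hq; omega
  have h32 : ∀ q ∈ Q2, 3 ≤ q := fun q hq => by have := hQ2p q hq; omega
  rw [hun, prod_union hdisj] at hnum
  set σ1 := ∏ q ∈ Q1, (1 - 1 / ((q : ℝ) - 1)) with hσ1
  set σ2 := ∏ q ∈ Q2, (1 - 1 / ((q : ℝ) - 1)) with hσ2
  set T := ∏ q ∈ Q1, ((q : ℝ) - 1) with hT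
  obtain ⟨b10, b11⟩ := prod_bounds Q1 h31
  obtain ⟨b20, b21⟩ := prod_bounds Q2 h32
  rw [← hσ1] at b10 b11
  rw [← hσ2] at b20 b21
  have hσσ0 : 0 ≤ σ1 * σ2 := mul_nonneg b10 b20
  have hσσ1 : σ1 * σ2 ≤ 1 := (mul_le_mul b11 b21 b20 (by norm_num)).trans (by norm_num)
  -- index set
  set I : Finset (ℕ × ℕ) := ((Icc 1 y) ×ˢ (range y)).filter
    (fun τ => τ.1.Prime ∧ τ.2 < τ.1 ∧ (τ.1 ≤ K → τ.2 ≠ 0)) with hI
  have hIc : (I.card : ℝ) ≤ (y : ℝ) ^ 2 := by
    have h1 : I.card ≤ y * y := by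
      refine (card_filter_le _ _).trans ?_
      rw [card_product, Nat.card_Icc, card_range]
      simp
    rw [sq]
    exact_mod_cast h1
  have hexA : ∀ τ : ℕ × ℕ, ∃ A : Finset ℕ, τ ∈ I →
      (∀ m ∈ A, m < τ.1 * K ^ (r + 4) ∧ m ≡ τ.2 [MOD τ.1] ∧ ∀ q ∈ PP K, ¬ q ∣ m) ∧
      (∀ q : ℕ, q.Prime → K < q → τ.1 ≠ q → ∀ m ∈ A, ∀ m' ∈ A, m ≡ m' [MOD q] → m = m') ∧
      (K : ℝ) * (∏ q ∈ PP K, (1 - 1 / (q : ℝ))) / 2 ≤ A.card := by
    intro τ
    by_cases hτ : τ ∈ I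
    · have h1 := hτ
      rw [hI, mem_filter] at h1
      obtain ⟨A, hA⟩ := rough_block hK hr h1.2.1 h1.2.2.1 h1.2.2.2
      exact ⟨A, fun _ => hA⟩
    · exact ⟨∅, fun h => absurd h hτ⟩
  choose A hA using hexA
  -- first phase
  obtain ⟨s1, hs1, hs1b⟩ := iter I A Prod.fst (Icc 1 X) Q1 h31 (by
    intro τ hτ q hq hpq
    have := hQ1p q hq
    exact (hA τ hτ).2.1 q this.1 this.2.1 hpq) σ2 1 b20 b21 (by norm_num)
  have hrhs : ∑ τ ∈ I, (1 - σ2 * ∏ q ∈ Q1, (1 - 1 / ((q : ℝ) - 1))) ^ (A τ).card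
      + 1 * ((Icc 1 X).card : ℝ) / ∏ q ∈ Q1, ((q : ℝ) - 1) < 1 := by
    refine lt_of_le_of_lt ?_ hnum
    apply add_le_add
    · rw [← hσ1]
      calc ∑ τ ∈ I, (1 - σ2 * σ1) ^ (A τ).card ≤ ∑ τ ∈ I, (1 - σ1 * σ2) ^ n₀ := by
            apply sum_le_sum
            intro τ hτ
            rw [mul_comm σ2 σ1]
            apply pow_le_pow_of_le_one (by linarith) (by linarith)
            have h1 := hn.trans (hA τ hτ).2.2
            exact_mod_cast h1
        _ = (I.card : ℝ) * (1 - σ1 * σ2) ^ n₀ := by rw [sum_const, nsmul_eq_mul]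
        _ ≤ (y : ℝ) ^ 2 * (1 - σ1 * σ2) ^ n₀ :=
            mul_le_mul_of_nonneg_right hIc (pow_nonneg (by linarith) _)
    · rw [Nat.card_Icc, ← hT]
      simp
  have hlt1 := lt_of_le_of_lt hs1b hrhs
  set B : ℕ × ℕ → Finset ℕ := fun τ => (A τ).filter (fun m => ∀ q ∈ Q1, τ.1 ≠ q → ¬ m ≡ s1 q [MOD q])
    with hB
  have hC0 : (Icc 1 X).filter (fun n => ∀ q ∈ Q1, q ∣ n + s1 q) = ∅ := by
    rw [← card_eq_zero]
    have h1 : 0 ≤ ∑ τ ∈ I, (1 - σ2) ^ (B τ).card :=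
      sum_nonneg fun τ _ => pow_nonneg (by linarith) _
    have h2 : (((Icc 1 X).filter (fun n => ∀ q ∈ Q1, q ∣ n + s1 q)).card : ℝ) < 1 := by
      linarith
    have h3 : ((Icc 1 X).filter (fun n => ∀ q ∈ Q1, q ∣ n + s1 q)).card < 1 := by exact_mod_cast h2
    omega
  have hB1 : ∑ τ ∈ I, (1 - σ2) ^ (B τ).card < 1 := by
    have h1 : (0 : ℝ) ≤ (((Icc 1 X).filter (fun n => ∀ q ∈ Q1, q ∣ n + s1 q)).card : ℝ) := by
      positivity
    linarith
  -- second phase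
  obtain ⟨s2, hs2, hs2b⟩ := iter I B Prod.fst ∅ Q2 h32 (by
    intro τ hτ q hq hpq m hm m' hm'
    have := hQ2p q hq
    exact (hA τ hτ).2.1 q this.1 (by omega) hpq m (mem_of_mem_filter m hm) m'
      (mem_of_mem_filter m' hm')) 1 0 (by norm_num) (le_refl _) (le_refl _)
  have hB2 : ∀ τ ∈ I, ∃ m ∈ B τ, ∀ q ∈ Q2, τ.1 ≠ q → ¬ m ≡ s2 q [MOD q] := by
    intro τ hτ
    by_contra hcon
    push Not at hcon
    have h1 : ((B τ).filter (fun m => ∀ q ∈ Q2, τ.1 ≠ q → ¬ m ≡ s2 q [MOD q])) = ∅ := by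
      rw [filter_eq_empty_iff]
      intro m hm hall
      obtain ⟨q, hq, h2, h3⟩ := hcon m hm
      exact hall q hq h2 h3
    have h2 : (1 : ℝ) ≤ ∑ τ ∈ I, (1 - 1 : ℝ) ^ ((B τ).filter
        (fun m => ∀ q ∈ Q2, τ.1 ≠ q → ¬ m ≡ s2 q [MOD q])).card := by
      have h3 : (1 : ℝ) = (1 - 1 : ℝ) ^ ((B τ).filter
        (fun m => ∀ q ∈ Q2, τ.1 ≠ q → ¬ m ≡ s2 q [MOD q])).card := by
        rw [h1]
        simp
      refine h3.le.trans ?_
      exact single_le_sum (f := fun τ : ℕ × ℕ => (1 - 1 : ℝ) ^ ((B τ).filter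
        (fun m => ∀ q ∈ Q2, τ.1 ≠ q → ¬ m ≡ s2 q [MOD q])).card)
        (fun i _ => pow_nonneg (by norm_num) _) hτ
    rw [← hσ2] at hs2b
    have h4 : ∑ i ∈ I, (1 - 1 * σ2) ^ (B i).card = ∑ τ ∈ I, (1 - σ2) ^ (B τ).card := by
      refine sum_congr rfl ?_
      intro i _
      rw [one_mul]
    rw [h4] at hs2b
    simp only [zero_mul, add_zero, zero_div] at hs2b
    linarith
  -- the combined choice
  set s : ℕ → ℕ := fun q => if q ≤ K then 0 else if q ≤ y then s1 q else s2 q with hs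
  have hslt : ∀ p : ℕ, p.Prime → p ≤ D → s p < p - 1 := by
    intro p hp hpD
    have h2 := hp.two_le
    by_cases h1 : p ≤ K
    · simp only [hs, if_pos h1]
      omega
    · by_cases h3 : p ≤ y
      · simp only [hs, if_neg h1, if_pos h3]
        exact hs1 p (by rw [hQ1, mem_filter, mem_Ioc]; exact ⟨⟨by omega, h3⟩, hp⟩)
      · simp only [hs, if_neg h1, if_neg h3]
        exact hs2 p (by rw [hQ2, mem_filter, mem_Ioc]; exact ⟨⟨by omega, hpD⟩, hp⟩)
  set M := (range D).filter (fun m => ∀ q ∈ PP D, ¬ m ≡ s q [MOD q]) with hM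
  -- every admissible class is hit
  have hhit : ∀ p a : ℕ, p.Prime → p ≤ y → a < p → a ≠ s p → ∃ m ∈ M, m ≡ a [MOD p] := by
    intro p a hp hpy hap has
    have hτ : (p, a) ∈ I := by
      rw [hI, mem_filter, mem_product, mem_Icc, mem_range]
      refine ⟨⟨⟨hp.one_le, hpy⟩, by simp only; omega⟩, hp, hap, ?_⟩
      intro h1 h2
      apply has
      simp only at h1 h2
      simp only [hs, if_pos h1]
      exact h2
    obtain ⟨m, hmB, hm2⟩ := hB2 (p, a) hτ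
    have hmA : m ∈ A (p, a) := mem_of_mem_filter m hmB
    have hm1 : ∀ q ∈ Q1, p ≠ q → ¬ m ≡ s1 q [MOD q] := (mem_filter.mp hmB).2
    obtain ⟨hmlt, hma, hmK⟩ := (hA (p, a) hτ).1 m hmA
    refine ⟨m, ?_, hma⟩
    rw [hM, mem_filter, mem_range]
    refine ⟨?_, ?_⟩
    · simp only at hmlt
      calc m < p * K ^ (r + 4) := hmlt
        _ ≤ y * K ^ (r + 4) := Nat.mul_le_mul_right _ hpy
        _ ≤ D := hD
    · intro q hq
      rw [mem_PP] at hq
      obtain ⟨hqp, hqD⟩ := hq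
      by_cases hpq : p = q
      · subst hpq
        intro hcon
        have h1 : a ≡ s p [MOD p] := hma.symm.trans hcon
        have h2 := hslt p hqp hqD
        exact has (Nat.ModEq.eq_of_lt_of_lt h1 hap (by omega))
      · by_cases h1 : q ≤ K
        · simp only [hs, if_pos h1]
          intro hcon
          exact hmK q (mem_PP.mpr ⟨hqp, h1⟩) ((Nat.modEq_zero_iff_dvd).mp hcon)
        · by_cases h3 : q ≤ y
          · simp only [hs, if_neg h1, if_pos h3]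
            exact hm1 q (by rw [hQ1, mem_filter, mem_Ioc]; exact ⟨⟨by omega, h3⟩, hqp⟩) hpq
          · simp only [hs, if_neg h1, if_neg h3]
            exact hm2 q (by rw [hQ2, mem_filter, mem_Ioc]; exact ⟨⟨by omega, hqD⟩, hqp⟩) hpq
  have h2K : (2 : ℕ) ≤ D := by omega
  have hMne : ∀ m ∈ M, m ≠ 0 := by
    rintro m hm rfl
    rw [hM, mem_filter] at hm
    have h1 := hm.2 2 (mem_PP.mpr ⟨Nat.prime_two, h2K⟩)
    apply h1
    have : s 2 = 0 := by
      simp only [hs]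
      rw [if_pos (by omega)]
    rw [this]
  refine ⟨insert 0 (M.image (fun m => m + 1)), mem_insert_self _ _, ?_, ?_, ?_⟩
  · intro h hh
    rw [mem_insert, mem_image] at hh
    rcases hh with rfl | ⟨m, hm, rfl⟩
    · exact Nat.zero_le _
    · rw [hM, mem_filter, mem_range] at hm
      exact hm.1
  · intro p hp
    have hp2 := hp.two_le
    by_cases hpD : p ≤ D
    · have hsp := hslt p hp hpD
      refine ⟨p - 1 - s p, ?_⟩
      intro h hh
      rw [mem_insert, mem_image] at hh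
      rcases hh with rfl | ⟨m, hm, rfl⟩
      · rw [add_zero]
        exact Nat.not_dvd_of_pos_of_lt (by omega) (by omega)
      · rw [hM, mem_filter, mem_range] at hm
        have h1 := hm.2 p (mem_PP.mpr ⟨hp, hpD⟩)
        intro hdvd
        apply h1
        have h2 : p - 1 - s p + (m + 1) + s p = p + m := by omega
        have h3 : p - 1 - s p + (m + 1) + s p ≡ 0 + s p [MOD p] :=
          Nat.ModEq.add_right _ ((Nat.modEq_zero_iff_dvd).mpr hdvd)
        rw [h2, zero_add] at h3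
        have h4 : p + m ≡ 0 + m [MOD p] :=
          Nat.ModEq.add_right _ ((Nat.modEq_zero_iff_dvd).mpr (dvd_refl p))
        rw [zero_add] at h4
        exact h4.symm.trans h3
    · refine ⟨p - 1, ?_⟩
      intro h hh
      rw [mem_insert, mem_image] at hh
      rcases hh with rfl | ⟨m, hm, rfl⟩
      · rw [add_zero]
        exact Nat.not_dvd_of_pos_of_lt (by omega) (by omega)
      · have h0 := hMne m hm
        rw [hM, mem_filter, mem_range] at hm
        have h1 : p - 1 + (m + 1) = p + m := by omega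
        rw [h1, Nat.dvd_add_right (dvd_refl p)]
        exact Nat.not_dvd_of_pos_of_lt (by omega) (by omega)
  · intro N hN
    have hN0 : N.Prime := by simpa using hN 0 (mem_insert_self _ _)
    have hmem : ∀ m ∈ M, (N + (m + 1)).Prime := fun m hm =>
      hN (m + 1) (mem_insert_of_mem (mem_image.mpr ⟨m, hm, rfl⟩))
    have key : ∀ p : ℕ, p.Prime → p ≤ y → p ∣ N + 1 + s p := by
      intro p hp hpy
      by_contra hcon
      have hsp := hslt p hp (by omega)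
      have hp2 := hp.two_le
      -- the class of `-(N+1)`
      set a := (p - (N + 1) % p) % p with ha
      have hap : a < p := Nat.mod_lt _ hp.pos
      have hmod : N + 1 + a ≡ 0 [MOD p] := by
        have h1 : N + 1 + a ≡ (N + 1) % p + (p - (N + 1) % p) [MOD p] :=
          Nat.ModEq.add (Nat.mod_modEq _ _).symm (Nat.mod_modEq _ _)
        have h2 : (N + 1) % p + (p - (N + 1) % p) = p := by
          have := Nat.mod_lt (N + 1) hp.pos
          omega
        rw [h2] at h1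
        exact h1.trans ((Nat.modEq_zero_iff_dvd).mpr (dvd_refl p))
      have has : a ≠ s p := by
        intro h
        rw [h] at hmod
        exact hcon ((Nat.modEq_zero_iff_dvd).mp hmod)
      obtain ⟨m, hm, hma⟩ := hhit p a hp hpy hap has
      have h3 : p ∣ N + (m + 1) := by
        have h4 : N + 1 + m ≡ N + 1 + a [MOD p] := Nat.ModEq.add_left _ hma
        have h5 : N + (m + 1) = N + 1 + m := by ring
        rw [h5]
        exact (Nat.modEq_zero_iff_dvd).mp (h4.trans hmod)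
      have h8 : N + (m + 1) = p := ((Nat.prime_dvd_prime_iff_eq hp (hmem m hm)).mp h3).symm
      have hN2 := hN0.two_le
      have hsN := hslt N hN0 (by omega)
      obtain ⟨m', hm', hma'⟩ := hhit N (N - 1) hN0 (by omega) (by omega) (by omega)
      have h9 : N ∣ N + (m' + 1) := by
        have h10 : m' + 1 ≡ N - 1 + 1 [MOD N] := Nat.ModEq.add_right 1 hma'
        have h11 : N - 1 + 1 = N := by omega
        rw [h11] at h10
        have h12 := (Nat.modEq_zero_iff_dvd).mp (h10.trans ((Nat.modEq_zero_iff_dvd).mpr (dvd_refl N)))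
        exact (Nat.dvd_add_right (dvd_refl N)).mpr h12
      have h13 := (Nat.prime_dvd_prime_iff_eq hN0 (hmem m' hm')).mp h9
      omega
    by_contra hlt
    push Not at hlt
    have h1 : N + 1 ∈ (Icc 1 X).filter (fun n => ∀ q ∈ Q1, q ∣ n + s1 q) := by
      rw [mem_filter, mem_Icc]
      refine ⟨⟨by omega, by omega⟩, ?_⟩
      intro q hq
      obtain ⟨hqp, hKq, hqy⟩ := hQ1p q hq
      have h2 := key q hqp hqy
      have h3 : s q = s1 q := by
        simp only [hs]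
        rw [if_neg (by omega), if_pos hqy]
      rw [h3] at h2
      exact h2
    rw [hC0] at h1
    simp at h1

end Pool.Agent.H10.Least
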