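import Pool.Agent.H10.Least3
import Pool.Agent.H10.First4
set_option autoImplicit false

namespace Pool.Agent.H10.Least

open Finset Filter Topology Pool.Agent.H10.First

lemma sum_dyadic (k : ℕ) (hk : 1 ≤ k) :
    ∑ p ∈ (Ioc (2 ^ k) (2 ^ (k + 1))).filter Nat.Prime, (1 : ℝ) / p ≤ 4 / k := by
  have hk' : (1 : ℝ) ≤ k := by exact_mod_cast hk
  have hlog2 : 0 < Real.log 2 := Real.log_pos (by norm_num)
  have h2k : (0 : ℝ) < 2 ^ k := by positivity
  have h1 : ∀ p ∈ (Ioc (2 ^ k) (2 ^ (k + 1))).filter Nat.Prime,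
      (1 : ℝ) / p ≤ (1 / (2 ^ k * (k * Real.log 2))) * Real.log p := by
    intro p hp
    simp only [mem_filter, mem_Ioc] at hp
    have hp1 : (2 : ℝ) ^ k ≤ p := by exact_mod_cast hp.1.1.le
    have hp0 : (0 : ℝ) < p := lt_of_lt_of_le h2k hp1
    have hl : k * Real.log 2 ≤ Real.log p := by
      rw [← Real.log_pow]
      exact Real.log_le_log h2k hp1
    calc (1 : ℝ) / p ≤ 1 / 2 ^ k := by gcongr
      _ = (1 / (2 ^ k * (k * Real.log 2))) * (k * Real.log 2) := by field_simp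
      _ ≤ _ := by gcongr
  have h2 : ∑ p ∈ (Ioc (2 ^ k) (2 ^ (k + 1))).filter Nat.Prime, Real.log p ≤ Real.log 4 * 2 ^ (k + 1) := by
    have h3 := Chebyshev.theta_le_log4_mul_x (x := (2 : ℝ) ^ (k + 1)) (by positivity)
    refine le_trans ?_ h3
    rw [Chebyshev.theta]
    have hfl : ⌊(2 : ℝ) ^ (k + 1)⌋₊ = 2 ^ (k + 1) := by
      have : ((2 : ℝ) ^ (k + 1)) = ((2 ^ (k + 1) : ℕ) : ℝ) := by push_cast; rfl
      rw [this, Nat.floor_natCast]
    rw [hfl]
    apply sum_le_sum_of_subset_of_nonneg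
    · intro p hp
      simp only [mem_filter, mem_Ioc] at hp ⊢
      exact ⟨⟨by omega, hp.1.2⟩, hp.2⟩
    · intro p hp _
      simp only [mem_filter, mem_Ioc] at hp
      apply Real.log_nonneg
      exact_mod_cast hp.2.one_lt.le
  calc _ ≤ ∑ p ∈ (Ioc (2 ^ k) (2 ^ (k + 1))).filter Nat.Prime,
        (1 / (2 ^ k * (k * Real.log 2))) * Real.log p := sum_le_sum h1
    _ = (1 / (2 ^ k * (k * Real.log 2))) * ∑ p ∈ (Ioc (2 ^ k) (2 ^ (k + 1))).filter Nat.Prime,
        Real.log p := by rw [mul_sum]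
    _ ≤ (1 / (2 ^ k * (k * Real.log 2))) * (Real.log 4 * 2 ^ (k + 1)) := by gcongr
    _ = 4 / k := by
        have : Real.log 4 = 2 * Real.log 2 := by
          rw [show (4 : ℝ) = 2 ^ 2 by norm_num, Real.log_pow]; norm_num
        rw [this, pow_succ]
        field_simp
        norm_num

/-- the sum of reciprocals of the primes in `(2, 2 ^ m]` -/
lemma sum_recip (m : ℕ) (hm : 1 ≤ m) :
    ∑ p ∈ (Ioc 2 (2 ^ m)).filter Nat.Prime, (1 : ℝ) / p ≤ 4 * (1 + Real.log m) := by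
  have h1 : ∀ m : ℕ, 1 ≤ m → ∑ p ∈ (Ioc 2 (2 ^ m)).filter Nat.Prime, (1 : ℝ) / p
      ≤ 4 * ∑ k ∈ Ico 1 m, (1 : ℝ) / k := by
    intro m hm
    induction m, hm using Nat.le_induction with
    | base => simp
    | succ m hm ih =>
      rw [sum_Ico_succ_top hm]
      have h1 : (Ioc 2 (2 ^ (m + 1))).filter Nat.Prime
          = (Ioc 2 (2 ^ m)).filter Nat.Prime ∪ (Ioc (2 ^ m) (2 ^ (m + 1))).filter Nat.Prime := by
        rw [← filter_union]
        congr 1
        rw [Ioc_union_Ioc_eq_Ioc]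
        · calc 2 = 2 ^ 1 := by norm_num
            _ ≤ 2 ^ m := Nat.pow_le_pow_right (by norm_num) hm
        · exact Nat.pow_le_pow_right (by norm_num) (Nat.le_succ m)
      rw [h1, sum_union]
      · have h2 := sum_dyadic m hm
        have h3 : (4 : ℝ) / m = 4 * (1 / m) := by ring
        rw [h3] at h2
        rw [mul_add]
        exact add_le_add ih h2
      · rw [disjoint_left]
        intro p hp hp'
        simp only [mem_filter, mem_Ioc] at hp hp'
        omega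
  refine (h1 m hm).trans ?_
  apply mul_le_mul_of_nonneg_left _ (by norm_num)
  have h2 := harmonic_le_one_add_log m
  rw [harmonic_eq_sum_Icc] at h2
  push_cast at h2
  refine le_trans ?_ h2
  have h3 : ∑ k ∈ Ico 1 m, (1 : ℝ) / k = ∑ k ∈ Ico 1 m, ((k : ℝ))⁻¹ :=
    sum_congr rfl (fun k _ => one_div _)
  rw [h3]
  apply sum_le_sum_of_subset_of_nonneg
  · intro k hk
    rw [mem_Ico] at hk
    rw [mem_Icc]
    omega
  · intro k _ _
    positivity

lemma exp_le_one_sub {t : ℝ} (h0 : 0 ≤ t) (h1 : t ≤ 1 / 2) : Real.exp (-(2 * t)) ≤ 1 - t := by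
  have h2 : (1 - t) * Real.exp (2 * t) ≥ 1 := by
    have h3 := Real.add_one_le_exp (2 * t)
    have h4 : (1 - t) * (2 * t + 1) ≤ (1 - t) * Real.exp (2 * t) :=
      mul_le_mul_of_nonneg_left h3 (by linarith)
    nlinarith
  rw [Real.exp_neg, inv_le_iff_one_le_mul₀ (Real.exp_pos _)]
  exact h2

lemma prod_ge_exp (S : Finset ℕ) (t : ℕ → ℝ) (h0 : ∀ q ∈ S, 0 ≤ t q) (h1 : ∀ q ∈ S, t q ≤ 1 / 2) :
    Real.exp (-(2 * ∑ q ∈ S, t q)) ≤ ∏ q ∈ S, (1 - t q) := by
  rw [mul_sum, ← sum_neg_distrib, Real.exp_sum]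
  exact prod_le_prod (fun q _ => (Real.exp_pos _).le)
    (fun q hq => exp_le_one_sub (h0 q hq) (h1 q hq))

lemma V_lower (K m : ℕ) (hm : 1 ≤ m) (hK : K ≤ 2 ^ m) :
    Real.exp (-9) / (m : ℝ) ^ 8 ≤ ∏ q ∈ PP K, (1 - 1 / (q : ℝ)) := by
  have hmr : (1 : ℝ) ≤ m := by exact_mod_cast hm
  have h1 := prod_ge_exp (PP K) (fun q => 1 / (q : ℝ)) (fun q _ => by positivity) (by
    intro q hq
    have : (2 : ℝ) ≤ q := by exact_mod_cast (mem_PP.mp hq).1.two_le
    exact one_div_le_one_div_of_le (by norm_num) this)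
  refine le_trans ?_ h1
  have h2 : ∑ q ∈ PP K, 1 / (q : ℝ) ≤ 1 / 2 + 4 * (1 + Real.log m) := by
    have h3 : PP K ⊆ insert 2 ((Ioc 2 (2 ^ m)).filter Nat.Prime) := by
      intro q hq
      rw [mem_PP] at hq
      rw [mem_insert, mem_filter, mem_Ioc]
      by_cases h : q = 2
      · left; exact h
      · right
        have := hq.1.two_le
        exact ⟨⟨by omega, by omega⟩, hq.1⟩
    calc ∑ q ∈ PP K, 1 / (q : ℝ) ≤ ∑ q ∈ insert 2 ((Ioc 2 (2 ^ m)).filter Nat.Prime), 1 / (q : ℝ) :=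
          sum_le_sum_of_subset_of_nonneg h3 (fun q _ _ => by positivity)
      _ = 1 / 2 + ∑ p ∈ (Ioc 2 (2 ^ m)).filter Nat.Prime, (1 : ℝ) / p := by
          rw [sum_insert (by simp)]
          norm_num
      _ ≤ _ := by
          have := sum_recip m hm
          linarith
  have h4 : Real.exp (-9) / (m : ℝ) ^ 8 = Real.exp (-9 - 8 * Real.log m) := by
    rw [sub_eq_add_neg, Real.exp_add, Real.exp_neg (8 * Real.log m)]
    have : Real.exp (8 * Real.log m) = (m : ℝ) ^ 8 := by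
      have h5 : (8 : ℝ) * Real.log m = Real.log ((m : ℝ) ^ 8) := by
        rw [Real.log_pow]
        norm_num
      rw [h5, Real.exp_log (by positivity)]
    rw [this, div_eq_mul_inv]
  rw [h4, Real.exp_le_exp]
  linarith

lemma sigma_lower (K D m : ℕ) (hm : 1 ≤ m) (hK : 2 ≤ K) (hD : D ≤ 2 ^ m) :
    Real.exp (-16) / (m : ℝ) ^ 16
      ≤ ∏ q ∈ (Ioc K D).filter Nat.Prime, (1 - 1 / ((q : ℝ) - 1)) := by
  have hmr : (1 : ℝ) ≤ m := by exact_mod_cast hm
  have h3 : ∀ q ∈ (Ioc K D).filter Nat.Prime, (3 : ℝ) ≤ q := by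
    intro q hq
    rw [mem_filter, mem_Ioc] at hq
    exact_mod_cast (by omega : 3 ≤ q)
  have h1 := prod_ge_exp ((Ioc K D).filter Nat.Prime) (fun q => 1 / ((q : ℝ) - 1)) (by
      intro q hq
      have := h3 q hq
      exact div_nonneg (by norm_num) (by linarith)) (by
    intro q hq
    have := h3 q hq
    exact one_div_le_one_div_of_le (by norm_num) (by linarith))
  refine le_trans ?_ h1
  have h2 : ∑ q ∈ (Ioc K D).filter Nat.Prime, 1 / ((q : ℝ) - 1) ≤ 8 * (1 + Real.log m) := by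
    calc ∑ q ∈ (Ioc K D).filter Nat.Prime, 1 / ((q : ℝ) - 1)
        ≤ ∑ q ∈ (Ioc K D).filter Nat.Prime, 2 * (1 / (q : ℝ)) := by
          apply sum_le_sum
          intro q hq
          have := h3 q hq
          rw [mul_one_div, div_le_div_iff₀ (by linarith) (by linarith)]
          linarith
      _ ≤ ∑ q ∈ (Ioc 2 (2 ^ m)).filter Nat.Prime, 2 * (1 / (q : ℝ)) := by
          apply sum_le_sum_of_subset_of_nonneg
          · intro q hq
            rw [mem_filter, mem_Ioc] at hq ⊢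
            exact ⟨⟨by omega, by omega⟩, hq.2⟩
          · intro q _ _
            positivity
      _ = 2 * ∑ q ∈ (Ioc 2 (2 ^ m)).filter Nat.Prime, (1 / (q : ℝ)) := by rw [mul_sum]
      _ ≤ _ := by
          have := sum_recip m hm
          linarith
  have h4 : Real.exp (-16) / (m : ℝ) ^ 16 = Real.exp (-16 - 16 * Real.log m) := by
    rw [sub_eq_add_neg, Real.exp_add, Real.exp_neg (16 * Real.log m)]
    have : Real.exp (16 * Real.log m) = (m : ℝ) ^ 16 := by
      have h5 : (16 : ℝ) * Real.log m = Real.log ((m : ℝ) ^ 16) := by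
        rw [Real.log_pow]
        norm_num
      rw [h5, Real.exp_log (by positivity)]
    rw [this, div_eq_mul_inv]
  rw [h4, Real.exp_le_exp]
  linarith

lemma T_lower (K y : ℕ) (hK : 2 ≤ K) (hKy : K ≤ y) :
    Real.exp ((Chebyshev.theta y - Real.log 4 * K) / 2)
      ≤ ∏ q ∈ (Ioc K y).filter Nat.Prime, ((q : ℝ) - 1) := by
  have h3 : ∀ q ∈ (Ioc K y).filter Nat.Prime, (3 : ℝ) ≤ q := by
    intro q hq
    rw [mem_filter, mem_Ioc] at hq
    exact_mod_cast (by omega : 3 ≤ q)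
  have hpos : (0 : ℝ) < ∏ q ∈ (Ioc K y).filter Nat.Prime, ((q : ℝ) - 1) :=
    prod_pos fun q hq => by have := h3 q hq; linarith
  rw [← Real.le_log_iff_exp_le hpos, Real.log_prod (by
    intro q hq
    have := h3 q hq
    linarith)]
  have h1 : ∀ q ∈ (Ioc K y).filter Nat.Prime, Real.log q / 2 ≤ Real.log ((q : ℝ) - 1) := by
    intro q hq
    have h4 := h3 q hq
    have h5 : Real.log q ≤ Real.log (((q : ℝ) - 1) ^ 2) := by
      apply Real.log_le_log (by linarith)
      nlinarith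
    rw [Real.log_pow] at h5
    push_cast at h5
    linarith
  refine le_trans ?_ (sum_le_sum h1)
  rw [← sum_div]
  apply div_le_div_of_nonneg_right _ (by norm_num)
  have h5 := Chebyshev.theta_le_log4_mul_x (x := (K : ℝ)) (by positivity)
  have h6 : Chebyshev.theta (y : ℝ) = Chebyshev.theta (K : ℝ)
      + ∑ q ∈ (Ioc K y).filter Nat.Prime, Real.log q := by
    rw [Chebyshev.theta, Chebyshev.theta, Nat.floor_natCast, Nat.floor_natCast, ← sum_union]
    · rw [← filter_union, Ioc_union_Ioc_eq_Ioc (by omega) hKy]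
    · rw [disjoint_left]
      intro q h1 h2
      simp only [mem_filter, mem_Ioc] at h1 h2
      omega
  linarith

end Pool.Agent.H10.Least
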