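import Pool.Agent.H10.Least4
set_option autoImplicit false

namespace Pool.Agent.H10.Least

open Finset Filter Topology Pool.Agent.H10.First

lemma ev_log_sq (a : ℝ) (ha : 0 < a) : ∀ᶠ l : ℕ in atTop, (Real.log l) ^ 2 ≤ a * l := by
  have h1 : (fun x : ℝ => Real.log x ^ 2) =o[atTop] (id : ℝ → ℝ) := Real.isLittleO_pow_log_id_atTop
  have h2 := tendsto_natCast_atTop_atTop.eventually (h1.bound ha)
  filter_upwards [h2] with l hl
  have h3 : ‖(id (l : ℝ))‖ = (l : ℝ) := by simp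
  rw [h3] at hl
  exact (le_abs_self _).trans hl

lemma ev_pow (a : ℝ) (ha : 0 < a) (n : ℕ) : ∀ᶠ l : ℕ in atTop, a * (l : ℝ) ^ n ≤ 2 ^ l := by
  have h1 := tendsto_pow_const_div_const_pow_of_one_lt n (one_lt_two : (1 : ℝ) < 2)
  have h2 := h1.eventually (eventually_le_nhds (show (0 : ℝ) < 1 / a by positivity))
  filter_upwards [h2] with l hl
  rw [div_le_iff₀ (by positivity)] at hl
  have h3 := mul_le_mul_of_nonneg_left hl ha.le
  have h4 : a * (1 / a * 2 ^ l) = (2 : ℝ) ^ l := by field_simp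
  rw [h4] at h3
  exact h3

lemma ev_small (ε : ℝ) (hε : 0 < ε) : ∀ᶠ l : ℕ in atTop,
    2 * ((((l ^ 40 : ℕ) : ℝ)) ^ (3 * Nat.clog 2 (l ^ 40) + 2 + 4)) ≤ (2 : ℝ) ^ ((ε / 2) * (l : ℝ)) := by
  have hlog : Tendsto (fun l : ℕ => Real.log (l : ℝ)) atTop atTop :=
    Real.tendsto_log_atTop.comp tendsto_natCast_atTop_atTop
  filter_upwards [ev_log_sq (ε / 2 / 40000) (by positivity), hlog.eventually (eventually_ge_atTop 1),
    eventually_ge_atTop 3] with l hl1 hl2 hl3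
  set L := Real.log (l : ℝ) with hL
  have hl0 : (3 : ℝ) ≤ l := by exact_mod_cast hl3
  set c := Nat.clog 2 (l ^ 40) with hc
  have hc1 : (c : ℝ) ≤ 100 * L := by
    have h2 : 2 ^ (c - 1) < l ^ 40 := by
      rw [hc]
      exact Nat.pow_pred_clog_lt_self (by norm_num) (by
        calc 1 < 3 ^ 40 := by norm_num
          _ ≤ l ^ 40 := Nat.pow_le_pow_left hl3 40)
    have h3 : ((2 : ℝ) ^ (c - 1)) < (l : ℝ) ^ 40 := by exact_mod_cast h2
    have h4 := Real.log_lt_log (by positivity) h3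
    rw [Real.log_pow, Real.log_pow, ← hL] at h4
    have h5 : 1 ≤ c := Nat.clog_pos (by norm_num) (by
        calc 2 ≤ 3 ^ 40 := by norm_num
          _ ≤ l ^ 40 := Nat.pow_le_pow_left hl3 40)
    rw [Nat.cast_sub h5] at h4
    push_cast at h4
    have hl2' := Real.log_two_gt_d9
    nlinarith
  have hK : (((l ^ 40 : ℕ) : ℝ)) ≤ (2 : ℝ) ^ c := by
    have := Nat.le_pow_clog (b := 2) (by norm_num) (l ^ 40)
    rw [← hc] at this
    exact_mod_cast this
  have h6 : (((l ^ 40 : ℕ) : ℝ)) ^ (3 * c + 2 + 4) ≤ (2 : ℝ) ^ (c * (3 * c + 2 + 4)) := by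
    rw [pow_mul]
    exact pow_le_pow_left₀ (by positivity) hK _
  calc 2 * ((((l ^ 40 : ℕ) : ℝ)) ^ (3 * c + 2 + 4)) ≤ 2 * (2 : ℝ) ^ (c * (3 * c + 2 + 4)) :=
        mul_le_mul_of_nonneg_left h6 (by norm_num)
    _ = (2 : ℝ) ^ (((c * (3 * c + 2 + 4) + 1 : ℕ)) : ℝ) := by
        rw [Real.rpow_natCast, pow_succ]
        ring
    _ ≤ (2 : ℝ) ^ ((ε / 2) * (l : ℝ)) := by
        apply Real.rpow_le_rpow_of_exponent_le (by norm_num)
        push_cast
        have h7 : (0 : ℝ) ≤ c := by positivity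
        have h8 : (c : ℝ) * c ≤ (100 * L) * (100 * L) := mul_le_mul hc1 hc1 h7 (by linarith)
        have h9 : L ≤ L ^ 2 := by nlinarith
        have h10 : 40000 * L ^ 2 ≤ ε / 2 * l := by
          have := hl1
          rw [div_mul_eq_mul_div, le_div_iff₀ (by norm_num)] at this
          linarith
        nlinarith

lemma ev_main : ∀ᶠ l : ℕ in atTop,
    2 * ((l : ℝ) + 1) + 1 ≤ Real.exp (-16) / ((l : ℝ) + 1) ^ 16
      * ((l : ℝ) ^ 40 * (Real.exp (-9) / (l : ℝ) ^ 8) / 2 - 1) := by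
  obtain ⟨n, hn⟩ := exists_nat_gt (2 ^ 20 * Real.exp 25)
  filter_upwards [eventually_ge_atTop (n + 1)] with l hl
  have hl1 : (1 : ℝ) ≤ l := by exact_mod_cast (by omega : 1 ≤ l)
  have hln : 2 ^ 20 * Real.exp 25 ≤ (l : ℝ) := by
    have h1 : ((n : ℝ)) ≤ l := by exact_mod_cast (by omega : n ≤ l)
    linarith
  have hl0 : (0 : ℝ) < l := by linarith
  have h1 : ((l : ℝ) + 1) ^ 16 ≤ (2 * l) ^ 16 := pow_le_pow_left₀ (by linarith) (by linarith) _
  have h2 : (l : ℝ) ^ 40 * (Real.exp (-9) / (l : ℝ) ^ 8) / 2 = (l : ℝ) ^ 32 * Real.exp (-9) / 2 := by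
    field_simp
  rw [h2]
  have he9 : Real.exp 9 * Real.exp (-9) = 1 := by rw [← Real.exp_add]; norm_num
  have he16 : Real.exp 16 * Real.exp (-16) = 1 := by rw [← Real.exp_add]; norm_num
  have he25 : Real.exp 25 = Real.exp 9 * Real.exp 16 := by rw [← Real.exp_add]; norm_num
  have hp9 := Real.exp_pos (9 : ℝ)
  have hp9' := Real.exp_pos (-9 : ℝ)
  have hp16 := Real.exp_pos (16 : ℝ)
  have hp16' := Real.exp_pos (-16 : ℝ)
  have h16 : (1 : ℝ) ≤ Real.exp 16 := Real.one_le_exp (by norm_num)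
  have h9 : (1 : ℝ) ≤ Real.exp 9 := Real.one_le_exp (by norm_num)
  have h3 : 4 * Real.exp 9 ≤ (l : ℝ) ^ 32 := by
    have h4 : (l : ℝ) ^ 1 ≤ (l : ℝ) ^ 32 := pow_le_pow_right₀ hl1 (by norm_num)
    rw [pow_one] at h4
    rw [he25] at hln
    nlinarith
  have h4 : (1 : ℝ) ≤ (l : ℝ) ^ 32 * Real.exp (-9) / 4 := by
    have := mul_le_mul_of_nonneg_right h3 hp9'.le
    nlinarith
  have h5 : (l : ℝ) ^ 32 * Real.exp (-9) / 4 ≤ (l : ℝ) ^ 32 * Real.exp (-9) / 2 - 1 := by linarith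
  have h6 : Real.exp (-16) / (2 * (l : ℝ)) ^ 16 ≤ Real.exp (-16) / ((l : ℝ) + 1) ^ 16 := by
    apply div_le_div_of_nonneg_left hp16'.le (by positivity) h1
  calc 2 * ((l : ℝ) + 1) + 1 ≤ 5 * l := by linarith
    _ ≤ Real.exp (-16) / (2 * (l : ℝ)) ^ 16 * ((l : ℝ) ^ 32 * Real.exp (-9) / 4) := by
        have h7 : Real.exp (-16) / (2 * (l : ℝ)) ^ 16 * ((l : ℝ) ^ 32 * Real.exp (-9) / 4)
            = (l : ℝ) ^ 16 * (Real.exp (-16) * Real.exp (-9)) / 2 ^ 18 := by
          rw [mul_pow]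
          field_simp
          ring
        rw [h7, le_div_iff₀ (by positivity)]
        have h8 : (l : ℝ) * l ≤ (l : ℝ) ^ 16 := by
          have := pow_le_pow_right₀ hl1 (show 2 ≤ 16 by norm_num)
          rw [sq] at this
          exact this
        have h9 : 5 * 2 ^ 18 * (Real.exp 9 * Real.exp 16) ≤ 2 * (l : ℝ) := by
          rw [he25] at hln
          nlinarith [mul_pos hp9 hp16]
        have h10 : 5 * 2 ^ 18 ≤ 2 * (l : ℝ) * (Real.exp (-16) * Real.exp (-9)) := by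
          have := mul_le_mul_of_nonneg_right h9 (mul_pos hp16' hp9').le
          have h11 : 5 * 2 ^ 18 * (Real.exp 9 * Real.exp 16) * (Real.exp (-16) * Real.exp (-9))
              = 5 * 2 ^ 18 * ((Real.exp 9 * Real.exp (-9)) * (Real.exp 16 * Real.exp (-16))) := by
            ring
          rw [h11, he9, he16] at this
          linarith
        have h13 : (2 : ℝ) ≤ l := by
          rw [he25] at hln
          nlinarith [mul_pos hp9 hp16]
        have h14 : 2 * ((l : ℝ) * l) ≤ (l : ℝ) ^ 16 := by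
          have h15 := pow_le_pow_right₀ hl1 (show 3 ≤ 16 by norm_num)
          have h16 : (l : ℝ) ^ 3 = l * (l * l) := by ring
          rw [h16] at h15
          nlinarith
        have h12 := mul_le_mul_of_nonneg_right h14 (mul_pos hp16' hp9').le
        have h17 := mul_le_mul_of_nonneg_left h10 hl0.le
        linarith [h12, h17, (by ring : (l : ℝ) * (2 * (l : ℝ) * (Real.exp (-16) * Real.exp (-9)))
          = 2 * ((l : ℝ) * l) * (Real.exp (-16) * Real.exp (-9)))]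
    _ ≤ Real.exp (-16) / ((l : ℝ) + 1) ^ 16 * ((l : ℝ) ^ 32 * Real.exp (-9) / 4) :=
        mul_le_mul_of_nonneg_right h6 (by positivity)
    _ ≤ _ := mul_le_mul_of_nonneg_left h5 (by positivity)

end Pool.Agent.H10.Least
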