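import Pool.Agent.H10.Least5
set_option autoImplicit false

namespace Pool.Agent.H10.Least

open Finset Filter Topology Pool.Agent.H10.First

lemma tendsto_log2 : Tendsto (fun D : ℕ => Nat.log 2 D) atTop atTop := by
  rw [tendsto_atTop]
  intro b
  filter_upwards [eventually_ge_atTop (2 ^ b)] with D hD
  exact Nat.le_log_of_pow_le (by norm_num) hD

theorem least_aux (ε : ℝ) (hε : 0 < ε) (hε1 : ε ≤ 1) : ∀ᶠ D : ℕ in atTop,
    ∃ H : Finset ℕ, 0 ∈ H ∧ (∀ h ∈ H, h ≤ D) ∧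
      (∀ p : ℕ, p.Prime → ∃ c : ℕ, ∀ h ∈ H, ¬ p ∣ c + h) ∧
      ∀ N : ℕ, (∀ h ∈ H, (N + h).Prime) → Real.exp ((D : ℝ) ^ (1 - ε)) ≤ N := by
  obtain ⟨Z, hZ⟩ := eventually_atTop.mp theta_lower
  have hrt : ∀ δ : ℝ, 0 < δ → Tendsto (fun D : ℕ => (D : ℝ) ^ δ) atTop atTop := fun δ hδ =>
    (tendsto_rpow_atTop hδ).comp tendsto_natCast_atTop_atTop
  filter_upwards [tendsto_log2.eventually (ev_small ε hε), tendsto_log2.eventually ev_main,
    tendsto_log2.eventually (ev_pow 10000 (by norm_num) 80),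
    tendsto_log2.eventually (ev_pow 1 (by norm_num) 40),
    tendsto_log2.eventually (eventually_ge_atTop 3),
    (hrt (ε / 2) (by positivity)).eventually (eventually_ge_atTop 20),
    (hrt (1 / 2) (by norm_num)).eventually (eventually_ge_atTop (Z : ℝ)),
    eventually_ge_atTop 10] with D h1 h2 h3 h4 h5 h6 h7 h8
  set l := Nat.log 2 D with hl
  have hDr : (10 : ℝ) ≤ D := by exact_mod_cast h8
  have hD0 : (0 : ℝ) < D := by linarith
  have hpow : 2 ^ l ≤ D := Nat.pow_log_le_self 2 (by omega)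
  have hpow2 : D < 2 ^ (l + 1) := Nat.lt_pow_succ_log_self (by norm_num) D
  have hpowr : (2 : ℝ) ^ l ≤ D := by exact_mod_cast hpow
  have hl3 : (3 : ℝ) ≤ l := by exact_mod_cast h5
  have hl0 : (0 : ℝ) < l := by linarith
  set K := l ^ 40 with hKdef
  have hKcast : (K : ℝ) = (l : ℝ) ^ 40 := by rw [hKdef]; push_cast; rfl
  have hK4 : 4 ≤ K := by
    calc 4 ≤ 3 ^ 40 := by norm_num
      _ ≤ l ^ 40 := Nat.pow_le_pow_left h5 40
  have hK0 : (0 : ℝ) < K := by exact_mod_cast (by omega : 0 < K)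
  set c := Nat.clog 2 K with hc
  have hc1 : 1 ≤ c := Nat.clog_pos (by norm_num) (by omega)
  have hKc : K ≤ 2 ^ c := Nat.le_pow_clog (by norm_num) K
  have hcl : c ≤ l := by
    apply Nat.clog_le_of_le_pow
    have : ((K : ℕ) : ℝ) ≤ 2 ^ l := by rw [hKcast]; linarith
    exact_mod_cast this
  have hr : 8 * K ^ 3 ≤ 2 ^ (3 * c + 2 + 1) := by
    have h2 : K ^ 3 ≤ (2 ^ c) ^ 3 := Nat.pow_le_pow_left hKc 3
    have h3 : 2 ^ (3 * c + 2 + 1) = 8 * (2 ^ c) ^ 3 := by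
      rw [← pow_mul]
      ring
    rw [h3]
    exact Nat.mul_le_mul_left 8 h2
  set M := K ^ (3 * c + 2 + 4) with hM
  have hMpos : 0 < M := by rw [hM]; positivity
  have hMr : (0 : ℝ) < M := by exact_mod_cast hMpos
  have hM2 : 2 * (M : ℝ) ≤ (D : ℝ) ^ (ε / 2) := by
    have e1 : (M : ℝ) = ((l ^ 40 : ℕ) : ℝ) ^ (3 * Nat.clog 2 (l ^ 40) + 2 + 4) := by
      rw [hM, Nat.cast_pow]
    rw [e1]
    refine h1.trans ?_
    have e2 : (2 : ℝ) ^ ((ε / 2) * (l : ℝ)) = ((2 : ℝ) ^ l) ^ (ε / 2) := by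
      rw [mul_comm, Real.rpow_mul (by norm_num), Real.rpow_natCast]
    rw [e2]
    exact Real.rpow_le_rpow (by positivity) hpowr (by positivity)
  set y := D / M with hy
  have hyM : y * M ≤ D := Nat.div_mul_le_self D M
  have hsplit : (D : ℝ) ^ (1 - ε / 2) * (D : ℝ) ^ (ε / 2) = D := by
    rw [← Real.rpow_add hD0]
    have : 1 - ε / 2 + ε / 2 = 1 := by ring
    rw [this, Real.rpow_one]
  have hge1 : (1 : ℝ) ≤ (D : ℝ) ^ (1 - ε / 2) := Real.one_le_rpow (by linarith) (by linarith)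
  have hyge : (D : ℝ) ^ (1 - ε / 2) ≤ y := by
    have e1 : (D : ℝ) < (y + 1) * M := by
      have := Nat.lt_div_mul_add (a := D) hMpos
      have h9 : D < (y + 1) * M := by rw [add_mul, one_mul]; exact this
      exact_mod_cast h9
    have e2 : 2 * (D : ℝ) ^ (1 - ε / 2) * M ≤ D := by
      have := mul_le_mul_of_nonneg_left hM2 (by linarith : (0 : ℝ) ≤ (D : ℝ) ^ (1 - ε / 2))
      rw [hsplit] at this
      linarith
    have e3 : 2 * (D : ℝ) ^ (1 - ε / 2) < y + 1 := by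
      by_contra hcon
      push Not at hcon
      have := mul_le_mul_of_nonneg_right hcon hMr.le
      linarith
    linarith
  have hsqrt : (D : ℝ) ^ (1 / 2 : ℝ) ≤ (D : ℝ) ^ (1 - ε / 2) :=
    Real.rpow_le_rpow_of_exponent_le (by linarith) (by linarith)
  have h100 : 100 * (K : ℝ) ≤ y := by
    have e1 : (100 * (K : ℝ)) ^ 2 ≤ D := by
      rw [hKcast]
      calc (100 * (l : ℝ) ^ 40) ^ 2 = 10000 * (l : ℝ) ^ 80 := by ring
        _ ≤ 2 ^ l := h3
        _ ≤ D := hpowr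
    have e2 : 100 * (K : ℝ) ≤ (D : ℝ) ^ (1 / 2 : ℝ) := by
      rw [← Real.sqrt_eq_rpow]
      exact Real.le_sqrt_of_sq_le e1
    linarith
  have hKy : K ≤ y := by
    have : (K : ℝ) ≤ y := by linarith
    exact_mod_cast this
  have hyZ : Z ≤ y := by
    have : (Z : ℝ) ≤ y := by linarith
    exact_mod_cast this
  have hyD : (y : ℝ) ≤ D := by
    have : y ≤ D := Nat.div_le_self D M
    exact_mod_cast this
  have hθ := hZ y hyZ
  -- the number of elements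
  set V := ∏ q ∈ PP K, (1 - 1 / (q : ℝ)) with hV
  have hVl : Real.exp (-9) / (l : ℝ) ^ 8 ≤ V := by
    refine le_trans ?_ (V_lower K c hc1 hKc)
    have e1 : ((c : ℝ)) ^ 8 ≤ (l : ℝ) ^ 8 :=
      pow_le_pow_left₀ (by positivity) (by exact_mod_cast hcl) 8
    have e2 : (0 : ℝ) < (c : ℝ) ^ 8 := by
      have : (0 : ℝ) < c := by exact_mod_cast (by omega : 0 < c)
      positivity
    exact div_le_div_of_nonneg_left (Real.exp_pos _).le e2 e1
  have hV0 : 0 ≤ V := le_trans (by positivity) hVl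
  set n₀ := ⌊(K : ℝ) * V / 2⌋₊ with hn₀
  have hn1 : (n₀ : ℝ) ≤ (K : ℝ) * V / 2 := Nat.floor_le (by positivity)
  have hn2 : (K : ℝ) * V / 2 - 1 ≤ n₀ := by
    have := Nat.lt_floor_add_one ((K : ℝ) * V / 2)
    rw [← hn₀] at this
    linarith
  set σ := ∏ q ∈ (Ioc K D).filter Nat.Prime, (1 - 1 / ((q : ℝ) - 1)) with hσ
  have hσl : Real.exp (-16) / ((l : ℝ) + 1) ^ 16 ≤ σ := by
    have := sigma_lower K D (l + 1) (by omega) (by omega) hpow2.le
    push_cast at this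
    exact this
  have hσ01 := prod_bounds ((Ioc K D).filter Nat.Prime) (by
    intro q hq
    rw [mem_filter, mem_Ioc] at hq
    omega)
  rw [← hσ] at hσ01
  have hkey : 2 * ((l : ℝ) + 1) + 1 ≤ σ * n₀ := by
    refine h2.trans ?_
    have e1 : (l : ℝ) ^ 40 * (Real.exp (-9) / (l : ℝ) ^ 8) / 2 - 1 ≤ n₀ := by
      refine le_trans ?_ hn2
      rw [hKcast]
      have := mul_le_mul_of_nonneg_left hVl (by positivity : (0 : ℝ) ≤ (l : ℝ) ^ 40)
      linarith
    have e2 : (0 : ℝ) ≤ (n₀ : ℝ) := by positivity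
    have e3 : (0 : ℝ) ≤ Real.exp (-16) / ((l : ℝ) + 1) ^ 16 := by positivity
    calc Real.exp (-16) / ((l : ℝ) + 1) ^ 16 * ((l : ℝ) ^ 40 * (Real.exp (-9) / (l : ℝ) ^ 8) / 2 - 1)
        ≤ Real.exp (-16) / ((l : ℝ) + 1) ^ 16 * n₀ := mul_le_mul_of_nonneg_left e1 e3
      _ ≤ σ * n₀ := mul_le_mul_of_nonneg_right hσl e2
  have hDexp : (D : ℝ) ≤ Real.exp ((l : ℝ) + 1) := by
    have e1 : (D : ℝ) ≤ 2 ^ (l + 1) := by exact_mod_cast hpow2.le
    refine e1.trans ?_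
    have e2 : Real.exp ((l : ℝ) + 1) = Real.exp 1 ^ (l + 1) := by
      rw [← Real.exp_nat_mul]
      push_cast
      ring_nf
    rw [e2]
    apply pow_le_pow_left₀ (by norm_num)
    have := Real.add_one_le_exp (1 : ℝ)
    linarith
  have hfirst : (y : ℝ) ^ 2 * (1 - σ) ^ n₀ ≤ Real.exp (-1) := by
    have e1 : (1 - σ) ^ n₀ ≤ Real.exp (-(σ * n₀)) := by
      have e2 : 1 - σ ≤ Real.exp (-σ) := by
        have := Real.add_one_le_exp (-σ)
        linarith
      refine (pow_le_pow_left₀ (by linarith [hσ01.2]) e2 n₀).trans ?_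
      rw [← Real.exp_nat_mul]
      apply le_of_eq
      congr 1
      ring
    have e3 : (y : ℝ) ^ 2 ≤ Real.exp (2 * ((l : ℝ) + 1)) := by
      have : (y : ℝ) ^ 2 ≤ (Real.exp ((l : ℝ) + 1)) ^ 2 :=
        pow_le_pow_left₀ (by positivity) (hyD.trans hDexp) 2
      refine this.trans ?_
      rw [← Real.exp_nat_mul]
      apply le_of_eq
      push_cast
      ring_nf
    calc (y : ℝ) ^ 2 * (1 - σ) ^ n₀ ≤ Real.exp (2 * ((l : ℝ) + 1)) * Real.exp (-(σ * n₀)) :=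
          mul_le_mul e3 e1 (pow_nonneg (by linarith [hσ01.2]) _) (Real.exp_pos _).le
      _ = Real.exp (2 * ((l : ℝ) + 1) + -(σ * n₀)) := by rw [Real.exp_add]
      _ ≤ Real.exp (-1) := by
          apply Real.exp_le_exp.mpr
          linarith
  -- the size of `N`
  set X := ⌈Real.exp ((D : ℝ) ^ (1 - ε))⌉₊ with hX
  have hX1 : Real.exp ((D : ℝ) ^ (1 - ε)) ≤ X := Nat.le_ceil _
  have hX2 : (X : ℝ) < Real.exp ((D : ℝ) ^ (1 - ε)) + 1 := Nat.ceil_lt_add_one (Real.exp_pos _).le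
  have hTl := T_lower K y (by omega) hKy
  set T := ∏ q ∈ (Ioc K y).filter Nat.Prime, ((q : ℝ) - 1) with hT
  have hlog4 : Real.log 4 ≤ 2 := by
    have : Real.log 4 = 2 * Real.log 2 := by
      rw [show (4 : ℝ) = 2 ^ 2 by norm_num, Real.log_pow]; norm_num
    rw [this]
    have := Real.log_two_lt_d9
    linarith
  have hTl2 : Real.exp (0.3 * y) ≤ T := by
    refine le_trans ?_ hTl
    apply Real.exp_le_exp.mpr
    have := mul_le_mul_of_nonneg_right hlog4 hK0.le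
    linarith
  have hA : (1 : ℝ) ≤ (D : ℝ) ^ (1 - ε) := Real.one_le_rpow (by linarith) (by linarith)
  have hsplit2 : (D : ℝ) ^ (1 - ε) * (D : ℝ) ^ (ε / 2) = (D : ℝ) ^ (1 - ε / 2) := by
    rw [← Real.rpow_add hD0]
    congr 1
    ring
  have hbig : (D : ℝ) ^ (1 - ε) + 3 ≤ 0.3 * y := by
    have e1 : (D : ℝ) ^ (1 - ε) * 20 ≤ (D : ℝ) ^ (1 - ε) * (D : ℝ) ^ (ε / 2) :=
      mul_le_mul_of_nonneg_left h6 (by linarith)
    rw [hsplit2] at e1
    linarith
  have hsecond : (X : ℝ) / T ≤ Real.exp (-2) := by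
    have hTpos : 0 < T := lt_of_lt_of_le (Real.exp_pos _) hTl2
    rw [div_le_iff₀ hTpos]
    have e1 : (X : ℝ) ≤ Real.exp ((D : ℝ) ^ (1 - ε) + 1) := by
      rw [Real.exp_add]
      have e2 : (2 : ℝ) ≤ Real.exp 1 := by
        have := Real.add_one_le_exp (1 : ℝ)
        linarith
      have e3 : (1 : ℝ) ≤ Real.exp ((D : ℝ) ^ (1 - ε)) := Real.one_le_exp (by linarith)
      nlinarith
    have e4 : Real.exp ((D : ℝ) ^ (1 - ε) + 3) ≤ T :=
      (Real.exp_le_exp.mpr hbig).trans hTl2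
    calc (X : ℝ) ≤ Real.exp ((D : ℝ) ^ (1 - ε) + 1) := e1
      _ = Real.exp (-2) * Real.exp ((D : ℝ) ^ (1 - ε) + 3) := by
          rw [← Real.exp_add]
          congr 1
          ring
      _ ≤ Real.exp (-2) * T := mul_le_mul_of_nonneg_left e4 (Real.exp_pos _).le
  have hsum : (y : ℝ) ^ 2 * (1 - σ) ^ n₀ + X / T < 1 := by
    have e1 : Real.exp (-1) < 0.4 := by
      have := Real.exp_neg_one_lt_d9
      linarith
    have e2 : Real.exp (-2) ≤ Real.exp (-1) := Real.exp_le_exp.mpr (by norm_num)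
    linarith
  obtain ⟨H, hH0, hHD, hadm, hN⟩ := construct hK4 hKy hr hyM hn1 hsum
  refine ⟨H, hH0, hHD, hadm, ?_⟩
  intro N hN'
  have := hN N hN'
  refine hX1.trans ?_
  exact_mod_cast this

/-- the least prime translate of an admissible set in `[0, D]` can be as large as
`exp (D ^ (1 - ε))` -/
theorem least (ε : ℝ) (hε : 0 < ε) : ∃ D₀ : ℕ, ∀ D ≥ D₀,
    ∃ H : Finset ℕ, 0 ∈ H ∧ (∀ h ∈ H, h ≤ D) ∧
      (∀ p : ℕ, p.Prime → ∃ c : ℕ, ∀ h ∈ H, ¬ p ∣ c + h) ∧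
      ∀ N : ℕ, (∀ h ∈ H, (N + h).Prime) → Real.exp ((D : ℝ) ^ (1 - ε)) ≤ N := by
  have h := (least_aux (min ε 1) (lt_min hε one_pos) (min_le_right _ _)).and (eventually_ge_atTop 1)
  obtain ⟨D₀, hD₀⟩ := eventually_atTop.mp h
  refine ⟨D₀, ?_⟩
  intro D hD
  obtain ⟨⟨H, h1, h2, h3, h4⟩, hD1⟩ := hD₀ D hD
  refine ⟨H, h1, h2, h3, ?_⟩
  intro N hN
  refine le_trans ?_ (h4 N hN)
  apply Real.exp_le_exp.mpr
  apply Real.rpow_le_rpow_of_exponent_le (by exact_mod_cast hD1)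
  have := min_le_left ε 1
  linarith

end Pool.Agent.H10.Least
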