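import Mathlib
set_option autoImplicit false

namespace Pool.Agent.H10.Pattern

open Finset Real

/-- residues of `H` modulo `p` -/
def nu (H : Finset ℕ) (p : ℕ) : ℕ := (H.image (fun h => h % p)).card

/-- Chinese remainder sieve bound -/
lemma sieve (Q : Finset ℕ) (hQ : ∀ p ∈ Q, p.Prime) (H : Finset ℕ) (x : ℕ) :
    ((range x).filter (fun N => ∀ p ∈ Q, ∀ h ∈ H, ¬ p ∣ N + h)).card
      ≤ (x / (∏ p ∈ Q, p) + 1) * ∏ p ∈ Q, (p - nu H p) := by
  classical
  set A := (range x).filter (fun N => ∀ p ∈ Q, ∀ h ∈ H, ¬ p ∣ N + h) with hA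
  set q := ∏ p ∈ Q, p with hq
  set f : ℕ → ({p // p ∈ Q} → ℕ) := fun N p => N % p.1 with hf
  -- allowed residues
  set R : ℕ → Finset ℕ := fun p => (range p).filter (fun r => ∀ h ∈ H, ¬ p ∣ r + h) with hR
  have hRcard : ∀ p ∈ Q, (R p).card ≤ p - nu H p := by
    intro p hp
    have hp0 : 0 < p := (hQ p hp).pos
    -- the forbidden residues
    have h1 : ((range p).filter (fun r => ¬ ∀ h ∈ H, ¬ p ∣ r + h)).card ≥ nu H p := by
      unfold nu
      have hinj : Set.InjOn (fun a => (p - a) % p) ((H.image (fun h => h % p)) : Set ℕ) := by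
        intro a ha b hb hab
        simp only [coe_image, Set.mem_image, mem_coe] at ha hb
        obtain ⟨h, _, rfl⟩ := ha
        obtain ⟨h', _, rfl⟩ := hb
        have h1 := Nat.mod_lt h hp0
        have h2 := Nat.mod_lt h' hp0
        simp only at hab
        rcases Nat.eq_zero_or_pos (h % p) with h3 | h3
        · rcases Nat.eq_zero_or_pos (h' % p) with h4 | h4
          · rw [h3, h4]
          · rw [h3, Nat.sub_zero, Nat.mod_self, Nat.mod_eq_of_lt (by omega)] at hab
            omega
        · rcases Nat.eq_zero_or_pos (h' % p) with h4 | h4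
          · rw [h4, Nat.sub_zero, Nat.mod_self, Nat.mod_eq_of_lt (by omega)] at hab
            omega
          · have e1 : (p - h % p) % p = p - h % p := Nat.mod_eq_of_lt (by omega)
            have e2 : (p - h' % p) % p = p - h' % p := Nat.mod_eq_of_lt (by omega)
            rw [e1, e2] at hab
            omega
      have hmaps : ∀ a ∈ H.image (fun h => h % p), (p - a) % p ∈ (range p).filter (fun r => ¬ ∀ h ∈ H, ¬ p ∣ r + h) := by
        intro a ha
        obtain ⟨h, hh, rfl⟩ := mem_image.mp ha
        rw [mem_filter, mem_range]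
        refine ⟨Nat.mod_lt _ hp0, ?_⟩
        push Not
        refine ⟨h, hh, ?_⟩
        have hlt := Nat.mod_lt h hp0
        rw [Nat.dvd_iff_mod_eq_zero, Nat.add_mod, Nat.mod_mod, ← Nat.add_mod]
        have : p - h % p + h = p * (1 + h / p) := by
          have := Nat.mod_add_div h p
          have h5 : p - h % p + h % p = p := Nat.sub_add_cancel hlt.le
          nlinarith
        rw [this]
        exact Nat.mul_mod_right _ _
      exact card_le_card_of_injOn _ hmaps hinj
    have h2 := card_filter_add_card_filter_not (s := range p) (fun r => ∀ h ∈ H, ¬ p ∣ r + h)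
    rw [card_range] at h2
    have h3 : (R p).card = ((range p).filter (fun r => ∀ h ∈ H, ¬ p ∣ r + h)).card := rfl
    omega
  have himage : A.image f ⊆ Fintype.piFinset (fun p : {p // p ∈ Q} => R p.1) := by
    intro g hg
    obtain ⟨N, hN, rfl⟩ := mem_image.mp hg
    rw [Fintype.mem_piFinset]
    intro p
    rw [hA, mem_filter] at hN
    simp only [hf, hR, mem_filter, mem_range]
    refine ⟨Nat.mod_lt _ (hQ p.1 p.2).pos, fun h hh hdiv => ?_⟩
    apply hN.2 p.1 p.2 h hh
    rw [Nat.dvd_iff_mod_eq_zero] at hdiv ⊢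
    rw [Nat.add_mod, Nat.mod_mod, ← Nat.add_mod] at hdiv
    exact hdiv
  have hfib : ∀ g ∈ A.image f, (A.filter (fun N => f N = g)).card ≤ x / q + 1 := by
    intro g _
    have hinj : Set.InjOn (fun N => N / q) ((A.filter (fun N => f N = g)) : Set ℕ) := by
      intro N hN N' hN' hdiv
      simp only [coe_filter, Set.mem_ofPred_eq] at hN hN'
      have hmod : N % q = N' % q := by
        have hall : ∀ p ∈ Q, N ≡ N' [MOD p] := by
          intro p hp
          have := congrFun (hN.2.trans hN'.2.symm) ⟨p, hp⟩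
          exact this
        have hdvd : (q : ℤ) ∣ (N' : ℤ) - N := by
          have h1 : q ∣ ((N' : ℤ) - N).natAbs := by
            rw [hq]
            apply Finset.prod_primes_dvd
            · intro p hp
              exact (hQ p hp).prime
            · intro p hp
              have := (Nat.modEq_iff_dvd.mp (hall p hp))
              exact Int.natCast_dvd.mp this
          exact Int.natCast_dvd.mpr h1
        exact Nat.modEq_iff_dvd.mpr hdvd
      have h1 := Nat.div_add_mod N q
      have h2 := Nat.div_add_mod N' q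
      simp only at hdiv
      rw [← h1, ← h2, hdiv, hmod]
    have hmaps : ∀ N ∈ A.filter (fun N => f N = g), N / q ∈ range (x / q + 1) := by
      intro N hN
      rw [mem_filter, hA, mem_filter, mem_range] at hN
      rw [mem_range]
      have := Nat.div_le_div_right (c := q) hN.1.1.le
      omega
    have := card_le_card_of_injOn _ hmaps hinj
    rwa [card_range] at this
  calc A.card ≤ (x / q + 1) * (A.image f).card := card_le_mul_card_image A _ hfib
    _ ≤ (x / q + 1) * ∏ p ∈ Q, (p - nu H p) := by
        apply Nat.mul_le_mul_left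
        calc (A.image f).card ≤ (Fintype.piFinset (fun p : {p // p ∈ Q} => R p.1)).card := card_le_card himage
          _ = ∏ p : {p // p ∈ Q}, (R p.1).card := Fintype.card_piFinset _
          _ = ∏ p ∈ Q, (R p).card := Finset.prod_coe_sort Q (fun p => (R p).card)
          _ ≤ ∏ p ∈ Q, (p - nu H p) := Finset.prod_le_prod' hRcard

/-- Cauchy-Schwarz for residues -/
lemma pairs_ge (H : Finset ℕ) (p : ℕ) :
    (H.card : ℝ) ^ 2 ≤ (nu H p : ℝ) * (((H ×ˢ H).filter (fun x => x.1 % p = x.2 % p)).card : ℝ) := by
  classical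
  set I := H.image (fun h => h % p) with hI
  have h1 : (H.card : ℝ) = ∑ r ∈ I, ((H.filter (fun h => h % p = r)).card : ℝ) := by
    have := Finset.card_eq_sum_card_image (fun h => h % p) H
    exact_mod_cast this
  have h2 : (((H ×ˢ H).filter (fun x => x.1 % p = x.2 % p)).card : ℝ)
      = ∑ r ∈ I, ((H.filter (fun h => h % p = r)).card : ℝ) ^ 2 := by
    have h3 : ((H ×ˢ H).filter (fun x => x.1 % p = x.2 % p)).card
        = ∑ r ∈ I, (H.filter (fun h => h % p = r)).card ^ 2 := by
      rw [Finset.card_eq_sum_card_fiberwise (f := fun x : ℕ × ℕ => x.1 % p) (t := I)]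
      · apply Finset.sum_congr rfl
        intro r hr
        rw [sq, ← Finset.card_product]
        congr 1
        ext ⟨a, b⟩
        simp only [mem_filter, mem_product]
        constructor
        · rintro ⟨⟨⟨ha, hb⟩, hab⟩, har⟩
          exact ⟨⟨ha, har⟩, ⟨hb, by rw [← hab]; exact har⟩⟩
        · rintro ⟨⟨ha, har⟩, ⟨hb, hbr⟩⟩
          exact ⟨⟨⟨ha, hb⟩, by rw [har, hbr]⟩, har⟩
      · intro x hx
        simp only [coe_filter, mem_product, Set.mem_ofPred_eq] at hx
        simp only [hI, coe_image, Set.mem_image, mem_coe]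
        exact ⟨x.1, hx.1.1, rfl⟩
    exact_mod_cast h3
  rw [h1, h2]
  unfold nu
  exact sq_sum_le_card_mul_sum_sq

/-- larger sieve type inequality -/
lemma larger (Q : Finset ℕ) (hQ : ∀ p ∈ Q, p.Prime) (H : Finset ℕ) (n : ℕ) (hn : 1 ≤ n)
    (hH : ∀ h ∈ H, h < n) (hne : H.Nonempty) :
    ∑ p ∈ Q, Real.log p / (nu H p : ℝ) ≤ Real.log n + (∑ p ∈ Q, Real.log p) / H.card := by
  classical
  have hk : (0 : ℝ) < H.card := by exact_mod_cast hne.card_pos
  have hnu : ∀ p ∈ Q, (0 : ℝ) < nu H p := by
    intro p hp
    unfold nu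
    exact_mod_cast (hne.image _).card_pos
  have hlog : ∀ p ∈ Q, 0 ≤ Real.log p := fun p hp =>
    Real.log_nonneg (by exact_mod_cast (hQ p hp).one_lt.le)
  -- double counting
  have hdc : ∑ p ∈ Q, Real.log p * (((H ×ˢ H).filter (fun x => x.1 % p = x.2 % p)).card : ℝ)
      ≤ (H.card : ℝ) ^ 2 * Real.log n + H.card * ∑ p ∈ Q, Real.log p := by
    have h1 : ∑ p ∈ Q, Real.log p * (((H ×ˢ H).filter (fun x => x.1 % p = x.2 % p)).card : ℝ)
        = ∑ x ∈ H ×ˢ H, ∑ p ∈ Q, (if x.1 % p = x.2 % p then Real.log p else 0) := by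
      rw [Finset.sum_comm]
      apply Finset.sum_congr rfl
      intro p _
      rw [← Finset.sum_filter, Finset.sum_const, nsmul_eq_mul, mul_comm]
    rw [h1]
    have h2 : ∀ x ∈ H ×ˢ H, ∑ p ∈ Q, (if x.1 % p = x.2 % p then Real.log p else 0)
        ≤ Real.log n + (if x.1 = x.2 then ∑ p ∈ Q, Real.log p else 0) := by
      rintro ⟨a, b⟩ hx
      rw [mem_product] at hx
      simp only at hx ⊢
      by_cases hab : a = b
      · rw [if_pos hab]
        have h3 : ∑ p ∈ Q, (if a % p = b % p then Real.log p else 0) = ∑ p ∈ Q, Real.log p := by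
          apply Finset.sum_congr rfl
          intro p _
          rw [if_pos (by rw [hab])]
        rw [h3]
        have : 0 ≤ Real.log n := Real.log_nonneg (by exact_mod_cast hn)
        linarith
      · rw [if_neg hab, add_zero, ← Finset.sum_filter]
        set Q' := Q.filter (fun p => a % p = b % p) with hQ'
        have hdvd : (∏ p ∈ Q', p) ∣ ((a : ℤ) - b).natAbs := by
          apply Finset.prod_primes_dvd
          · intro p hp
            exact (hQ p (mem_filter.mp hp).1).prime
          · intro p hp
            have h4 : b ≡ a [MOD p] := (mem_filter.mp hp).2.symm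
            exact Int.natCast_dvd.mp (Nat.modEq_iff_dvd.mp h4)
        have hne0 : ((a : ℤ) - b).natAbs ≠ 0 := by
          intro h0
          rw [Int.natAbs_eq_zero, sub_eq_zero] at h0
          exact hab (by exact_mod_cast h0)
        have hle := Nat.le_of_dvd (Nat.pos_of_ne_zero hne0) hdvd
        have hlt : ((a : ℤ) - b).natAbs ≤ n := by
          have h5 := hH a hx.1
          have h6 := hH b hx.2
          omega
        have hpos : 0 < ∏ p ∈ Q', p := Finset.prod_pos fun p hp => (hQ p (mem_filter.mp hp).1).pos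
        have h7 : ∑ p ∈ Q', Real.log p = Real.log (∏ p ∈ Q', p : ℕ) := by
          push_cast
          rw [Real.log_prod]
          intro p hp
          have := (hQ p (mem_filter.mp hp).1).ne_zero
          exact_mod_cast this
        rw [h7]
        apply Real.log_le_log (by exact_mod_cast hpos)
        exact_mod_cast hle.trans hlt
    calc ∑ x ∈ H ×ˢ H, ∑ p ∈ Q, (if x.1 % p = x.2 % p then Real.log p else 0)
        ≤ ∑ x ∈ H ×ˢ H, (Real.log n + (if x.1 = x.2 then ∑ p ∈ Q, Real.log p else 0)) :=
          Finset.sum_le_sum h2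
      _ = (H.card : ℝ) ^ 2 * Real.log n + H.card * ∑ p ∈ Q, Real.log p := by
          rw [Finset.sum_add_distrib, Finset.sum_const, card_product, nsmul_eq_mul]
          congr 1
          · push_cast; ring
          · rw [Finset.sum_product]
            have : ∀ a ∈ H, ∑ b ∈ H, (if a = b then ∑ p ∈ Q, Real.log p else 0) = ∑ p ∈ Q, Real.log p := by
              intro a ha
              rw [Finset.sum_ite_eq, if_pos ha]
            rw [Finset.sum_congr rfl this, Finset.sum_const, nsmul_eq_mul]
  have hterm : ∀ p ∈ Q, (H.card : ℝ) ^ 2 * (Real.log p / (nu H p : ℝ))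
      ≤ Real.log p * (((H ×ˢ H).filter (fun x => x.1 % p = x.2 % p)).card : ℝ) := by
    intro p hp
    have h1 := pairs_ge H p
    have h2 := hnu p hp
    rw [mul_div_assoc', div_le_iff₀ h2]
    have h3 := mul_le_mul_of_nonneg_left h1 (hlog p hp)
    linarith
  have hsum := Finset.sum_le_sum hterm
  rw [← Finset.mul_sum] at hsum
  have hfin := hsum.trans hdc
  have hk2 : (0 : ℝ) < (H.card : ℝ) ^ 2 := by positivity
  have h4 : (H.card : ℝ) ^ 2 * (Real.log n + (∑ p ∈ Q, Real.log p) / H.card)
      = (H.card : ℝ) ^ 2 * Real.log n + H.card * ∑ p ∈ Q, Real.log p := by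
    field_simp
  rw [← h4] at hfin
  exact le_of_mul_le_mul_left hfin hk2

end Pool.Agent.H10.Pattern
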