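import Mathlib
import Pool.Agent.H10.Pattern1
set_option autoImplicit false

namespace Pool.Agent.H10.Pattern

open Finset Real

/-- the exact prime pattern of length `n` at `N` -/
def pat (n N : ℕ) : Finset ℕ := (range n).filter (fun j => (N + j).Prime)

lemma sum_pat (n x : ℕ) :
    n * ((Ico (2 * n) x).filter Nat.Prime).card ≤ ∑ N ∈ Ico n x, (pat n N).card := by
  classical
  have h1 : ∑ N ∈ Ico n x, (pat n N).card
      = ((Ico n x ×ˢ range n).filter (fun z => (z.1 + z.2).Prime)).card := by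
    rw [Finset.card_filter, Finset.sum_product]
    apply Finset.sum_congr rfl
    intro N _
    unfold pat
    rw [Finset.card_filter]
  rw [h1]
  have h2 : n * ((Ico (2 * n) x).filter Nat.Prime).card
      = (((Ico (2 * n) x).filter Nat.Prime) ×ˢ range n).card := by
    rw [card_product, card_range, mul_comm]
  rw [h2]
  apply card_le_card_of_injOn (fun z => (z.1 - z.2, z.2))
  · rintro ⟨q, j⟩ hz
    simp only [coe_product, Set.mem_prod, mem_coe, mem_filter, mem_Ico, mem_range] at hz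
    simp only [mem_filter, mem_product, mem_Ico, mem_range, coe_filter, Set.mem_ofPred_eq]
    obtain ⟨⟨⟨h3, h4⟩, h5⟩, h6⟩ := hz
    refine ⟨⟨⟨by omega, by omega⟩, h6⟩, ?_⟩
    have : q - j + j = q := by omega
    rwa [this]
  · rintro ⟨q, j⟩ hz ⟨q', j'⟩ hz' heq
    simp only [coe_product, Set.mem_prod, mem_coe, mem_filter, mem_Ico, mem_range] at hz hz'
    simp only [Prod.mk.injEq] at heq
    obtain ⟨h1, h2⟩ := heq
    subst h2
    obtain ⟨⟨⟨h3, h4⟩, h5⟩, h6⟩ := hz
    obtain ⟨⟨⟨h3', h4'⟩, h5'⟩, h6'⟩ := hz'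
    ext
    · simp only; omega
    · rfl

/-- many windows contain many primes -/
lemma rich (n x k : ℕ) :
    n * ((Ico (2 * n) x).filter Nat.Prime).card
      ≤ n * ((Ico n x).filter (fun N => k ≤ (pat n N).card)).card + k * x := by
  classical
  refine (sum_pat n x).trans ?_
  rw [← Finset.sum_filter_add_sum_filter_not (Ico n x) (fun N => k ≤ (pat n N).card)]
  apply add_le_add
  · calc ∑ N ∈ (Ico n x).filter (fun N => k ≤ (pat n N).card), (pat n N).card
        ≤ ∑ N ∈ (Ico n x).filter (fun N => k ≤ (pat n N).card), n := by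
          apply Finset.sum_le_sum
          intro N _
          unfold pat
          calc _ ≤ (range n).card := card_filter_le _ _
            _ = n := card_range n
      _ = n * ((Ico n x).filter (fun N => k ≤ (pat n N).card)).card := by
          rw [Finset.sum_const, smul_eq_mul, mul_comm]
  · calc ∑ N ∈ (Ico n x).filter (fun N => ¬ k ≤ (pat n N).card), (pat n N).card
        ≤ ∑ N ∈ (Ico n x).filter (fun N => ¬ k ≤ (pat n N).card), k := by
          apply Finset.sum_le_sum
          intro N hN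
          have := (mem_filter.mp hN).2
          omega
      _ = ((Ico n x).filter (fun N => ¬ k ≤ (pat n N).card)).card * k := by
          rw [Finset.sum_const, smul_eq_mul]
      _ ≤ x * k := by
          apply Nat.mul_le_mul_right
          calc _ ≤ (Ico n x).card := card_filter_le _ _
            _ = x - n := Nat.card_Ico n x
            _ ≤ x := Nat.sub_le _ _
      _ = k * x := mul_comm _ _

/-- each rich pattern is rare -/
lemma fiber_bound (y n : ℕ) (hy : 8 ≤ y) (hyn : y < n) (H : Finset ℕ) (hH : ∀ h ∈ H, h < n)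
    (hk : 2 * y ≤ H.card) :
    (((Ico n (4 ^ y)).filter (fun N => pat n N = H)).card : ℝ)
      ≤ 2 * (4 : ℝ) ^ y * Real.exp (-((((Ioc (y / 4) y).filter Nat.Prime).card : ℝ) ^ 2
          * Real.log ((y : ℝ) / 4) / (y * (Real.log n + 1)))) := by
  classical
  set Q := (Ioc (y / 4) y).filter Nat.Prime with hQ
  have hQp : ∀ p ∈ Q, p.Prime := fun p hp => (mem_filter.mp hp).2
  have hQy : ∀ p ∈ Q, p ≤ y := fun p hp => (mem_Ioc.mp (mem_filter.mp hp).1).2
  have hQl : ∀ p ∈ Q, (y : ℝ) / 4 ≤ p := by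
    intro p hp
    have h1 := (mem_Ioc.mp (mem_filter.mp hp).1).1
    have h2 : y < 4 * p := by omega
    have h3 : (y : ℝ) < 4 * p := by exact_mod_cast h2
    linarith
  have hne : H.Nonempty := by
    rw [← card_pos]; omega
  have hyR : (8 : ℝ) ≤ y := by exact_mod_cast hy
  have hL : 0 < Real.log ((y : ℝ) / 4) := Real.log_pos (by linarith)
  have hn1 : (1 : ℝ) ≤ n := by
    have : 1 ≤ n := by omega
    exact_mod_cast this
  have hlogn : 0 ≤ Real.log n := Real.log_nonneg hn1
  -- the product of the primes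
  have hprod : (∏ p ∈ Q, p) ≤ 4 ^ y := by
    calc (∏ p ∈ Q, p) ≤ primorial y := by
          unfold primorial
          apply Finset.prod_le_prod_of_subset_of_one_le'
          · intro p hp
            rw [mem_filter, mem_range]
            exact ⟨by have := hQy p hp; omega, hQp p hp⟩
          · intro p hp _
            exact (mem_filter.mp hp).2.one_lt.le
      _ ≤ 4 ^ y := primorial_le_four_pow y
  have hprodpos : 0 < ∏ p ∈ Q, p := Finset.prod_pos fun p hp => (hQp p hp).pos
  have hnule : ∀ p ∈ Q, nu H p ≤ p := by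
    intro p hp
    unfold nu
    calc (H.image (fun h => h % p)).card ≤ (range p).card := by
          apply card_le_card
          intro r hr
          obtain ⟨h, _, rfl⟩ := mem_image.mp hr
          rw [mem_range]
          exact Nat.mod_lt _ (hQp p hp).pos
      _ = p := card_range p
  have hnupos : ∀ p ∈ Q, (0 : ℝ) < nu H p := by
    intro p hp
    unfold nu
    exact_mod_cast (hne.image _).card_pos
  -- step 1: sieve
  have hs : (((Ico n (4 ^ y)).filter (fun N => pat n N = H)).card : ℝ)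
      ≤ 2 * (4 : ℝ) ^ y * ∏ p ∈ Q, (1 - (nu H p : ℝ) / p) := by
    have h1 : ((Ico n (4 ^ y)).filter (fun N => pat n N = H)).card
        ≤ ((range (4 ^ y)).filter (fun N => ∀ p ∈ Q, ∀ h ∈ H, ¬ p ∣ N + h)).card := by
      apply card_le_card
      intro N hN
      rw [mem_filter, mem_Ico] at hN
      rw [mem_filter, mem_range]
      refine ⟨hN.1.2, fun p hp h hh hdiv => ?_⟩
      have hmem : h ∈ pat n N := by rw [hN.2]; exact hh
      unfold pat at hmem
      have hprime := (mem_filter.mp hmem).2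
      rw [Nat.prime_dvd_prime_iff_eq (hQp p hp) hprime] at hdiv
      have := hQy p hp
      omega
    have h2 := sieve Q hQp H (4 ^ y)
    have h3 : (((Ico n (4 ^ y)).filter (fun N => pat n N = H)).card : ℝ)
        ≤ ((4 ^ y / (∏ p ∈ Q, p) + 1 : ℕ) : ℝ) * ((∏ p ∈ Q, (p - nu H p) : ℕ) : ℝ) := by
      exact_mod_cast h1.trans h2
    refine h3.trans ?_
    have h4 : ((4 ^ y / (∏ p ∈ Q, p) + 1 : ℕ) : ℝ) ≤ 2 * (4 : ℝ) ^ y / ((∏ p ∈ Q, p : ℕ) : ℝ) := by
      have hpR : (0 : ℝ) < ((∏ p ∈ Q, p : ℕ) : ℝ) := by exact_mod_cast hprodpos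
      have hpR2 : ((∏ p ∈ Q, p : ℕ) : ℝ) ≤ (4 : ℝ) ^ y := by exact_mod_cast hprod
      have h5 : ((4 ^ y / (∏ p ∈ Q, p) : ℕ) : ℝ) ≤ ((4 ^ y : ℕ) : ℝ) / ((∏ p ∈ Q, p : ℕ) : ℝ) :=
        Nat.cast_div_le
      rw [le_div_iff₀ hpR]
      rw [le_div_iff₀ hpR] at h5
      push_cast at h5 ⊢
      rw [add_mul, one_mul]
      push_cast at hpR2
      linarith
    have h6 : ((∏ p ∈ Q, (p - nu H p) : ℕ) : ℝ) = ∏ p ∈ Q, ((p : ℝ) - nu H p) := by
      push_cast
      apply Finset.prod_congr rfl
      intro p hp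
      rw [Nat.cast_sub (hnule p hp)]
    rw [h6]
    have h7 : 0 ≤ ∏ p ∈ Q, ((p : ℝ) - nu H p) := by
      apply Finset.prod_nonneg
      intro p hp
      have : (nu H p : ℝ) ≤ p := by exact_mod_cast hnule p hp
      linarith
    calc ((4 ^ y / (∏ p ∈ Q, p) + 1 : ℕ) : ℝ) * ∏ p ∈ Q, ((p : ℝ) - nu H p)
        ≤ 2 * (4 : ℝ) ^ y / ((∏ p ∈ Q, p : ℕ) : ℝ) * ∏ p ∈ Q, ((p : ℝ) - nu H p) :=
          mul_le_mul_of_nonneg_right h4 h7
      _ = 2 * (4 : ℝ) ^ y * ∏ p ∈ Q, (1 - (nu H p : ℝ) / p) := by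
          have h8 : ∏ p ∈ Q, (1 - (nu H p : ℝ) / p) = (∏ p ∈ Q, ((p : ℝ) - nu H p)) / ∏ p ∈ Q, (p : ℝ) := by
            rw [← Finset.prod_div_distrib]
            apply Finset.prod_congr rfl
            intro p hp
            have : (p : ℝ) ≠ 0 := by exact_mod_cast (hQp p hp).ne_zero
            field_simp
          rw [h8]
          push_cast
          ring
  -- step 2: exponentials
  have he : ∏ p ∈ Q, (1 - (nu H p : ℝ) / p) ≤ Real.exp (-∑ p ∈ Q, (nu H p : ℝ) / p) := by
    rw [← Finset.sum_neg_distrib, Real.exp_sum]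
    apply Finset.prod_le_prod
    · intro p hp
      have h1 : (nu H p : ℝ) ≤ p := by exact_mod_cast hnule p hp
      have h2 : (0 : ℝ) < p := by exact_mod_cast (hQp p hp).pos
      have : (nu H p : ℝ) / p ≤ 1 := by rw [div_le_one h2]; exact h1
      linarith
    · intro p _
      have := Real.add_one_le_exp (-((nu H p : ℝ) / p))
      linarith
  -- step 3: lower bound for the exponent
  have hsum : (Q.card : ℝ) ^ 2 * Real.log ((y : ℝ) / 4) / (y * (Real.log n + 1))
      ≤ ∑ p ∈ Q, (nu H p : ℝ) / p := by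
    have hlar := larger Q hQp H n (by omega) hH hne
    have hk' : (2 * y : ℝ) ≤ H.card := by exact_mod_cast hk
    have hthe : ∑ p ∈ Q, Real.log p ≤ 2 * y := by
      have h1 : ∑ p ∈ Q, Real.log p = Real.log (∏ p ∈ Q, p : ℕ) := by
        push_cast
        rw [Real.log_prod]
        intro p hp
        have := (hQp p hp).ne_zero
        exact_mod_cast this
      rw [h1]
      have h2 : Real.log ((∏ p ∈ Q, p : ℕ) : ℝ) ≤ Real.log ((4 : ℝ) ^ y) := by
        apply Real.log_le_log (by exact_mod_cast hprodpos)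
        exact_mod_cast hprod
      rw [Real.log_pow] at h2
      have h3 : Real.log 4 ≤ 2 := by
        have : Real.log 4 = 2 * Real.log 2 := by
          rw [show (4 : ℝ) = 2 ^ 2 by norm_num, Real.log_pow]; norm_num
        rw [this]
        have := Real.log_two_lt_d9
        linarith
      nlinarith
    have hkpos : (0 : ℝ) < H.card := by linarith
    have hB : (∑ p ∈ Q, Real.log p) / H.card ≤ 1 := by
      rw [div_le_one hkpos]; linarith
    have hC : ∑ p ∈ Q, 1 / (nu H p : ℝ) ≤ (Real.log n + 1) / Real.log ((y : ℝ) / 4) := by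
      rw [le_div_iff₀ hL, Finset.sum_mul]
      calc ∑ p ∈ Q, 1 / (nu H p : ℝ) * Real.log ((y : ℝ) / 4) ≤ ∑ p ∈ Q, Real.log p / (nu H p : ℝ) := by
            apply Finset.sum_le_sum
            intro p hp
            have h1 := hnupos p hp
            have h2 : Real.log ((y : ℝ) / 4) ≤ Real.log p :=
              Real.log_le_log (by linarith) (hQl p hp)
            rw [one_div, inv_mul_eq_div]
            exact div_le_div_of_nonneg_right h2 h1.le
        _ ≤ Real.log n + (∑ p ∈ Q, Real.log p) / H.card := hlar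
        _ ≤ Real.log n + 1 := by linarith
    -- Cauchy-Schwarz
    have hCS : (Q.card : ℝ) ^ 2 ≤ (∑ p ∈ Q, (nu H p : ℝ)) * (∑ p ∈ Q, 1 / (nu H p : ℝ)) := by
      have h1 := Finset.sum_mul_sq_le_sq_mul_sq Q (fun p => Real.sqrt (nu H p : ℝ)) (fun p => 1 / Real.sqrt (nu H p : ℝ))
      have h2 : ∑ p ∈ Q, Real.sqrt (nu H p : ℝ) * (1 / Real.sqrt (nu H p : ℝ)) = Q.card := by
        have : ∀ p ∈ Q, Real.sqrt (nu H p : ℝ) * (1 / Real.sqrt (nu H p : ℝ)) = 1 := by
          intro p hp
          have := Real.sqrt_pos.mpr (hnupos p hp)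
          field_simp
        rw [Finset.sum_congr rfl this]
        simp
      have h3 : ∑ p ∈ Q, Real.sqrt (nu H p : ℝ) ^ 2 = ∑ p ∈ Q, (nu H p : ℝ) := by
        apply Finset.sum_congr rfl
        intro p hp
        exact Real.sq_sqrt (hnupos p hp).le
      have h4 : ∑ p ∈ Q, (1 / Real.sqrt (nu H p : ℝ)) ^ 2 = ∑ p ∈ Q, 1 / (nu H p : ℝ) := by
        apply Finset.sum_congr rfl
        intro p hp
        rw [div_pow, one_pow, Real.sq_sqrt (hnupos p hp).le]
      rw [h2, h3, h4] at h1
      exact h1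
    have hS0 : 0 ≤ ∑ p ∈ Q, (nu H p : ℝ) := Finset.sum_nonneg fun p hp => (hnupos p hp).le
    have h5 : (Q.card : ℝ) ^ 2 ≤ (∑ p ∈ Q, (nu H p : ℝ)) * ((Real.log n + 1) / Real.log ((y : ℝ) / 4)) :=
      hCS.trans (mul_le_mul_of_nonneg_left hC hS0)
    have h6 : (∑ p ∈ Q, (nu H p : ℝ)) / y ≤ ∑ p ∈ Q, (nu H p : ℝ) / p := by
      rw [Finset.sum_div]
      apply Finset.sum_le_sum
      intro p hp
      have h7 : (p : ℝ) ≤ y := by exact_mod_cast hQy p hp
      have h8 : (0 : ℝ) < p := by exact_mod_cast (hQp p hp).pos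
      exact div_le_div_of_nonneg_left (hnupos p hp).le h8 h7
    refine le_trans ?_ h6
    rw [div_le_div_iff₀ (by positivity) (by linarith)]
    have h9 : (Q.card : ℝ) ^ 2 * Real.log ((y : ℝ) / 4) ≤ (∑ p ∈ Q, (nu H p : ℝ)) * (Real.log n + 1) := by
      have := mul_le_mul_of_nonneg_right h5 hL.le
      have h10 : (∑ p ∈ Q, (nu H p : ℝ)) * ((Real.log n + 1) / Real.log ((y : ℝ) / 4)) * Real.log ((y : ℝ) / 4)
          = (∑ p ∈ Q, (nu H p : ℝ)) * (Real.log n + 1) := by
        field_simp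
      linarith
    nlinarith
  calc (((Ico n (4 ^ y)).filter (fun N => pat n N = H)).card : ℝ)
      ≤ 2 * (4 : ℝ) ^ y * ∏ p ∈ Q, (1 - (nu H p : ℝ) / p) := hs
    _ ≤ 2 * (4 : ℝ) ^ y * Real.exp (-∑ p ∈ Q, (nu H p : ℝ) / p) :=
        mul_le_mul_of_nonneg_left he (by positivity)
    _ ≤ _ := by
        apply mul_le_mul_of_nonneg_left _ (by positivity)
        apply Real.exp_le_exp.mpr
        linarith

end Pool.Agent.H10.Pattern
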