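import Mathlib
import Pool.Agent.H10.Pattern2
set_option autoImplicit false

namespace Pool.Agent.H10.Pattern

open Finset Real

/-- number of primes in the dyadic type range, from Chebyshev bounds -/
lemma card_Q (y : ℕ) (hy : 2 ≤ y) :
    (y : ℝ) * Real.log 2 - Real.log (y + 1) - 2 * √y * Real.log y - Real.log 4 * (y / 4)
      ≤ (((Ioc (y / 4) y).filter Nat.Prime).card : ℝ) * Real.log y := by
  classical
  have h1 := Chebyshev.theta_ge y
  have h2 : Chebyshev.theta ((y / 4 : ℕ) : ℝ) ≤ Real.log 4 * ((y : ℝ) / 4) := by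
    refine (Chebyshev.theta_le_log4_mul_x (Nat.cast_nonneg _)).trans ?_
    apply mul_le_mul_of_nonneg_left
    · exact_mod_cast Nat.cast_div_le (α := ℝ) (m := y) (n := 4)
    · exact Real.log_nonneg (by norm_num)
  have h3 : Chebyshev.theta (y : ℝ) = Chebyshev.theta ((y / 4 : ℕ) : ℝ)
      + ∑ p ∈ (Ioc (y / 4) y).filter Nat.Prime, Real.log p := by
    unfold Chebyshev.theta
    rw [Nat.floor_natCast, Nat.floor_natCast]
    rw [← Finset.sum_union]
    · congr 1
      ext p
      simp only [mem_union, mem_filter, mem_Ioc]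
      constructor
      · rintro ⟨⟨h1, h2⟩, h3⟩
        by_cases h : p ≤ y / 4
        · exact Or.inl ⟨⟨h1, h⟩, h3⟩
        · exact Or.inr ⟨⟨by omega, h2⟩, h3⟩
      · rintro (⟨⟨h1, h2⟩, h3⟩ | ⟨⟨h1, h2⟩, h3⟩)
        · exact ⟨⟨h1, by omega⟩, h3⟩
        · exact ⟨⟨by omega, h2⟩, h3⟩
    · rw [disjoint_left]
      intro p hp hp'
      simp only [mem_filter, mem_Ioc] at hp hp'
      omega
  have h4 : ∑ p ∈ (Ioc (y / 4) y).filter Nat.Prime, Real.log p
      ≤ (((Ioc (y / 4) y).filter Nat.Prime).card : ℝ) * Real.log y := by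
    rw [← nsmul_eq_mul]
    apply Finset.sum_le_card_nsmul
    intro p hp
    rw [mem_filter, mem_Ioc] at hp
    apply Real.log_le_log
    · exact_mod_cast hp.2.pos
    · exact_mod_cast hp.1.2
  linarith

/-- primes up to a power of four -/
lemma prime_count (y n : ℕ) (hy : 1 ≤ y) :
    (4 : ℝ) ^ y / (2 * y) - 3 - 2 * n ≤ (((Ico (2 * n) (4 ^ y)).filter Nat.Prime).card : ℝ) := by
  classical
  have hyR : (1 : ℝ) ≤ y := by exact_mod_cast hy
  have h1 := Chebyshev.pi_ge (4 ^ y)
  have hlog2 : 0 < Real.log 2 := Real.log_pos (by norm_num)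
  have hlog4 : Real.log 4 = 2 * Real.log 2 := by
    rw [show (4 : ℝ) = 2 ^ 2 by norm_num, Real.log_pow]; norm_num
  have hlogx : Real.log (((4 ^ y : ℕ) : ℝ)) = 2 * y * Real.log 2 := by
    push_cast
    rw [Real.log_pow, hlog4]; ring
  have hlog1 : Real.log (((4 ^ y : ℕ) : ℝ) + 1) ≤ 4 * y * Real.log 2 := by
    have h2 : ((4 ^ y : ℕ) : ℝ) + 1 ≤ 2 * ((4 ^ y : ℕ) : ℝ) := by
      have : (1 : ℝ) ≤ ((4 ^ y : ℕ) : ℝ) := by exact_mod_cast Nat.one_le_pow _ _ (by norm_num)
      linarith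
    have h3 : Real.log (((4 ^ y : ℕ) : ℝ) + 1) ≤ Real.log (2 * ((4 ^ y : ℕ) : ℝ)) :=
      Real.log_le_log (by positivity) h2
    rw [Real.log_mul (by norm_num) (by positivity), hlogx] at h3
    nlinarith
  have h5 : (4 : ℝ) ^ y / (2 * y) - 2 ≤ ((Nat.primeCounting (4 ^ y) : ℕ) : ℝ) := by
    refine le_trans ?_ h1
    rw [hlogx, le_div_iff₀ (by positivity)]
    push_cast at hlog1 ⊢
    have h6 : ((4 : ℝ) ^ y / (2 * y) - 2) * (2 * y * Real.log 2) = (4 : ℝ) ^ y * Real.log 2 - 4 * y * Real.log 2 := by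
      field_simp
      ring
    rw [h6]
    linarith
  have h7 : Nat.primeCounting (4 ^ y) ≤ ((Ico (2 * n) (4 ^ y)).filter Nat.Prime).card + (2 * n + 1) := by
    rw [Nat.primeCounting, Nat.primeCounting', Nat.count_eq_card_filter_range]
    calc ((range (4 ^ y + 1)).filter Nat.Prime).card
        ≤ (((Ico (2 * n) (4 ^ y)).filter Nat.Prime) ∪ (range (2 * n) ∪ {4 ^ y})).card := by
          apply card_le_card
          intro p hp
          simp only [mem_filter, mem_range] at hp
          simp only [mem_union, mem_filter, mem_Ico, mem_range, mem_singleton]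
          by_cases h : p < 2 * n
          · exact Or.inr (Or.inl h)
          · by_cases h' : p = 4 ^ y
            · exact Or.inr (Or.inr h')
            · exact Or.inl ⟨⟨by omega, by omega⟩, hp.2⟩
      _ ≤ ((Ico (2 * n) (4 ^ y)).filter Nat.Prime).card + (range (2 * n) ∪ {4 ^ y}).card := card_union_le _ _
      _ ≤ ((Ico (2 * n) (4 ^ y)).filter Nat.Prime).card + (2 * n + 1) := by
          apply Nat.add_le_add_left
          calc _ ≤ (range (2 * n)).card + ({4 ^ y} : Finset ℕ).card := card_union_le _ _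
            _ = 2 * n + 1 := by simp
  have h8 : ((Nat.primeCounting (4 ^ y) : ℕ) : ℝ) ≤ (((Ico (2 * n) (4 ^ y)).filter Nat.Prime).card : ℝ) + (2 * n + 1) := by
    exact_mod_cast h7
  linarith

/-- the finite inequality: a lower bound for the number of rich patterns -/
lemma patterns_ge (y n : ℕ) (hy : 8 ≤ y) (hn1 : 16 * y ^ 2 ≤ n)
    (hbig : 4 * (y : ℝ) * (2 * n + 3) ≤ (4 : ℝ) ^ y) :
    Real.exp ((((Ioc (y / 4) y).filter Nat.Prime).card : ℝ) ^ 2
          * Real.log ((y : ℝ) / 4) / (y * (Real.log n + 1))) / (16 * y)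
      ≤ ((((Ico n (4 ^ y)).filter (fun N => 2 * y ≤ (pat n N).card)).image (pat n)).card : ℝ) := by
  classical
  set S := (((Ioc (y / 4) y).filter Nat.Prime).card : ℝ) ^ 2
          * Real.log ((y : ℝ) / 4) / (y * (Real.log n + 1)) with hS
  set R := (Ico n (4 ^ y)).filter (fun N => 2 * y ≤ (pat n N).card) with hR
  have hyR : (8 : ℝ) ≤ y := by exact_mod_cast hy
  have hyn : y < n := by nlinarith
  have hnpos : (0 : ℝ) < n := by
    have : 0 < n := by omega
    exact_mod_cast this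
  -- R is large
  have hRbig : (4 : ℝ) ^ y / (8 * y) ≤ (R.card : ℝ) := by
    have h1 := rich n (4 ^ y) (2 * y)
    have h2 := prime_count y n (by omega)
    have h3 : (4 : ℝ) ^ y / (4 * y) ≤ (((Ico (2 * n) (4 ^ y)).filter Nat.Prime).card : ℝ) := by
      have h4 : (2 * n + 3 : ℝ) ≤ (4 : ℝ) ^ y / (4 * y) := by
        rw [le_div_iff₀ (by positivity)]
        linarith
      have h5 : (4 : ℝ) ^ y / (2 * y) = 2 * ((4 : ℝ) ^ y / (4 * y)) := by
        field_simp
        norm_num
      linarith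
    have h6 : (n : ℝ) * (((Ico (2 * n) (4 ^ y)).filter Nat.Prime).card : ℝ) ≤ n * R.card + 2 * y * (4 : ℝ) ^ y := by
      exact_mod_cast h1
    have h7 : (n : ℝ) * ((4 : ℝ) ^ y / (4 * y)) ≤ n * R.card + 2 * y * (4 : ℝ) ^ y :=
      le_trans (mul_le_mul_of_nonneg_left h3 hnpos.le) h6
    have h8 : 2 * (y : ℝ) * (4 : ℝ) ^ y ≤ n * ((4 : ℝ) ^ y / (8 * y)) := by
      rw [mul_div_assoc', le_div_iff₀ (by positivity)]
      have h9 : (16 * y ^ 2 : ℝ) ≤ n := by exact_mod_cast hn1
      have h10 : (0 : ℝ) < (4 : ℝ) ^ y := by positivity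
      nlinarith
    have h11 : (n : ℝ) * ((4 : ℝ) ^ y / (4 * y)) = n * ((4 : ℝ) ^ y / (8 * y)) + n * ((4 : ℝ) ^ y / (8 * y)) := by
      field_simp
      norm_num
    have h12 : (n : ℝ) * ((4 : ℝ) ^ y / (8 * y)) ≤ n * R.card := by linarith
    exact le_of_mul_le_mul_left h12 hnpos
  -- fibres are small
  have hfib : (R.card : ℝ) ≤ ((R.image (pat n)).card : ℝ) * (2 * (4 : ℝ) ^ y * Real.exp (-S)) := by
    have h1 : R.card = ∑ H ∈ R.image (pat n), (R.filter (fun N => pat n N = H)).card :=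
      card_eq_sum_card_image (pat n) R
    have h2 : (R.card : ℝ) = ∑ H ∈ R.image (pat n), ((R.filter (fun N => pat n N = H)).card : ℝ) := by
      exact_mod_cast h1
    rw [h2, ← nsmul_eq_mul]
    apply Finset.sum_le_card_nsmul
    intro H hH
    obtain ⟨N, hN, rfl⟩ := mem_image.mp hH
    have h3 : 2 * y ≤ (pat n N).card := (mem_filter.mp hN).2
    have h4 := fiber_bound y n hy hyn (pat n N) (fun h hh => mem_range.mp (mem_filter.mp hh).1) h3
    refine le_trans ?_ h4
    have h5 : (R.filter (fun N' => pat n N' = pat n N)).card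
        ≤ ((Ico n (4 ^ y)).filter (fun N' => pat n N' = pat n N)).card := by
      apply card_le_card
      intro M hM
      rw [mem_filter] at hM ⊢
      exact ⟨(mem_filter.mp hM.1).1, hM.2⟩
    exact_mod_cast h5
  have h4y : (0 : ℝ) < (4 : ℝ) ^ y := by positivity
  have hfin := hRbig.trans hfib
  rw [Real.exp_neg] at hfin
  have hexp : 0 < Real.exp S := Real.exp_pos S
  rw [div_le_iff₀ (by positivity)]
  rw [div_le_iff₀ (by positivity)] at hfin
  have h1 : ((R.image (pat n)).card : ℝ) * (2 * (4 : ℝ) ^ y * (Real.exp S)⁻¹) * (8 * y)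
      = (4 : ℝ) ^ y * ((((R.image (pat n)).card : ℝ) * (16 * y)) / Real.exp S) := by
    field_simp
    ring
  rw [h1] at hfin
  have h2 : 1 ≤ (((R.image (pat n)).card : ℝ) * (16 * y)) / Real.exp S := by
    by_contra hcon
    push Not at hcon
    nlinarith
  rw [le_div_iff₀ hexp] at h2
  linarith

end Pool.Agent.H10.Pattern
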