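import Mathlib
import Pool.Agent.H10.Pattern3
set_option autoImplicit false

namespace Pool.Agent.H10.Pattern

open Finset Real Filter

lemma ev_log_le (r : ℝ) (hr : 0 < r) (ε : ℝ) (hε : 0 < ε) :
    ∀ᶠ y : ℕ in atTop, Real.log y ≤ ε * (y : ℝ) ^ r := by
  have h1 := (isLittleO_log_rpow_atTop hr).bound hε
  have h2 := tendsto_natCast_atTop_atTop (R := ℝ) |>.eventually h1
  filter_upwards [h2, eventually_ge_atTop 1] with y hy hy1
  have hy1' : (1 : ℝ) ≤ y := by exact_mod_cast hy1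
  rw [Real.norm_of_nonneg (Real.log_nonneg hy1'), Real.norm_of_nonneg (by positivity)] at hy
  exact hy

lemma evA : ∀ᶠ y : ℕ in atTop, (y : ℝ) / 4 ≤ (((Ioc (y / 4) y).filter Nat.Prime).card : ℝ) * Real.log y := by
  filter_upwards [ev_log_le (1 / 2) (by norm_num) 0.02 (by norm_num),
    ev_log_le 1 (by norm_num) 0.005 (by norm_num), eventually_ge_atTop 200] with y h1 h2 hy
  have hyR : (200 : ℝ) ≤ y := by exact_mod_cast hy
  have h3 := card_Q y (by omega)
  rw [← Real.sqrt_eq_rpow] at h1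
  rw [Real.rpow_one] at h2
  have h4 : √(y : ℝ) * Real.log y ≤ 0.02 * y := by
    have := mul_le_mul_of_nonneg_left h1 (Real.sqrt_nonneg (y : ℝ))
    have h5 : √(y : ℝ) * (0.02 * √(y : ℝ)) = 0.02 * (√(y : ℝ) * √(y : ℝ)) := by ring
    rw [h5, Real.mul_self_sqrt (by positivity)] at this
    exact this
  have h6 : Real.log ((y : ℝ) + 1) ≤ 0.01 * y := by
    have h7 : Real.log ((y : ℝ) + 1) ≤ Real.log (2 * y) := Real.log_le_log (by positivity) (by linarith)
    rw [Real.log_mul (by norm_num) (by positivity)] at h7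
    have h8 := Real.log_two_lt_d9
    linarith
  have hlog4 : Real.log 4 = 2 * Real.log 2 := by
    rw [show (4 : ℝ) = 2 ^ 2 by norm_num, Real.log_pow]; norm_num
  have h9 := Real.log_two_gt_d9
  rw [hlog4] at h3
  nlinarith

lemma evB : ∀ᶠ y : ℕ in atTop, 4 * (y : ℝ) * (2 * (16 * ((y : ℝ) + 1) ^ 2) + 3) ≤ (4 : ℝ) ^ y := by
  have h1 := tendsto_pow_const_div_const_pow_of_one_lt 3 (show (1 : ℝ) < 4 by norm_num)
  have h2 := h1.eventually_le_const (show (0 : ℝ) < 1 / 524 by norm_num)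
  filter_upwards [h2, eventually_ge_atTop 1] with y hy hy1
  have hy1' : (1 : ℝ) ≤ y := by exact_mod_cast hy1
  rw [div_le_div_iff₀ (by positivity) (by norm_num)] at hy
  have h3 : ((y : ℝ) + 1) ^ 2 ≤ 4 * (y : ℝ) ^ 2 := by nlinarith
  have h4 : (3 : ℝ) ≤ 3 * (y : ℝ) ^ 2 := by nlinarith
  calc 4 * (y : ℝ) * (2 * (16 * ((y : ℝ) + 1) ^ 2) + 3)
      ≤ 4 * (y : ℝ) * (2 * (16 * (4 * (y : ℝ) ^ 2)) + 3 * (y : ℝ) ^ 2) := by
        apply mul_le_mul_of_nonneg_left _ (by positivity)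
        linarith
    _ = (y : ℝ) ^ 3 * 524 := by ring
    _ ≤ (4 : ℝ) ^ y := by linarith

lemma evC : ∀ᶠ y : ℕ in atTop, Real.log (16 * ((y : ℝ) + 1) ^ 2) + 1 ≤ 4 * Real.log y := by
  filter_upwards [eventually_ge_atTop 16] with y hy
  have hyR : (16 : ℝ) ≤ y := by exact_mod_cast hy
  have h1 : Real.log (16 * ((y : ℝ) + 1) ^ 2) ≤ Real.log (16 * (2 * (y : ℝ)) ^ 2) := by
    apply Real.log_le_log (by positivity)
    apply mul_le_mul_of_nonneg_left _ (by norm_num)
    apply pow_le_pow_left₀ (by positivity)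
    linarith
  have h2 : Real.log (16 * (2 * (y : ℝ)) ^ 2) = 6 * Real.log 2 + 2 * Real.log y := by
    rw [show 16 * (2 * (y : ℝ)) ^ 2 = 2 ^ 6 * (y : ℝ) ^ 2 by ring, Real.log_mul (by positivity) (by positivity),
      Real.log_pow, Real.log_pow]
    norm_num
  have h3 : 4 * Real.log 2 ≤ Real.log y := by
    have : Real.log ((2 : ℝ) ^ 4) ≤ Real.log y := Real.log_le_log (by positivity) (by linarith)
    rw [Real.log_pow] at this
    exact_mod_cast this
  have h4 := Real.log_two_gt_d9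
  linarith

lemma evE : ∀ᶠ y : ℕ in atTop, Real.log (16 * (y : ℝ)) ≤ (y : ℝ) / (256 * Real.log y ^ 2) := by
  filter_upwards [ev_log_le (1 / 3) (by norm_num) (1 / 8) (by norm_num), eventually_ge_atTop 16] with y h1 hy
  have hyR : (16 : ℝ) ≤ y := by exact_mod_cast hy
  have hlog : 0 < Real.log y := Real.log_pos (by linarith)
  have h2 : Real.log (16 * (y : ℝ)) ≤ 2 * Real.log y := by
    have h3 : Real.log (16 * (y : ℝ)) ≤ Real.log ((y : ℝ) ^ 2) :=
      Real.log_le_log (by positivity) (by nlinarith)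
    rw [Real.log_pow] at h3
    exact_mod_cast h3
  refine h2.trans ?_
  rw [le_div_iff₀ (by positivity)]
  have h3 : Real.log y ^ 3 ≤ ((1 / 8) * (y : ℝ) ^ (1 / 3 : ℝ)) ^ 3 := pow_le_pow_left₀ hlog.le h1 3
  have h4 : ((1 / 8) * (y : ℝ) ^ (1 / 3 : ℝ)) ^ 3 = y / 512 := by
    rw [mul_pow, ← Real.rpow_natCast ((y : ℝ) ^ (1 / 3 : ℝ)) 3, ← Real.rpow_mul (by positivity)]
    norm_num
    ring
  rw [h4] at h3
  nlinarith

/-- main theorem on the number of exact prime patterns -/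
theorem main : ∃ c : ℝ, 0 < c ∧ ∀ᶠ n : ℕ in atTop,
    Real.exp (c * √(n : ℝ) / Real.log n ^ 2)
      ≤ (({W : Finset ℕ | √(n : ℝ) / 3 ≤ W.card ∧ ∃ N : ℕ, n ≤ N ∧
          W = (range n).filter (fun j => (N + j).Prime)}.ncard : ℕ) : ℝ) := by
  classical
  refine ⟨1 / 2048, by norm_num, ?_⟩
  have htend : Tendsto (fun n : ℕ => Nat.sqrt (n / 16)) atTop atTop := by
    rw [tendsto_atTop]
    intro b
    filter_upwards [eventually_ge_atTop (16 * b ^ 2)] with n hn
    rw [Nat.le_sqrt']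
    omega
  have hev := htend.eventually (evA.and (evB.and (evC.and (evE.and (eventually_ge_atTop 200)))))
  filter_upwards [hev] with n hn
  set y := Nat.sqrt (n / 16) with hy
  obtain ⟨hA, hB, hC, hE, hy200⟩ := hn
  have hyR : (200 : ℝ) ≤ y := by exact_mod_cast hy200
  have hn1 : 16 * y ^ 2 ≤ n := by
    have := Nat.sqrt_le' (n / 16)
    rw [← hy] at this
    omega
  have hn2 : n < 16 * (y + 1) ^ 2 := by
    have := Nat.lt_succ_sqrt' (n / 16)
    rw [← hy] at this
    have h' : n / 16 < (y + 1) ^ 2 := this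
    omega
  have hn1R : 16 * (y : ℝ) ^ 2 ≤ n := by exact_mod_cast hn1
  have hn2R : (n : ℝ) ≤ 16 * ((y : ℝ) + 1) ^ 2 := by exact_mod_cast hn2.le
  have hnpos : (0 : ℝ) < n := by nlinarith
  have hlogy : 0 < Real.log y := Real.log_pos (by linarith)
  have hbig : 4 * (y : ℝ) * (2 * n + 3) ≤ (4 : ℝ) ^ y := by
    refine le_trans ?_ hB
    apply mul_le_mul_of_nonneg_left _ (by positivity)
    linarith
  have hpat := patterns_ge y n (by omega) hn1 hbig
  set m : ℝ := (((Ioc (y / 4) y).filter Nat.Prime).card : ℝ) with hm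
  have hm0 : 0 ≤ m := Nat.cast_nonneg _
  -- bounds on logs
  have hlogn : Real.log n + 1 ≤ 4 * Real.log y := by
    have : Real.log n ≤ Real.log (16 * ((y : ℝ) + 1) ^ 2) := Real.log_le_log hnpos hn2R
    linarith
  have hlogn1 : Real.log y ≤ Real.log n := Real.log_le_log (by linarith) (by nlinarith)
  have hlogn0 : 0 < Real.log n := lt_of_lt_of_le hlogy hlogn1
  have hlogy4 : Real.log y / 2 ≤ Real.log ((y : ℝ) / 4) := by
    have h1 : Real.log ((y : ℝ)) ≤ Real.log (((y : ℝ) / 4) ^ 2) := by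
      apply Real.log_le_log (by positivity)
      nlinarith
    rw [Real.log_pow] at h1
    push_cast at h1
    linarith
  -- the exponent
  have hS : (y : ℝ) / (128 * Real.log y ^ 2) ≤ m ^ 2 * Real.log ((y : ℝ) / 4) / (y * (Real.log n + 1)) := by
    have h1 : (y : ℝ) ^ 2 / 16 ≤ m ^ 2 * Real.log y ^ 2 := by
      have := pow_le_pow_left₀ (by positivity : (0 : ℝ) ≤ (y : ℝ) / 4) hA 2
      rw [mul_pow] at this
      linarith
    rw [div_le_div_iff₀ (by positivity) (by positivity)]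
    have h2 : (y : ℝ) * (y * (Real.log n + 1)) ≤ (y : ℝ) * (y * (4 * Real.log y)) := by
      apply mul_le_mul_of_nonneg_left _ (by positivity)
      exact mul_le_mul_of_nonneg_left hlogn (by positivity)
    have h3 : m ^ 2 * (Real.log y / 2) ≤ m ^ 2 * Real.log ((y : ℝ) / 4) :=
      mul_le_mul_of_nonneg_left hlogy4 (by positivity)
    calc (y : ℝ) * (y * (Real.log n + 1)) ≤ (y : ℝ) * (y * (4 * Real.log y)) := h2
      _ = ((y : ℝ) ^ 2 / 16) * (64 * Real.log y) := by ring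
      _ ≤ (m ^ 2 * Real.log y ^ 2) * (64 * Real.log y) := mul_le_mul_of_nonneg_right h1 (by positivity)
      _ = m ^ 2 * (Real.log y / 2) * (128 * Real.log y ^ 2) := by ring
      _ ≤ m ^ 2 * Real.log ((y : ℝ) / 4) * (128 * Real.log y ^ 2) :=
          mul_le_mul_of_nonneg_right h3 (by positivity)
  have hsq : √(n : ℝ) ≤ 4 * ((y : ℝ) + 1) := by
    rw [show 4 * ((y : ℝ) + 1) = √((4 * ((y : ℝ) + 1)) ^ 2) from (Real.sqrt_sq (by positivity)).symm]
    apply Real.sqrt_le_sqrt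
    nlinarith
  have hgoal1 : 1 / 2048 * √(n : ℝ) / Real.log n ^ 2 ≤ (y : ℝ) / (256 * Real.log y ^ 2) := by
    have h1 : 1 / 2048 * √(n : ℝ) ≤ (y : ℝ) / 256 := by linarith
    have h2 : Real.log y ^ 2 ≤ Real.log n ^ 2 := pow_le_pow_left₀ hlogy.le hlogn1 2
    calc 1 / 2048 * √(n : ℝ) / Real.log n ^ 2 ≤ ((y : ℝ) / 256) / Real.log n ^ 2 :=
          div_le_div_of_nonneg_right h1 (by positivity)
      _ ≤ ((y : ℝ) / 256) / Real.log y ^ 2 :=
          div_le_div_of_nonneg_left (by positivity) (by positivity) h2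
      _ = (y : ℝ) / (256 * Real.log y ^ 2) := by rw [div_div]
  have hexp : Real.exp (1 / 2048 * √(n : ℝ) / Real.log n ^ 2)
      ≤ Real.exp (m ^ 2 * Real.log ((y : ℝ) / 4) / (y * (Real.log n + 1))) / (16 * y) := by
    rw [le_div_iff₀ (by positivity)]
    have h1 : (16 * (y : ℝ)) = Real.exp (Real.log (16 * y)) := (Real.exp_log (by positivity)).symm
    rw [h1, ← Real.exp_add]
    apply Real.exp_le_exp.mpr
    have h2 : (y : ℝ) / (128 * Real.log y ^ 2) = (y : ℝ) / (256 * Real.log y ^ 2) + (y : ℝ) / (256 * Real.log y ^ 2) := by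
      field_simp
      norm_num
    linarith
  refine (hexp.trans hpat).trans ?_
  -- compare with ncard
  have hsub : (((Ico n (4 ^ y)).filter (fun N => 2 * y ≤ (pat n N).card)).image (pat n) : Finset (Finset ℕ))
      ⊆ ((range n).powerset.filter (fun W => √(n : ℝ) / 3 ≤ W.card ∧ ∃ N : ℕ, n ≤ N ∧
          W = (range n).filter (fun j => (N + j).Prime))) := by
    intro W hW
    obtain ⟨N, hN, rfl⟩ := mem_image.mp hW
    rw [mem_filter, mem_Ico] at hN
    rw [mem_filter, mem_powerset]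
    refine ⟨filter_subset _ _, ?_, N, hN.1.1, rfl⟩
    have h1 : (2 * y : ℝ) ≤ ((pat n N).card : ℝ) := by exact_mod_cast hN.2
    linarith
  have hset : {W : Finset ℕ | √(n : ℝ) / 3 ≤ W.card ∧ ∃ N : ℕ, n ≤ N ∧
          W = (range n).filter (fun j => (N + j).Prime)}
      = (((range n).powerset.filter (fun W => √(n : ℝ) / 3 ≤ W.card ∧ ∃ N : ℕ, n ≤ N ∧
          W = (range n).filter (fun j => (N + j).Prime)) : Finset (Finset ℕ)) : Set (Finset ℕ)) := by
    ext W
    simp only [Set.mem_ofPred_eq, coe_filter, mem_powerset]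
    constructor
    · rintro ⟨h1, N, h2, h3⟩
      refine ⟨?_, h1, N, h2, h3⟩
      rw [h3]
      exact filter_subset _ _
    · rintro ⟨_, h⟩
      exact h
  rw [hset, Set.ncard_coe_finset]
  exact_mod_cast card_le_card hsub

end Pool.Agent.H10.Pattern
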